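import Pool.Agent.P.MP_6277db_ag.KEW.PT.SR0
import Pool.Agent.P.MP_6277db_ag.KEW.CA.SR3

/-!
KEW L5.1, L5.2: Suslin rigidity.
Hints.  `tr_factor`: `sec_loc` for `T[X] → Y`, `π = AdjoinRoot.mk ω` gives `e` with `θ e = 1`, `e ker θ ⊆ (ω(u))`.  On
`Y1 = Y[1/e]` (`tr_away`; `e ≡ 1` mod `ker θ = (Φ)`) one has `(Φ) = (ω(u))`, and `ω(u)` is a nonzerodivisor
(`Et1.monic_regular`), so `Φ = unit * (u - c) * q(u)^m`; `ker (t1 ∘ θ1) = (u - c)` on `Y1`; `tr_add`, `tr_pow`, `tors`.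
`sr_one`: `E2 = E ⊗_C R` (`exists_isPO`), `u2 = u - s0 u` (`IsPO.et1`, `Et1.sub_const`), `sr_core`; for `T`, `τ` get `Y2` and the map
`Y → Y2` from `IsPO.exists_lift` (on `C'` it is `ψ2 ∘ a0 ∘ ψ`); `map t0 = (m e0 + 1) • map t0 = tr (u^M) = tr Φ = map (t1 ∘ θ)`.
`Rigid.of_factor`: `C2' = C2 ⊗_C C'`, `IsPO.cancel'`.  `Rigid.trans`: build the middle map with `IsPO.exists_lift`.
`srn`: induction on the number of coordinates (`Finite.induction_empty_option` or `Fin n`), for all `C`: the intermediate map (by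
`HL0_etN`) has the coordinate `k0` of `s1` and the other coordinates of `s0`; use `EtN.et1`, `EtN.etN_erase`,
`sr_one`, the induction hypothesis, `UL_mod` for the empty case.
-/

namespace KEW

universe u v

open Polynomial

variable {κ C0 C2 E R R' T Y : Type u} [CommRing κ] [CommRing C0] [CommRing C2] [CommRing E]
  [CommRing R] [CommRing R'] [CommRing T] [CommRing Y] {m : ℕ}

theorem rigid_refl (ε : C0 →+* E) (s : E →+* R) : Rigid.{u, v} m ε s s := by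
  intro κ _ P C' Y T _ _ _ γ j ψ c y t τ a0 a1 h0 h1 hpo _ _ ha0 ha1 hψ x
  exact P.map_congr (hpo.hom_ext (ha0.trans ha1.symm) hψ) h0 h1 x

theorem Rigid.symm {ε : C0 →+* E} {s0 s1 : E →+* R} (h : Rigid.{u, v} m ε s0 s1) :
    Rigid.{u, v} m ε s1 s0 := by
  intro κ _ P C' Y T _ _ _ γ j ψ c y t τ a0 a1 h0 h1 hpo hc ht ha0 ha1 hψ x
  exact (h κ P C' Y T γ j ψ c y t τ a1 a0 h1 h0 hpo hc ht ha1 ha0 hψ.symm x).symm

theorem Rigid.trans {ε : C0 →+* E} {s0 s1 s2 : E →+* R} (w : s0.comp ε = s1.comp ε)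
    (h : Rigid.{u, v} m ε s0 s1) (h' : Rigid.{u, v} m ε s1 s2) : Rigid.{u, v} m ε s0 s2 := by
  intro κ _ P C' Y T _ _ _ γ j ψ c y t τ a0 a2 h0 h2 hpo hc ht ha0 ha2 hψ x
  have hw : (τ.comp s1).comp ε = (a0.comp ψ).comp γ := by
    rw [RingHom.comp_assoc, ← w, ← RingHom.comp_assoc, ← ha0, RingHom.comp_assoc, hpo.comm,
      RingHom.comp_assoc]
  obtain ⟨a1, ha1, hψ1⟩ := hpo.exists_lift (τ.comp s1) (a0.comp ψ) hw
  have h1 : a1.comp y = t := by
    rw [← hc, ← RingHom.comp_assoc, hψ1, RingHom.comp_assoc, hc, h0]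
  exact (h κ P C' Y T γ j ψ c y t τ a0 a1 h0 h1 hpo hc ht ha0 ha1 hψ1.symm x).trans
    (h' κ P C' Y T γ j ψ c y t τ a1 a2 h1 h2 hpo hc ht ha1 ha2 (hψ1.trans hψ) x)

theorem Rigid.comp {ε : C0 →+* E} {s0 s1 : E →+* R} (h : Rigid.{u, v} m ε s0 s1) (ρ : R →+* R') :
    Rigid.{u, v} m ε (ρ.comp s0) (ρ.comp s1) := by
  intro κ _ P C' Y T _ _ _ γ j ψ c y t τ a0 a1 h0 h1 hpo hc ht ha0 ha1 hψ x
  exact h κ P C' Y T γ j ψ c y t (τ.comp ρ) a0 a1 h0 h1 hpo hc ht ha0 ha1 hψ x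

theorem Rigid.of_factor {ι : C0 →+* C2} {ε : C2 →+* E} {s0 s1 : E →+* R}
    (w : s0.comp ε = s1.comp ε) (h : Rigid.{u, v} m ε s0 s1) : Rigid.{u, v} m (ε.comp ι) s0 s1 := by
  intro κ _ P C' Y T _ _ _ γ j ψ c y t τ a0 a1 h0 h1 hpo hc ht ha0 ha1 hψ x
  obtain ⟨C2', _, i, j', hpo2⟩ := exists_isPO ι γ
  have hw : (j.comp ε).comp ι = ψ.comp γ := by rw [RingHom.comp_assoc, hpo.comm]
  obtain ⟨ψ', hi, hj⟩ := hpo2.exists_lift (j.comp ε) ψ hw
  have hpo3 : IsPO ε i j ψ' := hpo2.cancel' hi.symm (by rw [hj]; exact hpo)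
  have hc' : ψ'.comp (j'.comp c) = y := by rw [← RingHom.comp_assoc, hj, hc]
  have hψ' : a0.comp ψ' = a1.comp ψ' := by
    refine hpo2.hom_ext ?_ ?_
    · rw [RingHom.comp_assoc, RingHom.comp_assoc, hi, ← RingHom.comp_assoc, ← RingHom.comp_assoc,
        ha0, ha1, RingHom.comp_assoc, RingHom.comp_assoc, w]
    · rw [RingHom.comp_assoc, RingHom.comp_assoc, hj, hψ]
  exact h κ P C2' Y T i j ψ' (j'.comp c) y t τ a0 a1 h0 h1 hpo3 hc' ht ha0 ha1 hψ' x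

/-- The case without base change. -/
theorem Rigid.apply {ε : C0 →+* E} {s0 s1 : E →+* R} (h : Rigid.{u, v} m ε s0 s1)
    (w : s0.comp ε = s1.comp ε) (P : PT.{u, v} κ m) (c : κ →+* C0) {y : κ →+* E} {t : κ →+* R}
    (hy : ε.comp c = y) (h0 : s0.comp y = t) (h1 : s1.comp y = t) (ht : IndEP t) (x : P.obj y) :
    P.map s0 h0 x = P.map s1 h1 x :=
  h κ P C0 E R (RingHom.id C0) (RingHom.id E) ε c y t (RingHom.id R) s0 s1 h0 h1 (isPO_id ε) hy ht
    (by rw [RingHom.comp_id, RingHom.id_comp]) (by rw [RingHom.comp_id, RingHom.id_comp]) w x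

theorem sr_one [IsNoetherianRing R] {ε : C0 →+* E} {u : E} (hu : Et1 ε u) (I : Ideal R)
    (hm0 : 0 < m) (hm : ∃ c : R, c * m - 1 ∈ I) {s0 s1 : E →+* R} (w : s0.comp ε = s1.comp ε)
    (hI : ∀ y, s0 y - s1 y ∈ I) :
    ∃ (R' : Type u) (_ : CommRing R') (ρ : R →+* R'), EE I ρ ∧
      Rigid.{u, v} m ε (ρ.comp s0) (ρ.comp s1) := by
  obtain ⟨E2, _, i, φ, hE⟩ := exists_isPO ε (s0.comp ε)
  obtain ⟨s0', hs0i, hs0φ⟩ := hE.exists_lift s0 (RingHom.id R) (by rw [RingHom.id_comp])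
  obtain ⟨s1', hs1i, hs1φ⟩ := hE.exists_lift s1 (RingHom.id R) (by rw [RingHom.id_comp, w])
  have e0i : ∀ y, s0' (i y) = s0 y := fun y => RingHom.congr_fun hs0i y
  have e1i : ∀ y, s1' (i y) = s1 y := fun y => RingHom.congr_fun hs1i y
  have e0φ : ∀ r, s0' (φ r) = r := fun r => RingHom.congr_fun hs0φ r
  have e1φ : ∀ r, s1' (φ r) = r := fun r => RingHom.congr_fun hs1φ r
  have hu2 : Et1 φ (i u - φ (s0 u)) := (hE.et1 hu).sub_const (s0 u)
  have hI2 : ∀ y, s0' y - s1' y ∈ I := by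
    intro y
    refine hE.induction (q := fun y => s0' y - s1' y ∈ I) ?_ ?_ ?_ y
    · simp
    · intro s r
      have : s0' (i s * φ r) - s1' (i s * φ r) = (s0 s - s1 s) * r := by
        rw [map_mul, map_mul, e0i, e1i, e0φ, e1φ]; ring
      rw [this]
      exact I.mul_mem_right _ (hI s)
    · intro y z hy hz
      have : s0' (y + z) - s1' (y + z) = (s0' y - s1' y) + (s0' z - s1' z) := by
        rw [map_add, map_add]; ring
      rw [this]
      exact I.add_mem hy hz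
  have h00 : s0' (i u - φ (s0 u)) = 0 := by rw [map_sub, e0i, e0φ, sub_self]
  obtain ⟨R', _, ρ, hρ, hcore⟩ := sr_core hu2 I hm0 hm hs0φ hs1φ hI2 h00
  refine ⟨R', inferInstance, ρ, hρ, ?_⟩
  intro κ _ P C' Y T _ _ _ γ j ψ c y t τ a0 a1 h0 h1 hpo hc ht ha0 ha1 hψ x
  obtain ⟨Y2, _, ψ2, ξ, t0, Φ, e0, c', q, ω, θ, t1, k1, k2, k3, k4, k5, k6, k7, k8, k9, k10, k11,
    k12, k13, k14⟩ := hcore T τ
  have hw : (ξ.comp i).comp ε = (ψ2.comp (a0.comp ψ)).comp γ := by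
    ext r
    have q1 : i (ε r) = φ (s0 (ε r)) := hE.comm_apply r
    have q2 : ξ (φ (s0 (ε r))) = ψ2 (τ (ρ (s0 (ε r)))) := RingHom.congr_fun k1 _
    have q3 : j (ε r) = ψ (γ r) := hpo.comm_apply r
    have q4 : a0 (j (ε r)) = τ (ρ (s0 (ε r))) := RingHom.congr_fun ha0 _
    change ξ (i (ε r)) = ψ2 (a0 (ψ (γ r)))
    rw [q1, q2, ← q3, q4]
  obtain ⟨b, hbj, hbψ⟩ := hpo.exists_lift (ξ.comp i) (ψ2.comp (a0.comp ψ)) hw
  have hb : b.comp y = ψ2.comp t := by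
    rw [← h0, ← hc, ← RingHom.comp_assoc, hbψ]
    rfl
  have ht0 : t0.comp (ψ2.comp t) = t := by rw [← RingHom.comp_assoc, k3, RingHom.id_comp]
  have hθ : (t1.comp θ).comp ψ2 = RingHom.id T := by rw [RingHom.comp_assoc, k9, k12]
  have ht1 : (t1.comp θ).comp (ψ2.comp t) = t := by
    rw [← RingHom.comp_assoc, hθ, RingHom.id_comp]
  have hb0 : t0.comp b = a0 := by
    refine hpo.hom_ext ?_ ?_
    · rw [RingHom.comp_assoc, hbj, ← RingHom.comp_assoc, k4, RingHom.comp_assoc, hs0i, ha0]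
      rfl
    · rw [RingHom.comp_assoc, hbψ, ← RingHom.comp_assoc, k3, RingHom.id_comp]
  have hb1 : (t1.comp θ).comp b = a1 := by
    refine hpo.hom_ext ?_ ?_
    · rw [RingHom.comp_assoc, hbj, ← RingHom.comp_assoc, k14, RingHom.comp_assoc, hs1i, ha1]
      rfl
    · rw [RingHom.comp_assoc, hbψ, ← RingHom.comp_assoc, hθ, RingHom.id_comp, hψ]
  have hA : Adm t ψ2 (ξ (i u - φ (s0 u))) (ξ (i u - φ (s0 u))) :=
    ⟨ht, k2, k5 ▸ finMod_of_section k3⟩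
  rw [← P.map_map b t0 a0 hb ht0 h0 hb0 x, ← P.map_map b (t1.comp θ) a1 hb ht1 h1 hb1 x,
    ← P.tr_factor rfl ht k2 k7 k8 θ t1 k9 k10 k11 k12 k13 ht1, ← P.htpy rfl ht k2 k6,
    P.tr_pow rfl hA, P.nsmul_succ, P.tr_section rfl ht k2 t0 ht0 k3 k5]

theorem SR_hm_map {I : Ideal R} (hm : ∃ c : R, c * m - 1 ∈ I) (ρ : R →+* R') :
    ∃ c : R', c * m - 1 ∈ I.map ρ := by
  obtain ⟨c, hc⟩ := hm
  refine ⟨ρ c, ?_⟩
  have := Ideal.mem_map_of_mem ρ hc
  rwa [map_sub, map_mul, map_natCast, map_one] at this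

theorem SR_ind (hm0 : 0 < m) (n : ℕ) : ∀ (ι : Type) [Finite ι], Nat.card ι = n →
    ∀ (C0 R : Type u) [CommRing C0] [CommRing R] [IsNoetherianRing R] (ε : C0 →+* E) (x : ι → E),
      EtN ε x → ∀ (I : Ideal R), (∃ c : R, c * m - 1 ∈ I) → ∀ (s0 s1 : E →+* R),
      s0.comp ε = s1.comp ε → (∀ y, s0 y - s1 y ∈ I) →
      ∃ (R' : Type u) (_ : CommRing R') (ρ : R →+* R'), EE I ρ ∧
        Rigid.{u, v} m ε (ρ.comp s0) (ρ.comp s1) := by
  classical
  induction n with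
  | zero =>
    intro ι _ hι C0 R _ _ _ ε x hx I _ s0 s1 w hI
    have : IsEmpty ι := by
      rcases Nat.card_eq_zero.1 hι with h | h
      · exact h
      · exact absurd h (not_infinite_iff_finite.2 inferInstance)
    obtain ⟨η, hη, hZ⟩ := UL_mod (etN_isEmpty_iff.1 hx) s0 s1 w hI
    obtain ⟨R', _, ρ, hρ, hρ'⟩ := exists_ee_isUnit I (r := η) ⟨1, by rwa [one_mul]⟩
    refine ⟨R', inferInstance, ρ, hρ, ?_⟩
    rw [hZ R' ρ hρ'.isUnit]
    exact rigid_refl ε _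
  | succ n ih =>
    intro ι _ hι C0 R _ _ _ ε x hx I hm s0 s1 w hI
    obtain ⟨k0⟩ : Nonempty ι := (Nat.card_pos_iff.1 (by omega)).1
    have hcard : Nat.card {k // k ≠ k0} = n := by
      have := Fintype.ofFinite ι
      rw [Nat.card_eq_fintype_card] at hι ⊢
      rw [Fintype.card_subtype_compl, Fintype.card_subtype_eq, hι]
      rfl
    obtain ⟨R1, _, ρ1, s', hρ1, hs'ε, hs'x, hs'I⟩ := HL0_etN hx (s0.comp ε) I
      ((Ideal.Quotient.mk I).comp s0) rfl (fun k => if k = k0 then s1 (x k0) else s0 (x k)) (by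
        intro k
        by_cases hk : k = k0
        · rw [if_pos hk, hk]
          exact Ideal.Quotient.eq.2 (hI _)
        · rw [if_neg hk]
          rfl)
    have := hρ1.noeth
    have eε : ∀ r, s' (ε r) = ρ1 (s0 (ε r)) := fun r => RingHom.congr_fun hs'ε r
    have ew : ∀ r, s0 (ε r) = s1 (ε r) := fun r => RingHom.congr_fun w r
    have wA : (ρ1.comp s0).comp (MvPolynomial.eval₂Hom ε (fun k : {k // k ≠ k0} => x k)) =
        s'.comp (MvPolynomial.eval₂Hom ε (fun k : {k // k ≠ k0} => x k)) := by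
      refine MvPolynomial.ringHom_ext (fun r => ?_) (fun k => ?_)
      · simp [eε]
      · simp [hs'x, k.2]
    obtain ⟨R2, _, ρ2, hρ2, hA⟩ := sr_one.{u, v} (hx.et1 k0) (I.map ρ1) hm0 (SR_hm_map hm ρ1) wA
      (fun y => by
        have := hs'I y (s0 y) rfl
        rw [← neg_mem_iff, neg_sub]
        exact this)
    have := hρ2.noeth
    have wB : (ρ2.comp s').comp (Polynomial.eval₂RingHom ε (x k0)) =
        (ρ2.comp (ρ1.comp s1)).comp (Polynomial.eval₂RingHom ε (x k0)) := by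
      refine Polynomial.ringHom_ext (fun r => ?_) ?_
      · simp [eε, ew]
      · simp [hs'x]
    obtain ⟨R3, _, ρ3, hρ3, hB⟩ := ih {k // k ≠ k0} hcard C0[X] R2
      (Polynomial.eval₂RingHom ε (x k0)) _ (hx.etN_erase k0) ((I.map ρ1).map ρ2)
      (SR_hm_map (SR_hm_map hm ρ1) ρ2) (ρ2.comp s') (ρ2.comp (ρ1.comp s1)) wB (fun y => by
        have := Ideal.mem_map_of_mem ρ2 (hs'I y (s1 y) (Ideal.Quotient.eq.2 (hI y)))
        rwa [map_sub] at this)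
    have eA : (MvPolynomial.eval₂Hom ε (fun k : {k // k ≠ k0} => x k)).comp MvPolynomial.C = ε := by
      ext r; simp
    have eB : (Polynomial.eval₂RingHom ε (x k0)).comp Polynomial.C = ε := by
      ext r; simp
    have hA' : Rigid.{u, v} m ε (ρ2.comp (ρ1.comp s0)) (ρ2.comp s') := by
      have := Rigid.of_factor (ι := MvPolynomial.C)
        (by rw [RingHom.comp_assoc, wA, RingHom.comp_assoc]) hA
      rwa [eA] at this
    have hB' : Rigid.{u, v} m ε (ρ3.comp (ρ2.comp s')) (ρ3.comp (ρ2.comp (ρ1.comp s1))) := by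
      have := Rigid.of_factor (ι := Polynomial.C)
        (by rw [RingHom.comp_assoc, wB, ← RingHom.comp_assoc]) hB
      rwa [eB] at this
    refine ⟨R3, inferInstance, ρ3.comp (ρ2.comp ρ1), (hρ1.comp hρ2).comp ?_, ?_⟩
    · rwa [← Ideal.map_map]
    · refine Rigid.trans ?_ (hA'.comp ρ3) hB'
      ext r
      simp [eε]

theorem srn [IsNoetherianRing R] {ε : C0 →+* E} (hε : EP ε) (I : Ideal R) (hm0 : 0 < m)
    (hm : ∃ c : R, c * m - 1 ∈ I) {s0 s1 : E →+* R} (w : s0.comp ε = s1.comp ε)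
    (hI : ∀ y, s0 y - s1 y ∈ I) :
    ∃ (R' : Type u) (_ : CommRing R') (ρ : R →+* R'), EE I ρ ∧
      Rigid.{u, v} m ε (ρ.comp s0) (ρ.comp s1) := by
  obtain ⟨n, x, hx⟩ := hε
  exact SR_ind hm0 _ (Fin n) rfl C0 R ε x hx I hm s0 s1 w hI

end KEW
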