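import Pool.Agent.P.MP_6277db_ag.KEW.PT.G

/-!
KEW L5: morphisms of pretheories, kernels, cokernels, the reduced part of `P^G`.
Hints.  All axioms of the kernel follow by `Subtype.ext` and `kerTr_val`; `hinv`: `Q.map C` is injective
(`map_retract` with the evaluation at `0`); `cont_surj`: `P.cont_surj` then `Q.cont_inj`.  Cokernel:
`QuotientAddGroup.induction_on` and `cokTr_mk`; `cont_inj`: if `f^* y = app z`, write `z = f1^* z1` (`P.cont_surj`), pass to
`B ⊗_κ B1` (`exists_isPO`, `IsPO.ep`, `EP.comp`) and apply `Q.cont_inj` to the difference.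
-/

namespace KEW

universe u v

open Polynomial

/-- A morphism of pretheories. -/
structure PTHom {κ : Type u} [CommRing κ] {m : ℕ} (P Q : PT.{u, v} κ m) where
  app : ∀ {R : Type u} [CommRing R] (a : κ →+* R), P.obj a →+ Q.obj a
  nat : ∀ {R S : Type u} [CommRing R] [CommRing S] {a : κ →+* R} {b : κ →+* S} (f : R →+* S)
    (h : f.comp a = b) (x : P.obj a), app b (P.map f h x) = Q.map f h (app a x)
  tr : ∀ {R Y : Type u} [CommRing R] [CommRing Y] {a : κ →+* R} {b : κ →+* Y} (φ : R →+* Y)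
    (h : φ.comp a = b) {u σ : Y}, Adm a φ u σ →
    ∀ x : P.obj b, app a (P.tr φ h u σ x) = Q.tr φ h u σ (app b x)

variable {κ R S T Y Y0 R' Y' B : Type u} [CommRing κ] [CommRing R] [CommRing S] [CommRing T]
  [CommRing Y] [CommRing Y0] [CommRing R'] [CommRing Y'] [CommRing B] {m : ℕ}
  {P Q : PT.{u, v} κ m}

namespace PTHom

variable (F : PTHom P Q)

/-- Pullback on kernels. -/
def kerMap {a : κ →+* R} {b : κ →+* S} (f : R →+* S) (h : f.comp a = b) :
    (F.app a).ker →+ (F.app b).ker :=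
  ((P.map f h).comp (F.app a).ker.subtype).codRestrict _ fun x => by
    have hx : F.app a x.1 = 0 := x.2
    change F.app b (P.map f h x.1) = 0
    rw [F.nat, hx, map_zero]

@[simp] theorem kerMap_val {a : κ →+* R} {b : κ →+* S} (f : R →+* S) (h : f.comp a = b)
    (x : (F.app a).ker) : (F.kerMap f h x).1 = P.map f h x.1 := rfl

open Classical in
/-- Transfer on kernels. -/
noncomputable def kerTr {a : κ →+* R} {b : κ →+* Y} (φ : R →+* Y) (h : φ.comp a = b) (u σ : Y) :
    (F.app b).ker →+ (F.app a).ker :=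
  if hA : Adm a φ u σ then
    ((P.tr φ h u σ).comp (F.app b).ker.subtype).codRestrict _ fun x => by
      have hx : F.app b x.1 = 0 := x.2
      change F.app a (P.tr φ h u σ x.1) = 0
      rw [F.tr φ h hA, hx, map_zero]
  else 0

theorem kerTr_val {a : κ →+* R} {b : κ →+* Y} {φ : R →+* Y} (h : φ.comp a = b) {u σ : Y}
    (hA : Adm a φ u σ) (x : (F.app b).ker) : (F.kerTr φ h u σ x).1 = P.tr φ h u σ x.1 := by
  unfold kerTr
  rw [dif_pos hA]
  rfl

theorem ker_hinv {a : κ →+* R} (ha : IndEP a) (y : (F.app ((C : R →+* R[X]).comp a)).ker) :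
    ∃ x : (F.app a).ker, F.kerMap (C : R →+* R[X]) rfl x = y := by
  obtain ⟨x, hx⟩ := P.hinv ha y.1
  have he : (Polynomial.evalRingHom (0 : R)).comp (C : R →+* R[X]) = RingHom.id R := by
    ext r
    simp
  have he' : (Polynomial.evalRingHom (0 : R)).comp ((C : R →+* R[X]).comp a) = a := by
    rw [← RingHom.comp_assoc, he, RingHom.id_comp]
  have hy : F.app _ y.1 = 0 := y.2
  have h0 : F.app a x = 0 := by
    rw [← Q.map_retract (C : R →+* R[X]) (Polynomial.evalRingHom 0) rfl he' he (F.app a x),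
      ← F.nat, hx, hy, map_zero]
  exact ⟨⟨x, h0⟩, Subtype.ext hx⟩

theorem ker_cont_surj {a : κ →+* R} (ha : IndEP a) (x : (F.app a).ker) :
    ∃ (B : Type u) (_ : CommRing B) (β : κ →+* B) (f : B →+* R) (h : f.comp β = a)
      (y : (F.app β).ker), EP β ∧ F.kerMap f h y = x := by
  obtain ⟨B, _, β, f, h, y, hβ, hy⟩ := P.cont_surj ha x.1
  have hx : F.app a x.1 = 0 := x.2
  obtain ⟨B', _, g, f', hg, hf, h0⟩ := Q.cont_inj f h (F.app β y) ha hβ (by rw [← F.nat, hy, hx])
  have h' : f'.comp (g.comp β) = a := by rw [← RingHom.comp_assoc, hf, h]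
  have h1 : F.app (g.comp β) (P.map g rfl y) = 0 := by rw [F.nat, h0]
  refine ⟨B', inferInstance, g.comp β, f', h', ⟨P.map g rfl y, h1⟩, hg, Subtype.ext ?_⟩
  change P.map f' h' (P.map g rfl y) = x.1
  rw [P.map_map g f' f rfl h' h hf, hy]

theorem ker_cont_inj {β : κ →+* B} {a : κ →+* R} (f : B →+* R) (h : f.comp β = a)
    (y : (F.app β).ker) (ha : IndEP a) (hβ : EP β) (hy : F.kerMap f h y = 0) :
    ∃ (B' : Type u) (_ : CommRing B') (g : B →+* B') (f' : B' →+* R), EP (g.comp β) ∧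
      f'.comp g = f ∧ F.kerMap g (rfl : g.comp β = g.comp β) y = 0 := by
  obtain ⟨B', _, g, f', hg, hf, h0⟩ := P.cont_inj f h y.1 ha hβ (congrArg Subtype.val hy)
  exact ⟨B', inferInstance, g, f', hg, hf, Subtype.ext h0⟩

/-- The kernel of a morphism of pretheories. -/
noncomputable def ker : PT.{u, v} κ m where
  obj a := (F.app a).ker
  grp a := inferInstance
  map f h := F.kerMap f h
  map_id h x := Subtype.ext (P.map_id h x.1)
  map_comp f g hf hg h x := Subtype.ext (P.map_comp f g hf hg h x.1)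
  tors x := Subtype.ext (P.tors x.1)
  hinv ha y := F.ker_hinv ha y
  cont_surj ha x := F.ker_cont_surj ha x
  cont_inj f h y ha hβ hy := F.ker_cont_inj f h y ha hβ hy
  tr φ h u σ := F.kerTr φ h u σ
  tr_bc φ φ' f g hφ hφ' hf hg _ _ _ _ w hu hσ h h' hpo x := Subtype.ext (by
    rw [F.kerTr_val hφ' h', kerMap_val, kerMap_val, F.kerTr_val hφ h]
    exact P.tr_bc φ φ' f g hφ hφ' hf hg w hu hσ h h' hpo x.1)
  tr_add φ hφ _ _ _ h h' x := Subtype.ext (by
    rw [AddSubgroup.coe_add, F.kerTr_val hφ (h.mul h'), F.kerTr_val hφ h, F.kerTr_val hφ h']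
    exact P.tr_add φ hφ h h' x.1)
  tr_sec φ hφ _ _ s hs h h1 h2 x := Subtype.ext (by
    rw [F.kerTr_val hφ h, kerMap_val]
    exact P.tr_sec φ hφ s hs h h1 h2 x.1)
  tr_push φ p Q σ j hφ hj h _ hp hQ hc h1 h2 x := Subtype.ext (by
    rw [F.kerTr_val h h2, kerMap_val, F.kerTr_val hφ h1]
    exact P.tr_push φ p Q σ j hφ hj h hp hQ hc h1 h2 x.1)

/-- Pullback on cokernels. -/
def cokMap {a : κ →+* R} {b : κ →+* S} (f : R →+* S) (h : f.comp a = b) :
    Q.obj a ⧸ (F.app a).range →+ Q.obj b ⧸ (F.app b).range :=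
  QuotientAddGroup.map _ _ (Q.map f h) (by
    rintro _ ⟨x, rfl⟩
    exact ⟨P.map f h x, F.nat f h x⟩)

@[simp] theorem cokMap_mk {a : κ →+* R} {b : κ →+* S} (f : R →+* S) (h : f.comp a = b)
    (x : Q.obj a) : F.cokMap f h (QuotientAddGroup.mk x) = QuotientAddGroup.mk (Q.map f h x) := rfl

open Classical in
/-- Transfer on cokernels. -/
noncomputable def cokTr {a : κ →+* R} {b : κ →+* Y} (φ : R →+* Y) (h : φ.comp a = b) (u σ : Y) :
    Q.obj b ⧸ (F.app b).range →+ Q.obj a ⧸ (F.app a).range :=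
  if hA : Adm a φ u σ then
    QuotientAddGroup.map _ _ (Q.tr φ h u σ) (by
      rintro _ ⟨x, rfl⟩
      exact ⟨P.tr φ h u σ x, F.tr φ h hA x⟩)
  else 0

theorem cokTr_mk {a : κ →+* R} {b : κ →+* Y} {φ : R →+* Y} (h : φ.comp a = b) {u σ : Y}
    (hA : Adm a φ u σ) (x : Q.obj b) :
    F.cokTr φ h u σ (QuotientAddGroup.mk x) = QuotientAddGroup.mk (Q.tr φ h u σ x) := by
  unfold cokTr
  rw [dif_pos hA]
  rfl

theorem cok_cont_inj {β : κ →+* B} {a : κ →+* R} (f : B →+* R) (h : f.comp β = a)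
    (y : Q.obj β ⧸ (F.app β).range) (ha : IndEP a) (hβ : EP β) (hy : F.cokMap f h y = 0) :
    ∃ (B' : Type u) (_ : CommRing B') (g : B →+* B') (f' : B' →+* R), EP (g.comp β) ∧
      f'.comp g = f ∧ F.cokMap g (rfl : g.comp β = g.comp β) y = 0 := by
  induction y using QuotientAddGroup.induction_on with
  | H y =>
    rw [cokMap_mk, QuotientAddGroup.eq_zero_iff] at hy
    obtain ⟨z, hz⟩ := hy
    obtain ⟨B1, _, β1, f1, h1, z1, hβ1, rfl⟩ := P.cont_surj ha z
    obtain ⟨B2, _, i, j, hpo⟩ := exists_isPO β1 β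
    obtain ⟨d, hdi, hdj⟩ := hpo.exists_lift f1 f (h1.trans h.symm)
    have hi : i.comp β1 = j.comp β := hpo.comm
    have hd : d.comp (j.comp β) = a := by rw [← RingHom.comp_assoc, hdj, h]
    have hβ2 : EP (j.comp β) := hβ.comp (hpo.ep hβ1)
    have h2 : Q.map d hd (Q.map j rfl y - F.app _ (P.map i hi z1)) = 0 := by
      rw [map_sub, Q.map_map j d f rfl hd h hdj, ← F.nat, P.map_map i d f1 hi hd h1 hdi, hz,
        sub_self]
    obtain ⟨B', _, g, f', hg, hf, h0⟩ := Q.cont_inj d hd _ ha hβ2 h2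
    have hc : g.comp (j.comp β) = (g.comp j).comp β := rfl
    refine ⟨B', inferInstance, g.comp j, f', hg, ?_, ?_⟩
    · rw [← RingHom.comp_assoc, hf, hdj]
    · rw [cokMap_mk, QuotientAddGroup.eq_zero_iff]
      refine ⟨P.map g hc (P.map i hi z1), ?_⟩
      rw [map_sub, sub_eq_zero] at h0
      rw [F.nat, ← Q.map_map j g (g.comp j) rfl hc rfl rfl]
      exact h0.symm

/-- The cokernel of a morphism of pretheories. -/
noncomputable def cok : PT.{u, v} κ m where
  obj a := Q.obj a ⧸ (F.app a).range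
  grp a := inferInstance
  map f h := F.cokMap f h
  map_id h x := by
    induction x using QuotientAddGroup.induction_on with
    | H x => rw [cokMap_mk, Q.map_id]
  map_comp f g hf hg h x := by
    induction x using QuotientAddGroup.induction_on with
    | H x => rw [cokMap_mk, cokMap_mk, cokMap_mk, Q.map_comp]
  tors x := by
    induction x using QuotientAddGroup.induction_on with
    | H x => rw [← QuotientAddGroup.mk_nsmul, Q.tors, QuotientAddGroup.mk_zero]
  hinv ha y := by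
    induction y using QuotientAddGroup.induction_on with
    | H y =>
      obtain ⟨x, rfl⟩ := Q.hinv ha y
      exact ⟨QuotientAddGroup.mk x, rfl⟩
  cont_surj ha x := by
    induction x using QuotientAddGroup.induction_on with
    | H x =>
      obtain ⟨B, _, β, f, h, y, hβ, rfl⟩ := Q.cont_surj ha x
      exact ⟨B, _, β, f, h, QuotientAddGroup.mk y, hβ, rfl⟩
  cont_inj f h y ha hβ hy := F.cok_cont_inj f h y ha hβ hy
  tr φ h u σ := F.cokTr φ h u σ
  tr_bc φ φ' f g hφ hφ' hf hg _ _ _ _ w hu hσ h h' hpo x := by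
    induction x using QuotientAddGroup.induction_on with
    | H x =>
      rw [cokMap_mk, F.cokTr_mk hφ' h', F.cokTr_mk hφ h, cokMap_mk,
        Q.tr_bc φ φ' f g hφ hφ' hf hg w hu hσ h h' hpo x]
  tr_add φ hφ _ _ _ h h' x := by
    induction x using QuotientAddGroup.induction_on with
    | H x =>
      rw [F.cokTr_mk hφ (h.mul h'), F.cokTr_mk hφ h, F.cokTr_mk hφ h', Q.tr_add φ hφ h h' x,
        QuotientAddGroup.mk_add]
  tr_sec φ hφ _ _ s hs h h1 h2 x := by
    induction x using QuotientAddGroup.induction_on with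
    | H x => rw [F.cokTr_mk hφ h, cokMap_mk, Q.tr_sec φ hφ s hs h h1 h2 x]
  tr_push φ p Q' σ j hφ hj h _ hp hQ hc h1 h2 x := by
    induction x using QuotientAddGroup.induction_on with
    | H x =>
      rw [cokMap_mk, F.cokTr_mk h h2, F.cokTr_mk hφ h1,
        Q.tr_push φ p Q' σ j hφ hj h hp hQ hc h1 h2 x]

end PTHom

theorem PT.lauE_tr (P : PT.{u, v} κ m) {a : κ →+* R} {b : κ →+* Y} (φ : R →+* Y)
    (h : φ.comp a = b) {u σ : Y} (hA : Adm a φ u σ) (x : P.obj ((lauC Y).comp b)) :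
    P.map (lauE R) (lauE_over a) (P.tr (lauMap φ) (lauMap_over φ h) (lauC Y u) (lauC Y σ) x) =
      P.tr φ h u σ (P.map (lauE Y) (lauE_over b) x) := by
  have hpo : IsPO (lauMap φ) (lauE R) (lauE Y) φ := by
    refine (isPO_lau φ).cancel (lauE_lauMap φ) ?_
    rw [lauE_lauC, lauE_lauC]
    exact isPO_id φ
  exact (P.tr_baseChange (lauMap_over φ h) h (lauE_over a) (lauE_over b)
    (RingHom.congr_fun (lauE_lauC Y) u) (RingHom.congr_fun (lauE_lauC Y) σ) hA.lau hA.ind hpo
    x).symm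

/-- Restriction to the unit section. -/
noncomputable def PT.lauEHom (P : PT.{u, v} κ m) : PTHom P.G P where
  app a := P.map (lauE _) (lauE_over a)
  nat f h x := P.map_square _ _ _ _ (lauMap_over f h) (lauE_over _) (lauE_over _) h (lauE_lauMap f) x
  tr φ h _ _ hA x := P.lauE_tr φ h hA x

/-- The reduced part of `P^G`. -/
noncomputable def PT.red (P : PT.{u, v} κ m) : PT.{u, v} κ m := P.lauEHom.ker

end KEW
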