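import Pool.Agent.P.MP_6277db_ag.KEW.PT.Conseq
import Pool.Agent.P.MP_6277db_ag.KEW.PT.Ker
import Pool.Agent.P.MP_6277db_ag.KEW.CA.SF
import Pool.Agent.P.MP_6277db_ag.KEW.CA.Coord
import Pool.Agent.P.MP_6277db_ag.KEW.CA.FP3
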