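import Pool.Agent.P.MP_6277db_ag.KEW.PT.Api
import Pool.Agent.P.MP_6277db_ag.KEW.CA.Chart

/-!
KEW L5.3 (a3), (a0): splitting and injectivity along an elementary square of curves.
Hints (symbols as in A2.lean).  `a3`: take `f`, `E0` from `curve_chart`.  `α = tr_σ z` over the base `Uω` on `X[1/ω]`
(`vb_of_lead` with `Q ω`).  Over `R = E0` let `Δ : Et_R → R` be the diagonal (`root ↦ j root`, `X ↦ τ`), `I = ker Δ`.  `Q` is a unit mod `I`, so
`c Q ≡ 1` mod `I^2`; `e1 = e + (1 - e) Q c`, `σ1 = 1 + e1 (u - τ - 1) + (X - τ)^2 X^(M-2) N ω`.  Then `σ1 ≡ u - τ` mod `I^2`,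
`σ1 - σ ∈ (Q) ∩ (ω)`, same leading term, so over `R[1/ω]` `tr σ = tr σ1` on `X[1/ω]` (`vb_of_lead`, `htpy`).  On `Y = X_R` the ideal
`ker Δ` satisfies `ker Δ = (σ1) + (ker Δ)^2` (`sec_loc`), so it is `(σ1, h)` with `h (1 - h) ∈ (σ1)`
(`Ideal.isIdempotentElem_iff_of_fg` in `Y/σ1`), and `h ∈ (σ1, ω)` since `Y/(u - τ, ω) = R/ω(τ)`.  So `ω` is prime to `σ1` on `Y[1/h]` and
`β' = tr_σ1 z` on `Y[1/(h ω)]` is defined over `R`; `tr_split` over `R[1/ω]` gives `α = β' + z`; `β = -β'`.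
`a0`: localise (`exists_ee_of_section`) so that `E ∈ EE(F[X], X)`, chart with `g = 1`, `ω = X`, base ring `F` itself;
`σa = 1 + L`, `σb = 1 + e (2 - e) (u - 1) + L`, `L = X^(M+2) N`; in `E0`, `1 - e ∈ (u)`, so `σb = u (1 + u y)`;
`tr σa = 0 = tr (1 + u y)` by `tr_away`, `tr u = e^*` by `tr_section`.
-/

namespace KEW

universe u v

open Polynomial

variable {κ F U Uω E Eω : Type u} [CommRing κ] [Field F] [CommRing U] [CommRing Uω] [CommRing E]
  [CommRing Eω] {m : ℕ}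

/-- A transfer vanishes when the class dies on a neighbourhood of the zero locus. -/
theorem A0_tr_zero (P : PT.{u, v} κ m) {a : κ →+* F} {φ : F →+* U} {b : κ →+* U}
    (hφ : φ.comp a = b) {u σ : U} (hA : Adm a φ u σ) (hc : IsCoprime u σ) (x : P.obj b)
    (hx : ∀ (Z : Type u) [CommRing Z] (g : U →+* Z), IsUnit (g u) →
      P.map g (rfl : g.comp b = g.comp b) x = 0) : P.tr φ hφ u σ x = 0 := by
  obtain ⟨Z, _, g, hg⟩ := exists_isAway u
  have h1 : (g.comp φ).comp a = g.comp b := by rw [RingHom.comp_assoc, hφ]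
  rw [← P.tr_away hφ h1 rfl rfl rfl rfl hA hg hc x, hx Z g hg.isUnit, map_zero]

/-- The homotopy on the standard chart. -/
theorem A0_vb {p : F[X][X]} (hp : p.Monic) {Q e : AdjoinRoot p} {N : F[X]} (hN : N.Monic)
    (hQe : Q ∣ e) (hQN : Q ∣ AdjoinRoot.of p N) {j : AdjoinRoot p →+* U} (hj : IsAway j Q) :
    ∃ M : ℕ, VB (j.comp ((AdjoinRoot.of p).comp C))
      (j (1 + AdjoinRoot.of p (X ^ (M + 2) * N)))
      (j (1 + e * (2 - e) * (AdjoinRoot.of p X - 1) + AdjoinRoot.of p (X ^ (M + 2) * N))) := by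
  have h1 : Polynomial.eval₂RingHom ((AdjoinRoot.of p).comp C) (AdjoinRoot.of p X) =
      AdjoinRoot.of p := by
    refine Polynomial.ringHom_ext (fun c => ?_) ?_
    · rw [coe_eval₂RingHom, eval₂_C, RingHom.comp_apply]
    · rw [coe_eval₂RingHom, eval₂_X]
  have hint : (Polynomial.eval₂RingHom ((AdjoinRoot.of p).comp C)
      (AdjoinRoot.of p X)).IsIntegral := by
    rw [h1]
    exact (finite_adjoinRoot_of hp).to_isIntegral
  obtain ⟨d1, hd1⟩ := DegLT.exists_of_integral (hint 1)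
  obtain ⟨d2, hd2⟩ := DegLT.exists_of_integral
    (hint (1 + e * (2 - e) * (AdjoinRoot.of p X - 1)))
  refine ⟨d1 + d2, ?_⟩
  have hL : (X ^ (d1 + d2 + 2) * N : F[X]).IsMonicOfDegree (d1 + d2 + 2 + N.natDegree) :=
    (isMonicOfDegree_X_pow F _).mul ⟨rfl, hN⟩
  have h2 := degLT_of_isMonicOfDegree ((AdjoinRoot.of p).comp C) (AdjoinRoot.of p X) hL
  rw [← coe_eval₂RingHom, h1] at h2
  refine vb_of_lead hint hj (d := d1 + d2 + 2 + N.natDegree) ?_ ?_ ?_ ?_
  · rw [add_sub_assoc]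
    exact (hd1.mono (by omega)).add h2
  · rw [add_sub_assoc]
    exact (hd2.mono (by omega)).add h2
  · obtain ⟨c, hc⟩ := hQN
    refine ⟨1, -(AdjoinRoot.of p (X ^ (d1 + d2 + 2)) * c), ?_⟩
    rw [map_mul, hc]
    ring
  · refine Ideal.le_radical (Ideal.mem_span_singleton.2 ?_)
    obtain ⟨c, rfl⟩ := hQe
    exact ⟨c * (2 - Q * c) * (AdjoinRoot.of p X - 1), by ring⟩

theorem PT.a0 (P : PT.{u, v} κ m) {a : κ →+* F} (ha : IndEP a) {ι : F →+* E} {u : E} (hu : Et1 ι u)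
    {e : E →+* F} (he : e.comp ι = RingHom.id F) (h0 : e u = 0) {l : E →+* Eω} (hl : IsAway l u)
    {c : κ →+* E} {cω : κ →+* Eω} (hc : ι.comp a = c) (hcω : l.comp c = cω) (hec : e.comp c = a)
    (x : P.obj c) (hx : P.map l hcω x = 0) : P.map e hec x = 0 := by
  have w : e.comp (Polynomial.eval₂RingHom ι u) = Polynomial.evalRingHom 0 := by
    refine Polynomial.ringHom_ext (fun c => ?_) ?_
    · rw [RingHom.comp_apply, coe_eval₂RingHom, eval₂_C, coe_evalRingHom, eval_C]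
      exact DFunLike.congr_fun he c
    · rw [RingHom.comp_apply, coe_eval₂RingHom, eval₂_X, coe_evalRingHom, eval_X, h0]
  obtain ⟨e0, E', _, l', s', -, hl', hs', hee, hker⟩ := exists_ee_of_section hu
    (π := Polynomial.evalRingHom (0 : F)) (fun c => ⟨C c, eval_C⟩) e w
  rw [ker_evalRingHom, C_0, sub_zero] at hee hker
  rw [Ideal.map_span, Set.image_singleton, RingHom.comp_apply, coe_eval₂RingHom, eval₂_X] at hker
  obtain ⟨p, Q, eA, N, f, E0, _, l0, j, hp, -, hl0, hcop, hj, hjl, -, hQe, hX, hN, hQN, -⟩ :=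
    curve_chart (g := 1) (ω := X) irreducible_X isCoprime_one_left (ι := RingHom.id F[X])
      (isAway_of_bijective Function.bijective_id isUnit_one) hee
  rw [RingHom.id_apply, RingHom.comp_apply, coe_eval₂RingHom, eval₂_X] at hcop
  have hsu : s' (l' u) = 0 := by rw [← h0, ← hs', RingHom.comp_apply]
  have hsf : IsUnit (s' f) := by
    have h1 := hcop.map s'
    rw [hsu] at h1
    exact isCoprime_zero_right.1 h1
  obtain ⟨s0, hs0⟩ := hl0.exists_lift s' hsf
  have hju : j (AdjoinRoot.of p X) = l0 (l' u) := by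
    have := DFunLike.congr_fun hjl X
    simpa using this
  have hjφ : j.comp ((AdjoinRoot.of p).comp C) = (l0.comp l').comp ι := by
    ext c
    have := DFunLike.congr_fun hjl (C c)
    simpa using this
  obtain ⟨M, hvb⟩ := A0_vb hp hN hQe hQN hj
  rw [hjφ] at hvb
  have hu0 : Et1 ((l0.comp l').comp ι) (l0 (l' u)) := hu.comp (etale_comp hl'.etale hl0.etale)
  have hφ : ((l0.comp l').comp ι).comp a = (l0.comp l').comp c := by rw [RingHom.comp_assoc, hc]
  have hse : s0.comp (l0.comp l') = e := by rw [← RingHom.comp_assoc, hs0, hs']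
  have hk0 : RingHom.ker s0 = Ideal.span {l0 (l' u)} := by
    refine le_antisymm (fun y hy => ?_) ?_
    · obtain ⟨z, n, hz⟩ := hl0.surj y
      have h1 : z ∈ RingHom.ker s' := by
        rw [RingHom.mem_ker, ← hs0, RingHom.comp_apply, ← hz, map_mul, RingHom.mem_ker.1 hy,
          zero_mul]
      rw [hker, Ideal.mem_span_singleton] at h1
      rw [Ideal.mem_span_singleton, ← (hl0.isUnit.pow n).dvd_mul_right, hz]
      exact map_dvd l0 h1
    · rw [Ideal.span_le, Set.singleton_subset_iff, SetLike.mem_coe, RingHom.mem_ker,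
        ← RingHom.comp_apply, hs0, hsu]
  have hz : ∀ (Z : Type u) [CommRing Z] (g : E0 →+* Z), IsUnit (g (l0 (l' u))) →
      P.map g (rfl : g.comp ((l0.comp l').comp c) = _) (P.map (l0.comp l') rfl x) = 0 := by
    intro Z _ g hg
    obtain ⟨k, hk⟩ := hl.exists_lift (g.comp (l0.comp l')) hg
    have h1 : k.comp cω = g.comp ((l0.comp l').comp c) := by
      rw [← hcω, ← RingHom.comp_assoc, hk, RingHom.comp_assoc]
    rw [P.map_square (l0.comp l') g l k rfl rfl hcω h1 hk.symm, hx, map_zero]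
  obtain ⟨t, ht⟩ : l0 (l' u) ∣ 1 - j eA := by
    have h1 := map_dvd j hX
    rwa [map_mul, hj.isUnit.dvd_mul_right, hju, map_sub, map_one] at h1
  have hb : j (1 + eA * (2 - eA) * (AdjoinRoot.of p X - 1) + AdjoinRoot.of p (X ^ (M + 2) * N)) =
      l0 (l' u) * (1 + l0 (l' u) *
        (t ^ 2 - l0 (l' u) * t ^ 2 + l0 (l' u) ^ M * j (AdjoinRoot.of p N))) := by
    have h1 : j eA = 1 - l0 (l' u) * t := by rw [← ht, sub_sub_cancel]
    simp only [map_add, map_mul, map_sub, map_pow, map_one, map_ofNat, hju, h1]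
    ring
  have ha' : j (1 + AdjoinRoot.of p (X ^ (M + 2) * N)) =
      1 + l0 (l' u) * (l0 (l' u) ^ (M + 1) * j (AdjoinRoot.of p N)) := by
    simp only [map_add, map_mul, map_pow, map_one, hju]
    ring
  rw [hb, ha'] at hvb
  have hcp : ∀ y : E0, IsCoprime (l0 (l' u)) (1 + l0 (l' u) * y) := fun y => ⟨-y, 1, by ring⟩
  have hA := Adm.of_vb_right ha hu0 hvb
  have h1 := P.htpy hφ ha hu0 hvb (P.map (l0.comp l') rfl x)
  have h2 : s0.comp ((l0.comp l').comp c) = a := by rw [← RingHom.comp_assoc, hse, hec]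
  rw [A0_tr_zero P hφ (Adm.of_vb_left ha hu0 hvb) (hcp _) _ hz,
    P.tr_add _ hφ (hA.of_dvd (dvd_mul_right _ _)) (hA.of_dvd (dvd_mul_left _ _)),
    A0_tr_zero P hφ (hA.of_dvd (dvd_mul_left _ _)) (hcp _) _ hz, add_zero,
    P.tr_section hφ ha hu0 s0 h2 (by rw [← RingHom.comp_assoc, hse, he]) hk0,
    P.map_map (l0.comp l') s0 e rfl h2 hec hse] at h1
  exact h1.symm

end KEW
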