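import Pool.Agent.P.MP_6277db_ag.KEW.PT.Api

/-!
KEW L5.3 (a1): injectivity on open subsets of the affine line; tori.
Hints.  `a1_rel`: base ring `U` with `τ = ι X`; `Y = U[X][1/g]` with the map `k : U → Y` induced by
`Polynomial.mapRingHom (ι ∘ C)` (second coordinate) and `Yω = U[X][1/(g ω)]`.  With `monic_crt`, `monic_crt2` choose `P' ≡ 1` mod `g ω` and
`P0 ≡ X - τ` mod `g`, `≡ 1` mod `ω`, `deg P0 = deg P' + 1`.  `X - τ` is prime to `g` since `g(τ)` is a unit
(`Polynomial.sub_dvd_eval_sub`-type: `X - C τ ∣ g - C (g(τ))`).  `vb_monic` and `htpy`: `tr ((X-τ) P') = tr P0` on `k^* x`; `tr (X - τ)` is the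
section `X ↦ τ`, whose composite with `k` is the identity; `tr P'` and `tr P0` can be computed on `Yω` (`tr_away`), where
`x` dies.  Trivial ring: `eq_zero_of_subsingleton`.
`a1_field`: write `h = h1 * ω` with `h1 ∣ g^n`, `ω` prime to `g` (induction on the degree, or `UniqueFactorizationMonoid`),
normalise to monic, `IsAway.of_dvd_pow`.
`a1_generic`: `cont_loc`.  `vanF_torus`: induction on `n` for all fields: `R = R0[t][1/t]` with `R0` the torus of rank
`n - 1`; the localisation at the nonzero polynomials of `F[t]` is the torus of rank `n - 1` over `F(t)`; `cont_loc`, `a1_rel`.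
-/

namespace KEW

universe u v

open Polynomial

variable {κ R U U' F : Type u} [CommRing κ] [CommRing R] [CommRing U] [CommRing U'] {m : ℕ}

theorem A1_eval₂ (ι : R[X] →+* U) (p : R[X]) : (p.map (ι.comp C)).eval (ι X) = ι p := by
  have h : (Polynomial.evalRingHom (ι X)).comp (Polynomial.mapRingHom (ι.comp C)) = ι := by
    apply Polynomial.ringHom_ext <;> simp
  exact RingHom.congr_fun h p

theorem A1_coprime_of_dvd_sub_one {p q : R} (h : p ∣ q - 1) : IsCoprime q p := by
  obtain ⟨c, hc⟩ := h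
  exact ⟨1, -c, by linear_combination hc⟩

theorem A1_coprime_X_sub {G : U[X]} {τ : U} (h : IsUnit (G.eval τ)) : IsCoprime (X - C τ) G := by
  obtain ⟨c, hc⟩ := Polynomial.X_sub_C_dvd_sub_C_eval (p := G) (a := τ)
  obtain ⟨w, hw⟩ := h.exists_left_inv
  refine ⟨-(C w * c), C w, ?_⟩
  have h1 : (C w * C (G.eval τ) : U[X]) = 1 := by rw [← C_mul, hw, C_1]
  linear_combination C w * hc + h1

/-- The section `X ↦ τ` of an open part of the affine line. -/
theorem A1_section {Y : Type u} [CommRing Y] {G : U[X]} {τ : U} (h : IsUnit (G.eval τ))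
    {j : U[X] →+* Y} (hj : IsAway j G) :
    ∃ s : Y →+* U, s.comp j = Polynomial.evalRingHom τ ∧
      RingHom.ker s = Ideal.span {j (X - C τ)} := by
  obtain ⟨s, hs⟩ := hj.exists_lift (Polynomial.evalRingHom τ) h
  have hs' : ∀ p, s (j p) = p.eval τ := fun p => RingHom.congr_fun hs p
  refine ⟨s, hs, le_antisymm (fun z hz => ?_) ?_⟩
  · obtain ⟨p, n, hp⟩ := hj.surj z
    rw [RingHom.mem_ker] at hz
    have h0 : p.eval τ = 0 := by rw [← hs', ← hp, map_mul, hz, zero_mul]
    have h1 : j (X - C τ) ∣ z * j G ^ n := by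
      rw [hp]
      exact map_dvd j (Polynomial.dvd_iff_isRoot.2 h0)
    rw [Ideal.mem_span_singleton]
    exact ((hj.isUnit.pow n).dvd_mul_right).1 h1
  · rw [Ideal.span_le, Set.singleton_subset_iff]
    change s (j (X - C τ)) = 0
    rw [hs']
    simp

theorem PT.a1_rel (P : PT.{u, v} κ m) {a : κ →+* R} (ha : IndEP a) {g ω : R[X]} (hg : g.Monic)
    (hω : ω.Monic) (hc : IsCoprime g ω) {ι : R[X] →+* U} (hι : IsAway ι g) {l : U →+* U'}
    (hl : IsAway l (ι ω)) {b : κ →+* U} {b' : κ →+* U'} (hb : (ι.comp C).comp a = b)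
    (hb' : l.comp b = b') (x : P.obj b) (hx : P.map l hb' x = 0) : x = 0 := by
  rcases subsingleton_or_nontrivial U with hU | hU
  · exact P.eq_zero_of_subsingleton x
  have hbI : IndEP b := hb ▸ ha.comp_et1 (et1_of_etale hι.etale)
  set ρ : R →+* U := ι.comp C with hρ
  set τ : U := ι X with hτ
  set G : U[X] := g.map ρ with hG
  set Ω : U[X] := ω.map ρ with hΩ
  have hGm : G.Monic := hg.map ρ
  have hΩm : Ω.Monic := hω.map ρ
  have hGΩ : IsCoprime G Ω := hc.map (Polynomial.mapRingHom ρ)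
  have hGτ : IsUnit (G.eval τ) := by
    rw [hG, hρ, hτ, A1_eval₂]
    exact hι.isUnit
  obtain ⟨Y, _, j, hj⟩ := exists_isAway G
  obtain ⟨k, hk⟩ := hι.exists_lift (j.comp (Polynomial.mapRingHom ρ)) hj.isUnit
  have hk' : ∀ p, k (ι p) = j (p.map ρ) := fun p => RingHom.congr_fun hk p
  have hkb : k.comp b = (j.comp C).comp b := by
    rw [← hb]
    ext c
    simp [hk', hρ]
  obtain ⟨Yω, _, jω, hjω⟩ := exists_isAway (j Ω)
  obtain ⟨k', hk2⟩ := hl.exists_lift (jω.comp k) (by
    rw [RingHom.comp_apply, hk']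
    exact hjω.isUnit)
  have hk'b : k'.comp b' = jω.comp ((j.comp C).comp b) := by
    rw [← hb', ← RingHom.comp_assoc, hk2, RingHom.comp_assoc, hkb]
  have hy : P.map jω rfl (P.map k hkb x) = 0 := by
    rw [← P.map_square l k' k jω hb' hk'b hkb rfl hk2 x, hx, map_zero]
  have hEt : Et1 (j.comp C) (j X) := et1_of_etale hj.etale
  obtain ⟨Q, hQ, hQ1⟩ := monic_crt (hGm.mul hΩm) 1 (d := G.natDegree + Ω.natDegree)
    natDegree_mul_le
  obtain ⟨P0, hP0, hP1, hP2⟩ := monic_crt2 hGm hΩm hGΩ (X - C τ) 1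
    (d := 1 + (G.natDegree + Ω.natDegree)) (Nat.le_add_left _ _)
  have hq0 : ((X - C τ) * Q).IsMonicOfDegree (1 + (G.natDegree + Ω.natDegree)) :=
    (Polynomial.isMonicOfDegree_X_sub_one τ).mul hQ
  have hQG : G ∣ Q - 1 := (dvd_mul_right G Ω).trans hQ1
  have hQΩ : Ω ∣ Q - 1 := (dvd_mul_left Ω G).trans hQ1
  have hvb : VB (j.comp C) (j ((X - C τ) * Q)) (j P0) := by
    refine vb_monic hj hq0 hP0
      (IsCoprime.mul_left (A1_coprime_X_sub hGτ) (A1_coprime_of_dvd_sub_one hQG)) ?_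
    refine Ideal.le_radical (Ideal.mem_span_singleton.2 ?_)
    have : P0 - (X - C τ) * Q = (P0 - (X - C τ)) - (X - C τ) * (Q - 1) := by ring
    rw [this]
    exact dvd_sub hP1 (hQG.mul_left _)
  have hA0 : Adm b (j.comp C) (j X) (j ((X - C τ) * Q)) := Adm.of_vb_left hbI hEt hvb
  have hA1 : Adm b (j.comp C) (j X) (j P0) := Adm.of_vb_right hbI hEt hvb
  have hAX : Adm b (j.comp C) (j X) (j (X - C τ)) := hA0.of_dvd (map_dvd j (dvd_mul_right _ _))
  have hAQ : Adm b (j.comp C) (j X) (j Q) := hA0.of_dvd (map_dvd j (dvd_mul_left _ _))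
  have hzero : ∀ q : U[X], Adm b (j.comp C) (j X) (j q) → Ω ∣ q - 1 →
      P.tr (j.comp C) rfl (j X) (j q) (P.map k hkb x) = 0 := by
    intro q hq hd
    rw [← P.tr_away (φ' := jω.comp (j.comp C)) (b' := jω.comp ((j.comp C).comp b)) rfl rfl rfl rfl
      rfl rfl hq hjω ((A1_coprime_of_dvd_sub_one hd).symm.map j), hy, map_zero]
  have h1 := P.htpy (φ := j.comp C) rfl hbI hEt hvb (P.map k hkb x)
  rw [hzero P0 hA1 hP2, map_mul, P.tr_add _ _ hAX hAQ, hzero Q hAQ hQΩ, add_zero] at h1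
  obtain ⟨s, hs, hker⟩ := A1_section hGτ hj
  have hs' : ∀ p, s (j p) = p.eval τ := fun p => RingHom.congr_fun hs p
  have hsφ : s.comp (j.comp C) = RingHom.id U := by
    ext c
    simp [hs']
  have hsb : s.comp ((j.comp C).comp b) = b := by
    rw [← RingHom.comp_assoc, hsφ, RingHom.id_comp]
  have hsk : s.comp k = RingHom.id U := by
    refine hι.hom_ext (RingHom.ext fun p => ?_)
    simp only [RingHom.comp_apply, RingHom.id_apply, hk', hs']
    exact A1_eval₂ ι p
  rw [P.tr_section _ hbI hEt s hsb hsφ hker, P.map_retract k s hkb hsb hsk] at h1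
  exact h1

theorem A1_split0 [Field F] (g : F[X]) (h : F[X]) :
    h ≠ 0 → ∃ (h1 ω : F[X]) (n : ℕ), h = h1 * ω ∧ h1 ∣ g ^ n ∧ IsCoprime g ω := by
  refine WfDvdMonoid.induction_on_irreducible h (fun h0 => absurd rfl h0) (fun w hw _ => ?_)
    fun c p hc hp ih _ => ?_
  · exact ⟨w, 1, 0, (mul_one w).symm, hw.dvd, isCoprime_one_right⟩
  · obtain ⟨h1, ω, n, e, hd, hco⟩ := ih hc
    rcases hp.isCoprime_or_dvd g with hpg | hpg
    · exact ⟨h1, p * ω, n, by rw [e]; ring, hd, hpg.symm.mul_right hco⟩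
    · exact ⟨p * h1, ω, n + 1, by rw [e]; ring, by rw [pow_succ']; exact mul_dvd_mul hpg hd, hco⟩

/-- Splitting off the part of `h` that is prime to `g`. -/
theorem A1_split [Field F] (g : F[X]) {h : F[X]} (hh : h ≠ 0) :
    ∃ (h1 ω : F[X]) (n : ℕ), h = h1 * ω ∧ h1 ∣ g ^ n ∧ ω.Monic ∧ IsCoprime g ω := by
  obtain ⟨h1, ω, n, e, hd, hco⟩ := A1_split0 g h hh
  have hω : ω ≠ 0 := by
    rintro rfl
    exact hh (by rw [e, mul_zero])
  have hl : ω.leadingCoeff ≠ 0 := leadingCoeff_ne_zero.2 hω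
  have hu : IsUnit (C ω.leadingCoeff : F[X]) := isUnit_C.2 hl.isUnit
  have hu' : IsUnit (C ω.leadingCoeff⁻¹ : F[X]) := isUnit_C.2 (inv_ne_zero hl).isUnit
  refine ⟨h1 * C ω.leadingCoeff, ω * C ω.leadingCoeff⁻¹, n, ?_, hu.mul_right_dvd.2 hd,
    monic_mul_leadingCoeff_inv hω, (isCoprime_mul_unit_right_right hu' g ω).2 hco⟩
  have : (C ω.leadingCoeff * C ω.leadingCoeff⁻¹ : F[X]) = 1 := by
    rw [← C_mul, mul_inv_cancel₀ hl, C_1]
  rw [e]
  linear_combination (-(h1 * ω)) * this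

theorem A1_subsingleton {ι : R →+* U} (hι : IsAway ι 0) : Subsingleton U := by
  have h := hι.isUnit
  rw [map_zero, isUnit_zero_iff] at h
  exact subsingleton_of_zero_eq_one h

theorem PT.a1_field [Field F] (P : PT.{u, v} κ m) {a : κ →+* F} (ha : IndEP a) {g h : F[X]}
    (hh : h ≠ 0) {ι : F[X] →+* U} (hι : IsAway ι g) {l : U →+* U'} (hl : IsAway l (ι h))
    {b : κ →+* U} {b' : κ →+* U'} (hb : (ι.comp C).comp a = b) (hb' : l.comp b = b')
    (x : P.obj b) (hx : P.map l hb' x = 0) : x = 0 := by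
  by_cases hg : g = 0
  · subst hg
    have := A1_subsingleton hι
    exact P.eq_zero_of_subsingleton x
  have hlc : g.leadingCoeff ≠ 0 := leadingCoeff_ne_zero.2 hg
  have hu' : IsUnit (C g.leadingCoeff⁻¹ : F[X]) := isUnit_C.2 (inv_ne_zero hlc).isUnit
  obtain ⟨h1, ω, n, e, hd, hω, hco⟩ := A1_split g hh
  have hι' : IsAway ι (g * C g.leadingCoeff⁻¹) :=
    hι.of_dvd_pow (n := 1) (k := 1) (by rw [pow_one]; exact dvd_mul_right _ _)
      (by rw [pow_one]; exact hu'.mul_right_dvd.2 dvd_rfl)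
  have hu1 : IsUnit (ι h1) := by
    refine isUnit_of_dvd_unit (map_dvd ι hd) ?_
    rw [map_pow]
    exact hι.isUnit.pow n
  have hl' : IsAway l (ι ω) :=
    hl.of_dvd_pow (n := 1) (k := 1)
      (by rw [pow_one, e, map_mul]; exact hu1.mul_left_dvd.2 dvd_rfl)
      (by rw [pow_one, e, map_mul]; exact dvd_mul_left _ _)
  exact P.a1_rel ha (monic_mul_leadingCoeff_inv hg) hω
    ((isCoprime_mul_unit_right_left hu' g ω).2 hco) hι' hl' hb hb' x hx

theorem PT.a1_generic [Field F] (P : PT.{u, v} κ m) {a : κ →+* F} (ha : IndEP a) {g : F[X]}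
    {ι : F[X] →+* U} (hι : IsAway ι g) {l : U →+* U'}
    (hl : IsLoc l ((nonZeroDivisors F[X]).map ι)) {b : κ →+* U} {b' : κ →+* U'}
    (hb : (ι.comp C).comp a = b) (hb' : l.comp b = b') (x : P.obj b) (hx : P.map l hb' x = 0) :
    x = 0 := by
  have hbI : IndEP b := hb ▸ ha.comp_et1 (et1_of_etale hι.etale)
  obtain ⟨s, hs, H⟩ := P.cont_loc hbI hl hb' x hx
  obtain ⟨h, hh, rfl⟩ := Submonoid.mem_map.1 hs
  obtain ⟨U1, _, l1, hl1⟩ := exists_isAway (ι h)
  exact P.a1_field ha (nonZeroDivisors.ne_zero hh) hι hl1 hb rfl x (H U1 l1 _ rfl hl1.isUnit)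

/-- Exchange of two localisations. -/
theorem A1_loc {B B' T : Type u} [CommRing B] [CommRing B'] [CommRing T] {ν : B →+* U} {c π : B}
    (hν : IsAway ν (c * π)) {M : Submonoid B} {lam : B →+* B'} (hlam : IsLoc lam M)
    {ι' : B' →+* T} (hι' : IsAway ι' (lam π)) {l : U →+* T} (w : l.comp ν = ι'.comp lam) :
    IsLoc l (M.map ν) := by
  have w' : ∀ y, l (ν y) = ι' (lam y) := fun y => RingHom.congr_fun w y
  obtain ⟨h1, h2, h3⟩ := isLoc_iff.1 hlam
  have hπ : IsUnit (ν π) := isUnit_of_dvd_unit (map_dvd ν (dvd_mul_left π c)) hν.isUnit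
  refine isLoc_iff.2 ⟨?_, fun z => ?_, fun x hx => ?_⟩
  · rintro _ ⟨y, hy, rfl⟩
    rw [w']
    exact (h1 y hy).map ι'
  · obtain ⟨z', n, hz⟩ := hι'.surj z
    obtain ⟨x0, y, hy, hxy⟩ := h2 z'
    obtain ⟨v, hv⟩ := hπ.exists_right_inv
    refine ⟨ν x0 * v ^ n, ν y, ⟨y, hy, rfl⟩, ?_⟩
    have e1 : ι' (lam π) ^ n * l v ^ n = 1 := by
      rw [← mul_pow, ← w', ← map_mul, hv, map_one, one_pow]
    rw [map_mul, map_pow, w', w', ← hxy, map_mul, ← hz]
    linear_combination (-(z * ι' (lam y))) * e1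
  · obtain ⟨x0, n, hx0⟩ := hν.surj x
    have e1 : ι' (lam x0) = 0 := by rw [← w', ← hx0, map_mul, hx, zero_mul]
    obtain ⟨k, hk⟩ := hι'.eq_zero e1
    obtain ⟨y, hy, hy0⟩ := h3 (π ^ k * x0) (by rw [map_mul, map_pow, hk])
    refine ⟨ν y, ⟨y, hy, rfl⟩, ?_⟩
    have e2 : ν y * x * (ν π ^ k * ν (c * π) ^ n) = 0 := by
      have := congrArg ν hy0
      rw [map_mul, map_mul, map_pow, ← hx0, map_zero] at this
      linear_combination this
    exact ((hπ.pow k).mul (hν.isUnit.pow n)).mul_left_eq_zero.1 e2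

theorem A1_frac [Field F] :
    IsLoc (algebraMap F[X] (FractionRing F[X])) (nonZeroDivisors F[X]) :=
  (isLoc_algebraMap_iff _).2 inferInstance

theorem PT.VanF.line [Field F] {P : PT.{u, v} κ m} (hP : P.VanF) {a : κ →+* F} (ha : IndEP a)
    {g : F[X]} {ι : F[X] →+* U} (hι : IsAway ι g) {b : κ →+* U} (hb : (ι.comp C).comp a = b)
    (x : P.obj b) : x = 0 := by
  by_cases hg : g = 0
  · subst hg
    have := A1_subsingleton hι
    exact P.eq_zero_of_subsingleton x
  have hbI : IndEP b := hb ▸ ha.comp_et1 (et1_of_etale hι.etale)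
  have hfr := A1_frac (F := F)
  obtain ⟨l, hl⟩ := hι.exists_lift (algebraMap F[X] (FractionRing F[X]))
    ((isLoc_iff.1 hfr).1 g (mem_nonZeroDivisors_of_ne_zero hg))
  have hι1 : IsAway ι (g * 1) := by rwa [mul_one]
  have hloc : IsLoc l ((nonZeroDivisors F[X]).map ι) :=
    A1_loc hι1 hfr (ι' := RingHom.id _)
      (isAway_of_bijective Function.bijective_id (by rw [map_one]; exact isUnit_one))
      (by rw [hl, RingHom.id_comp])
  exact P.a1_generic ha hι hloc hb rfl x (hP _ _ (hbI.comp_isLoc hloc) _)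

/-- The polynomial ring over `F(t)` as a localisation. -/
theorem A1_lam [Field F] (n : ℕ) :
    IsLoc (Polynomial.eval₂RingHom
        (MvPolynomial.map (σ := Fin n) ((algebraMap F[X] (FractionRing F[X])).comp C))
        (MvPolynomial.C (algebraMap F[X] (FractionRing F[X]) X)))
      ((nonZeroDivisors F[X]).map
        (Polynomial.mapRingHom (MvPolynomial.C : F →+* MvPolynomial (Fin n) F))) := by
  refine IsPO.isLoc (i := MvPolynomial.C) (IsPO.flip ?_) A1_frac
  refine (isPO_polynomial (MvPolynomial.C : F →+* MvPolynomial (Fin n) F)).flip.cancel ?_ ?_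
  · apply Polynomial.ringHom_ext <;> simp
  · have h := isPO_mvPolynomial (Fin n) ((algebraMap F[X] (FractionRing F[X])).comp C)
    convert h using 1
    ext <;> simp

theorem A1_torus {P : PT.{u, v} κ m} (hP : P.VanF) (n : ℕ) :
    ∀ (F U : Type u) [Field F] [CommRing U] (a : κ →+* F), IndEP a →
      ∀ (ι : MvPolynomial (Fin n) F →+* U), IsAway ι (∏ i, MvPolynomial.X i) →
        ∀ (b : κ →+* U), (ι.comp MvPolynomial.C).comp a = b → ∀ x : P.obj b, x = 0 := by
  induction n with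
  | zero =>
    intro F U _ _ a ha ι hι b hb x
    have h1 : Function.Bijective ι := hι.bijective (by simp)
    have h2 : Function.Bijective (MvPolynomial.C : F →+* MvPolynomial (Fin 0) F) :=
      ⟨MvPolynomial.C_injective _ _, fun p => ⟨_, (MvPolynomial.eq_C_of_isEmpty p).symm⟩⟩
    obtain ⟨x0, rfl⟩ := (P.map_bijective hb (h1.comp h2)).2 x
    rw [hP F a ha x0, map_zero]
  | succ n ih =>
    intro F U _ _ a ha ι hι b hb x
    have hbI : IndEP b := hb ▸ ha.comp_etN ((etN_X _).comp hι.etale)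
    set π : MvPolynomial (Fin n) F := ∏ i, MvPolynomial.X i with hπ
    set e : (MvPolynomial (Fin n) F)[X] →+* MvPolynomial (Fin (n + 1)) F :=
      ((MvPolynomial.finSuccEquiv F n).symm :
        (MvPolynomial (Fin n) F)[X] →+* MvPolynomial (Fin (n + 1)) F) with he
    have hebij : Function.Bijective e := (MvPolynomial.finSuccEquiv F n).symm.bijective
    have he1 : e (X * C π) = ∏ i, MvPolynomial.X i := by
      change (MvPolynomial.finSuccEquiv F n).symm _ = _
      rw [AlgEquiv.symm_apply_eq, Fin.prod_univ_succ, map_mul, MvPolynomial.finSuccEquiv_X_zero,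
        hπ, map_prod, map_prod]
      simp only [MvPolynomial.finSuccEquiv_X_succ]
    have he2 : ∀ c : F, e (C (MvPolynomial.C c)) = MvPolynomial.C c := by
      intro c
      change (MvPolynomial.finSuccEquiv F n).symm _ = _
      rw [AlgEquiv.symm_apply_eq]
      exact ((MvPolynomial.finSuccEquiv F n).commutes c).symm
    have hθ : IsAway (ι.comp e) (X * C π) := by
      have h := (isAway_of_bijective hebij isUnit_one).comp (s := X * C π) (l' := ι)
        (by rwa [he1])
      rwa [one_mul] at h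
    set θ : (MvPolynomial (Fin n) F)[X] →+* U := ι.comp e with hθdef
    have hθb : ∀ c : κ, θ (C (MvPolynomial.C (a c))) = b c := by
      intro c
      rw [← hb, hθdef, RingHom.comp_apply, he2]
      rfl
    have hθX : IsUnit (θ X) := isUnit_of_dvd_unit (map_dvd θ (dvd_mul_right _ _)) hθ.isUnit
    have hθπ : IsUnit (θ (C π)) := isUnit_of_dvd_unit (map_dvd θ (dvd_mul_left _ _)) hθ.isUnit
    -- the generic fibre
    have hlam := A1_lam (F := F) n
    set K := FractionRing F[X]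
    set lam : (MvPolynomial (Fin n) F)[X] →+* MvPolynomial (Fin n) K := Polynomial.eval₂RingHom
      (MvPolynomial.map (σ := Fin n) ((algebraMap F[X] K).comp C))
      (MvPolynomial.C (algebraMap F[X] K X)) with hlamdef
    have hlamπ : lam (C π) = ∏ i, MvPolynomial.X i := by
      simp [hlamdef, hπ]
    have hlamX : IsUnit (lam X) := by
      have h := (isLoc_iff.1 hlam).1 X ⟨X, mem_nonZeroDivisors_of_ne_zero X_ne_zero, by simp⟩
      exact h
    obtain ⟨T, _, ιK, hιK⟩ := exists_isAway (lam (C π))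
    obtain ⟨l, hl⟩ := hθ.exists_lift (ιK.comp lam) (by
      rw [RingHom.comp_apply, map_mul, map_mul]
      exact (hlamX.map ιK).mul hιK.isUnit)
    have hloc := A1_loc hθ hlam hιK hl
    have haK : IndEP ((algebraMap F[X] K).comp ((C : F →+* F[X]).comp a)) :=
      ha.polynomial.comp_isLoc A1_frac
    have hlb : (ιK.comp MvPolynomial.C).comp ((algebraMap F[X] K).comp ((C : F →+* F[X]).comp a))
        = l.comp b := by
      ext c
      have h := RingHom.congr_fun hl (C (MvPolynomial.C (a c)))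
      rw [RingHom.comp_apply, hθb] at h
      simp only [RingHom.comp_apply] at h ⊢
      rw [h, hlamdef]
      simp
    have hx : P.map l rfl x = 0 := ih K T _ haK ιK (hlamπ ▸ hιK) _ hlb _
    obtain ⟨s, hs, H⟩ := P.cont_loc hbI hloc rfl x hx
    obtain ⟨s1, hs1, rfl⟩ := Submonoid.mem_map.1 hs
    obtain ⟨h, hh, rfl⟩ := Submonoid.mem_map.1 hs1
    obtain ⟨h1, ω, k, eh, hd, hω, hco⟩ := A1_split X (nonZeroDivisors.ne_zero hh)
    -- the relative line
    obtain ⟨R0, _, ι0, hι0⟩ := exists_isAway π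
    obtain ⟨ι', hι'⟩ := hι0.polynomial.exists_lift θ hθπ
    have hι'' : ∀ p, ι' (p.map ι0) = θ p := fun p => RingHom.congr_fun hι' p
    have hX : IsAway ι' X := by
      have h := hι0.polynomial.of_comp (l' := ι') (s := X) (by rw [hι', mul_comm]; exact hθ)
      simpa using h
    have ha0 : IndEP ((ι0.comp MvPolynomial.C).comp a) := ha.comp_etN ((etN_X _).comp hι0.etale)
    obtain ⟨U1, _, l1, hl1⟩ := exists_isAway (ι' (ω.map (ι0.comp MvPolynomial.C)))
    have hco' : IsCoprime X (ω.map (ι0.comp MvPolynomial.C)) := by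
      have h := hco.map (Polynomial.mapRingHom (ι0.comp MvPolynomial.C))
      simpa using h
    have hb0 : (ι'.comp C).comp ((ι0.comp MvPolynomial.C).comp a) = b := by
      ext c
      rw [← hθb, ← hι'']
      simp
    refine P.a1_rel ha0 monic_X (hω.map _) hco' hX hl1 hb0 rfl x (H U1 l1 _ rfl ?_)
    have hu1 : IsUnit (θ (h1.map MvPolynomial.C)) := by
      refine isUnit_of_dvd_unit (map_dvd θ (Polynomial.map_dvd MvPolynomial.C hd)) ?_
      rw [Polynomial.map_pow, map_X, map_pow]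
      exact hθX.pow k
    have hu2 := hl1.isUnit
    rw [← Polynomial.map_map, hι''] at hu2
    rw [eh, map_mul, map_mul, map_mul]
    exact (hu1.map l1).mul hu2

theorem PT.VanF.torus [Field F] {P : PT.{u, v} κ m} (hP : P.VanF) {a : κ →+* F} (ha : IndEP a)
    {n : ℕ} {ι : MvPolynomial (Fin n) F →+* U} (hι : IsAway ι (∏ i, MvPolynomial.X i))
    {b : κ →+* U} (hb : (ι.comp MvPolynomial.C).comp a = b) (x : P.obj b) : x = 0 :=
  A1_torus hP n F U a ha ι hι b hb x

end KEW
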