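import Pool.Agent.P.MP_6277db_ag.KEW.PT.Api
import Pool.Agent.P.MP_6277db_ag.KEW.CA.Chart

/-!
KEW L5.3 (a2): gluing along an elementary square of curves.
Hints.  Normalise `g`, `ω` to monic polynomials (`g ≠ 0` as `U/ω ≠ 0`; if `g` is a unit multiple use `IsAway.of_dvd_pow`).
`curve_chart`; replace `E` by `E0`.  For a ring `R` with `h : F[X] → R`, `τ = h X`, `hR = mapRingHom (h ∘ C) : F[X] → R[X]`, put
`Et_R = AdjoinRoot (p.map hR)`, `X_R = Et_R[1/Q]`, `σ' = 1 + e (u - τ - 1)`, `σ = σ' + L`, `L = X^M N ω` monic of large degree `d`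
(`norm_monic`, `DegLT.exists_of_integral`); `σ ≡ 1` mod `Q` (so mod `g`), `norm σ` is monic of degree `r d`, `≡ 1` mod `g`
(`norm_sub_mem`), `≡ X - τ` mod `ω` (last clause of the chart).  Over `R = U`: `x0 = tr_σ β - tr_P' α` with
`P'` monic of degree `r d - 1`, `P' ≡ 1` mod `ω`, `(X - τ) P' ≡ 1` mod `g`, the second transfer taken on `U[X][1/(g ω)]`.
Over `R' = Uω` (`tr_baseChange`): `ω(u)` is prime to `σ` on `X_R'` because `σ ≡ u - τ` mod `ω(u)` there and `ω(τ)` is a unit,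
so `tr_σ β` can be computed on `X_R'[1/ω]`, where `β = α`; `tr_push` with `Y0 = R'[X][1/(g ω)]` (`norm_amap`), then `vb_monic`/`htpy` from `norm σ`
to `(X - τ) P'` (congruent mod `g` and mod `ω`, so the difference is in the radical of `(g ω)`), `tr_add`, `tr_section`.
-/

namespace KEW

universe u v

open Polynomial

variable {κ F U Uω E Eω : Type u} [CommRing κ] [Field F] [CommRing U] [CommRing Uω] [CommRing E]
  [CommRing Eω] {m : ℕ}

section helpers

variable {R S T Y Y' R' : Type u} [CommRing R] [CommRing S] [CommRing T] [CommRing Y]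
  [CommRing Y'] [CommRing R']

theorem A2_cop {x w w' s : R} (h1 : x ∣ w - w') (h2 : IsUnit w') (h3 : w ∣ s - x) :
    IsCoprime w s := by
  obtain ⟨c, hc⟩ := h1
  obtain ⟨d, hd⟩ := h3
  obtain ⟨v, hv⟩ := h2.exists_left_inv
  refine ⟨v * (1 + d * c), -(v * c), ?_⟩
  linear_combination hv + v * hc - v * c * hd

theorem A2_cop_one {w s c : R} (h : w ∣ c * s - 1) : IsCoprime w s := by
  obtain ⟨d, hd⟩ := h
  refine ⟨-d, c, ?_⟩
  linear_combination hd

theorem A2_map_deg [Nontrivial S] (f : R →+* S) {q : R[X]} {d : ℕ} (hq : q.IsMonicOfDegree d) :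
    (q.map f).IsMonicOfDegree d :=
  ⟨by rw [hq.monic.natDegree_map, hq.natDegree_eq], hq.monic.map f⟩

theorem A2_adm_poly {a : κ →+* R} (ha : IndEP a) {z : R[X] →+* Y} {h q : R[X]} (hz : IsAway z h)
    (hq : q.Monic) (hc : IsCoprime h q) : Adm a (z.comp C) (z X) (z q) :=
  ⟨ha, et1_of_etale hz.etale,
    FinMod.of_surjective rfl (finMod_monic hq) (hz.qmap_bijective hc rfl).2⟩

theorem A2_fin_root {p : R[X][X]} (hp : p.Monic) {σ : AdjoinRoot p}
    (hn : (Algebra.norm R[X] σ).Monic) :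
    FinMod ((AdjoinRoot.of p).comp C) (Ideal.span {σ}) := by
  refine FinMod.of_dvd ?_ (dvd_of_norm hp σ)
  have h1 : FinMod (C : R →+* R[X]) (Ideal.span {Algebra.norm R[X] σ}) := finMod_monic hn
  have h2 : (qmap (AdjoinRoot.of p) (rfl : AdjoinRoot.of p (Algebra.norm R[X] σ) = _)).Finite := by
    apply RingHom.Finite.of_comp_finite
      (f := Ideal.Quotient.mk (Ideal.span {Algebra.norm R[X] σ}))
    have h3 : (qmap (AdjoinRoot.of p) (rfl : AdjoinRoot.of p (Algebra.norm R[X] σ) = _)).comp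
        (Ideal.Quotient.mk (Ideal.span {Algebra.norm R[X] σ})) =
        (Ideal.Quotient.mk _).comp (AdjoinRoot.of p) := RingHom.ext fun y => rfl
    rw [h3]
    exact RingHom.Finite.comp (RingHom.Finite.of_surjective _ Ideal.Quotient.mk_surjective)
      (finite_adjoinRoot_of hp)
  have h4 := RingHom.Finite.comp h2 h1
  have h5 : (qmap (AdjoinRoot.of p) (rfl : AdjoinRoot.of p (Algebra.norm R[X] σ) = _)).comp
      ((Ideal.Quotient.mk (Ideal.span {Algebra.norm R[X] σ})).comp C) =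
      (Ideal.Quotient.mk _).comp ((AdjoinRoot.of p).comp C) := RingHom.ext fun y => rfl
  rw [h5] at h4
  exact h4

theorem A2_adm_root {a : κ →+* R} (ha : IndEP a) {p : R[X][X]} (hp : p.Monic)
    {Q σ : AdjoinRoot p} {j : AdjoinRoot p →+* Y} (hj : IsAway j Q)
    (het : (j.comp (AdjoinRoot.of p)).Etale) (hc : IsCoprime Q σ)
    (hn : (Algebra.norm R[X] σ).Monic) :
    Adm a ((j.comp (AdjoinRoot.of p)).comp C) (j (AdjoinRoot.of p X)) (j σ) :=
  ⟨ha, et1_of_etale het,
    FinMod.of_surjective (φ := (AdjoinRoot.of p).comp C) (g := j) rfl (A2_fin_root hp hn)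
      (hj.qmap_bijective hc rfl).2⟩

/-- Base change along a localisation followed by a shrinking. -/
theorem A2_step (P : PT.{u, v} κ m) {a : κ →+* R} {b : κ →+* Y} {a' : κ →+* R'} {b' : κ →+* Y'}
    {φ : R →+* Y} {φ' : R' →+* Y'} {f : R →+* R'} {g : Y →+* Y'} (hφ : φ.comp a = b)
    (hφ' : φ'.comp a' = b') (hf : f.comp a = a') (hg : g.comp b = b') {u σ w : Y} {u' σ' : Y'}
    (hu : g u = u') (hσ : g σ = σ') (hA : Adm a φ u σ) {r : R} (hr : IsAway f r)
    (hw : IsAway g (φ r * w)) (hsq : g.comp φ = φ'.comp f)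
    (hcop : ∀ (Z : Type u) [CommRing Z] (k : Y →+* Z), IsUnit (k (φ r)) → IsCoprime (k w) (k σ)) :
    Adm a' φ' u' σ' ∧ ∀ x : P.obj b,
      P.tr φ' hφ' u' σ' (P.map g hg x) = P.map f hf (P.tr φ hφ u σ x) := by
  obtain ⟨Z, _, k, hk⟩ := exists_isAway (φ r)
  obtain ⟨ψ, hψ⟩ := hr.exists_lift (k.comp φ) hk.isUnit
  have hpo : IsPO φ f k ψ := (hr.isPO hk hψ).flip
  have hgu : IsUnit (g (φ r)) := by
    have h1 := hw.isUnit
    rw [map_mul] at h1
    exact isUnit_of_mul_isUnit_left h1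
  obtain ⟨k', hk'⟩ := hk.exists_lift g hgu
  have hk'a : IsAway k' (k w) := hk.of_comp (by rw [hk']; exact hw)
  have hψ' : k'.comp ψ = φ' := by
    apply hr.hom_ext
    rw [RingHom.comp_assoc, hψ, ← RingHom.comp_assoc, hk', hsq]
  have ha' : IndEP a' := by
    rw [← hf]
    exact hA.ind.comp_etale hr.etale
  have hA1 : Adm a' ψ (k u) (k σ) := hA.baseChange hpo ha'
  have hc := hcop Z k hk.isUnit
  have hku : k' (k u) = u' := by rw [← hu, ← hk']; rfl
  have hkσ : k' (k σ) = σ' := by rw [← hσ, ← hk']; rfl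
  have hee : EE (Ideal.span {k σ}) k' := by
    apply hk'a.ee
    obtain ⟨c, d, hcd⟩ := hc
    refine ⟨c, ?_⟩
    rw [Ideal.mem_span_singleton]
    exact ⟨-d, by rw [← hcd]; ring⟩
  have hb1 : ψ.comp a' = k.comp b := by
    rw [← hf, ← hφ, ← RingHom.comp_assoc, hψ, RingHom.comp_assoc]
  have hb2 : k'.comp (k.comp b) = b' := by rw [← RingHom.comp_assoc, hk', hg]
  refine ⟨?_, fun x => ?_⟩
  · have h2 := hA1.nb hee
    rw [hψ', hku, hkσ] at h2
    exact h2
  · rw [← P.tr_baseChange hφ hb1 hf rfl rfl rfl hA ha' hpo x,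
      ← P.tr_away hb1 hφ' hb2 hψ' hku hkσ hA1 hk'a hc,
      P.map_map k k' g rfl hb2 hg hk']

/-- The computation on an open part of the affine line. -/
theorem A2_line (P : PT.{u, v} κ m) [Nontrivial R] {a : κ →+* R} (ha : IndEP a) {b : κ →+* Y}
    {z : R[X] →+* Y} {h q0 q : R[X]} (hz : IsAway z h) (hb : (z.comp C).comp a = b) {τ : R} {D : ℕ}
    (h0 : q0.IsMonicOfDegree (1 + D)) (h1 : q.IsMonicOfDegree D) (hc : IsCoprime h q0)
    (hd : h ∣ (X - C τ) * q - q0) {s : Y →+* R} (hs : s.comp z = evalRingHom τ)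
    (hsb : s.comp b = a) (x : P.obj b) :
    P.tr (z.comp C) hb (z X) (z q0) x = P.map s hsb x + P.tr (z.comp C) hb (z X) (z q) x := by
  have het : Et1 (z.comp C) (z X) := et1_of_etale hz.etale
  have hvb : VB (z.comp C) (z q0) (z ((X - C τ) * q)) :=
    vb_monic hz h0 ((isMonicOfDegree_X_sub_one τ).mul h1) hc.symm
      (Ideal.le_radical (Ideal.mem_span_singleton.2 hd))
  have hA : Adm a (z.comp C) (z X) (z ((X - C τ) * q)) := Adm.of_vb_right ha het hvb
  have hsz : ∀ y, s (z y) = y.eval τ := fun y => RingHom.congr_fun hs y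
  have hs1 : s.comp (z.comp C) = RingHom.id R := by
    refine RingHom.ext fun r => ?_
    simp only [RingHom.comp_apply, hsz, eval_C, RingHom.id_apply]
  have hker : RingHom.ker s = Ideal.span {z (X - C τ)} := by
    apply le_antisymm
    · intro y hy
      rw [RingHom.mem_ker] at hy
      obtain ⟨x', n, hx'⟩ := hz.surj y
      have h2 : x'.eval τ = 0 := by
        rw [← hsz, ← hx', map_mul, hy, zero_mul]
      have h3 : z (X - C τ) ∣ y * z h ^ n := by
        rw [hx']
        exact map_dvd z (dvd_iff_isRoot.2 h2)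
      rw [Ideal.mem_span_singleton]
      exact (hz.isUnit.pow n).dvd_mul_right.1 h3
    · rw [Ideal.span_le, Set.singleton_subset_iff]
      change s (z (X - C τ)) = 0
      rw [hsz]
      simp
  rw [P.htpy hb ha het hvb x, map_mul] at *
  rw [P.tr_add (z.comp C) hb (hA.of_dvd (dvd_mul_right _ _)) (hA.of_dvd (dvd_mul_left _ _)) x,
    P.tr_section hb ha het s hsb hs1 hker x]

end helpers

theorem A2_data [Nontrivial U] {g ω : F[X]} (hω : ω ≠ 0) (hc : IsCoprime g ω) {ι : F[X] →+* U}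
    (hι : IsUnit (ι g)) {hU : F[X] →+* U[X]} (hhU : hU = mapRingHom (ι.comp C))
    {p : F[X][X]} {Q e : AdjoinRoot p} {N : F[X]} (hp : p.Monic) (hp0 : 0 < p.natDegree)
    (hgQ : AdjoinRoot.of p g ∣ Q) (hQe : Q ∣ e) (hωe : AdjoinRoot.of p ω ∣ (1 - e) * Q)
    (hN : N.Monic) (hQN : Q ∣ AdjoinRoot.of p N)
    (hnorm : ∀ c : U[X],
      hU ω ∣ Algebra.norm U[X] (1 + amap hU p e * AdjoinRoot.of (p.map hU) c) - (1 + c)) :
    ∃ (σ : AdjoinRoot (p.map hU)) (P' : U[X]) (D : ℕ),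
      (Algebra.norm U[X] σ).IsMonicOfDegree (1 + D) ∧ P'.IsMonicOfDegree D ∧
      amap hU p Q ∣ σ - 1 ∧
      AdjoinRoot.of (p.map hU) (hU ω) ∣ (σ - AdjoinRoot.of (p.map hU) (X - C (ι X))) * amap hU p Q ∧
      hU g ∣ Algebra.norm U[X] σ - 1 ∧ hU ω ∣ Algebra.norm U[X] σ - (X - C (ι X)) ∧
      hU g ∣ (X - C (ι X)) * P' - 1 ∧ hU ω ∣ P' - 1 := by
  have hg : g ≠ 0 := by
    rintro rfl
    rw [map_zero] at hι
    exact not_isUnit_zero hι
  have hev : ∀ y, (hU y).eval (ι X) = ι y := by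
    intro y
    have h1 : (evalRingHom (ι X)).comp hU = ι := by
      rw [hhU]
      apply Polynomial.ringHom_ext
      · intro r
        simp
      · simp
    exact RingHom.congr_fun h1 y
  have hdeg : ∀ {y : F[X]}, y.Monic → (hU y).IsMonicOfDegree y.natDegree := by
    intro y hy
    rw [hhU]
    exact A2_map_deg (ι.comp C) ⟨rfl, hy⟩
  have hunit : ∀ {y : F[X]}, y ≠ 0 → IsUnit (C (leadingCoeff y)⁻¹ : F[X]) := fun hy =>
    isUnit_C.2 (IsUnit.mk0 _ (inv_ne_zero (leadingCoeff_ne_zero.2 hy)))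
  obtain ⟨ω1, hω1, hωω⟩ : ∃ ω1 : F[X], ω1.Monic ∧ Associated ω ω1 :=
    ⟨_, monic_mul_leadingCoeff_inv hω, associated_mul_unit_right ω _ (hunit hω)⟩
  obtain ⟨g1, hg1, hgg⟩ : ∃ g1 : F[X], g1.Monic ∧ Associated g g1 :=
    ⟨_, monic_mul_leadingCoeff_inv hg, associated_mul_unit_right g _ (hunit hg)⟩
  have hc1 : IsCoprime g1 ω1 := (hc.of_isCoprime_of_dvd_left hgg.symm.dvd).of_isCoprime_of_dvd_right
    hωω.symm.dvd
  have hp1 : (p.map hU).Monic := hp.map hU
  obtain ⟨d0, hd0⟩ := norm_monic hp1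
    (1 + amap hU p e * AdjoinRoot.of (p.map hU) (X - C (ι X) - 1))
  have hL : (X ^ (d0 + g1.natDegree + 1) * (hU N * hU ω1) : U[X]).IsMonicOfDegree
      (d0 + g1.natDegree + 1 + (N.natDegree + ω1.natDegree)) :=
    (isMonicOfDegree_X_pow U _).mul ((hdeg hN).mul (hdeg hω1))
  have hn := hd0 _ _ (by omega) hL
  rw [hp.natDegree_map] at hn
  obtain ⟨D, hD, hD'⟩ : ∃ D, p.natDegree * (d0 + g1.natDegree + 1 + (N.natDegree + ω1.natDegree)) =
      1 + D ∧ g1.natDegree + ω1.natDegree ≤ D := by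
    have h1 := Nat.le_mul_of_pos_left (d0 + g1.natDegree + 1 + (N.natDegree + ω1.natDegree)) hp0
    exact ⟨p.natDegree * (d0 + g1.natDegree + 1 + (N.natDegree + ω1.natDegree)) - 1, by omega,
      by omega⟩
  rw [hD] at hn
  obtain ⟨c, hcc⟩ : X - C (ι X) ∣ hU g - C (ι g) := by
    rw [← hev g]
    exact X_sub_C_dvd_sub_C_eval
  obtain ⟨v, hv⟩ := (hι.map (C : U →+* U[X])).exists_left_inv
  obtain ⟨P', hP', hP1, hP2⟩ := monic_crt2 (hdeg hg1).monic (hdeg hω1).monic (hc1.map hU)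
    (-(c * v)) 1 (d := D) (by rw [(hdeg hg1).natDegree_eq, (hdeg hω1).natDegree_eq]; exact hD')
  have hωL : hU ω ∣ X ^ (d0 + g1.natDegree + 1) * (hU N * hU ω1) :=
    Dvd.dvd.mul_left (Dvd.dvd.mul_left (map_dvd hU hωω.dvd) _) _
  have hQ1 : amap hU p Q ∣ AdjoinRoot.of (p.map hU) (X ^ (d0 + g1.natDegree + 1) * (hU N * hU ω1)) +
      (1 + amap hU p e * AdjoinRoot.of (p.map hU) (X - C (ι X) - 1)) - 1 := by
    have h1 : amap hU p Q ∣ AdjoinRoot.of (p.map hU) (hU N) := by
      rw [← amap_of]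
      exact map_dvd _ hQN
    have h2 : amap hU p Q ∣
        AdjoinRoot.of (p.map hU) (X ^ (d0 + g1.natDegree + 1) * (hU N * hU ω1)) :=
      h1.trans (map_dvd _ (Dvd.dvd.mul_left (dvd_mul_right _ _) _))
    have h3 := dvd_add h2 (Dvd.dvd.mul_right (map_dvd (amap hU p) hQe)
      (AdjoinRoot.of (p.map hU) (X - C (ι X) - 1)))
    rwa [add_sub_assoc, add_sub_cancel_left]
  refine ⟨_, P', D, hn, hP', hQ1, ?_, ?_, ?_, ?_, (map_dvd hU hωω.dvd).trans hP2⟩
  · have h1 := map_dvd (amap hU p) hωe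
    rw [amap_of, map_mul, map_sub, map_one] at h1
    have h2 := dvd_add (Dvd.dvd.mul_right (map_dvd (AdjoinRoot.of (p.map hU)) hωL) (amap hU p Q))
      (Dvd.dvd.mul_right h1 (1 - AdjoinRoot.of (p.map hU) (X - C (ι X))))
    refine h2.trans (dvd_of_eq ?_)
    rw [map_sub (AdjoinRoot.of (p.map hU)) (X - C (ι X)) 1, map_one]
    ring
  · have h1 := map_dvd (amap hU p) hgQ
    rw [amap_of] at h1
    have h2 := norm_sub_mem hp1 (Ideal.span {hU g}) (σ' := 1) (by
      rw [Ideal.map_span, Set.image_singleton, Ideal.mem_span_singleton]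
      exact h1.trans hQ1)
    rwa [map_one, Ideal.mem_span_singleton] at h2
  · have h2 := norm_sub_mem hp1 (Ideal.span {hU ω})
      (σ := AdjoinRoot.of (p.map hU) (X ^ (d0 + g1.natDegree + 1) * (hU N * hU ω1)) +
        (1 + amap hU p e * AdjoinRoot.of (p.map hU) (X - C (ι X) - 1)))
      (σ' := 1 + amap hU p e * AdjoinRoot.of (p.map hU) (X - C (ι X) - 1)) (by
      rw [Ideal.map_span, Set.image_singleton, Ideal.mem_span_singleton, add_sub_cancel_right]
      exact map_dvd _ hωL)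
    rw [Ideal.mem_span_singleton] at h2
    refine (dvd_add h2 (hnorm (X - C (ι X) - 1))).trans (dvd_of_eq ?_)
    ring
  · have h1 := Dvd.dvd.mul_left ((map_dvd hU hgg.dvd).trans hP1) (X - C (ι X))
    refine (dvd_sub h1 (dvd_mul_right (hU g) v)).trans (dvd_of_eq ?_)
    linear_combination (-v) * hcc - hv

theorem PT.a2 (P : PT.{u, v} κ m) {a : κ →+* F} (ha : IndEP a) {g ω : F[X]} (hω : Irreducible ω)
    (hc : IsCoprime g ω) {ι : F[X] →+* U} (hι : IsAway ι g) {lU : U →+* Uω} (hlU : IsAway lU (ι ω))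
    {ε : U →+* E} (hε : EE (Ideal.span {ι ω}) ε) {lE : E →+* Eω} (hlE : IsAway lE (ε (ι ω)))
    {εω : Uω →+* Eω} (w : εω.comp lU = lE.comp ε) {b : κ →+* U} {bω : κ →+* Uω} {c : κ →+* E}
    {cω : κ →+* Eω} (hb : (ι.comp C).comp a = b) (hbω : lU.comp b = bω) (hc' : ε.comp b = c)
    (hcω : lE.comp c = cω) (hcω' : εω.comp bω = cω) (α : P.obj bω) (β : P.obj c)
    (h : P.map εω hcω' α = P.map lE hcω β) : ∃ x : P.obj b, P.map lU hbω x = α := by
  rcases subsingleton_or_nontrivial Uω with hsub | hnt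
  · exact ⟨0, by rw [P.eq_zero_of_subsingleton α, map_zero]⟩
  have hntU : Nontrivial U := lU.domain_nontrivial
  obtain ⟨p, Q, e, N, f, E0, _, l, j, hp, hp0, hl, -, hj, hjl, hgQ, hQe, hωe, hN, hQN, hnorm⟩ :=
    curve_chart hω hc hι hε
  obtain ⟨hU, hhU⟩ : ∃ hU : F[X] →+* U[X], hU = mapRingHom (ι.comp C) := ⟨_, rfl⟩
  obtain ⟨σ, P', D, hn, hP', hQ1, hωσ, hgn, hωn, hgP, hωP⟩ :=
    A2_data hω.ne_zero hc hι.isUnit hhU hp hp0 hgQ hQe hωe hN hQN (hnorm U[X] hU)
  have hp1 : (p.map hU).Monic := hp.map hU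
  have hUC : ∀ r : F, hU (C r) = C (ι (C r)) := fun r => by rw [hhU]; simp
  have hev : ∀ y, (hU y).eval (ι X) = ι y := by
    intro y
    have h1 : (evalRingHom (ι X)).comp hU = ι := by
      rw [hhU]
      apply Polynomial.ringHom_ext
      · intro r
        simp
      · simp
    exact RingHom.congr_fun h1 y
  have hdv : ∀ y, X - C (ι X) ∣ hU y - C (ι y) := fun y => by
    rw [← hev y]
    exact X_sub_C_dvd_sub_C_eval
  have hlι : IsAway (lU.comp ι) (g * ω) := hι.comp hlU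
  have hbi : IndEP b := by
    rw [← hb]
    exact ha.comp_et1 (et1_of_etale hι.etale)
  have hbωi : IndEP bω := by
    rw [← hbω]
    exact hbi.comp_etale hlU.etale
  have eb : ∀ k, b k = ι (C (a k)) := fun k => (RingHom.congr_fun hb k).symm
  have ebω : ∀ k, bω k = lU (b k) := fun k => (RingHom.congr_fun hbω k).symm
  have ec : ∀ k, c k = ε (b k) := fun k => (RingHom.congr_fun hc' k).symm
  have ecω : ∀ k, cω k = lE (c k) := fun k => (RingHom.congr_fun hcω k).symm
  have ej : ∀ y, j (AdjoinRoot.of p y) = l (ε (ι y)) := fun y => RingHom.congr_fun hjl y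
  have ew : ∀ y, εω (lU y) = lE (ε y) := fun y => RingHom.congr_fun w y
  obtain ⟨XU, _, j1, hj1⟩ := exists_isAway (amap hU p Q)
  obtain ⟨gU, hgU⟩ := hj.exists_lift (j1.comp (amap hU p)) hj1.isUnit
  have egU : ∀ y, gU (j y) = j1 (amap hU p y) := fun y => RingHom.congr_fun hgU y
  have hpoU : IsPO (j.comp (AdjoinRoot.of p)) hU gU (j1.comp (AdjoinRoot.of (p.map hU))) :=
    (isPO_adjoinRoot hU p).paste' (hj.isPO hj1 hgU)
  have hetU : (j1.comp (AdjoinRoot.of (p.map hU))).Etale := by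
    apply hpoU.etale
    rw [hjl]
    exact etale_comp (etale_comp hι.etale hε.etale) hl.etale
  have hQσ : IsCoprime (amap hU p Q) σ := A2_cop_one (c := 1) (by rwa [one_mul])
  have hA1 : Adm b ((j1.comp (AdjoinRoot.of (p.map hU))).comp C)
      (j1 (AdjoinRoot.of (p.map hU) X)) (j1 σ) := A2_adm_root hbi hp1 hj1 hetU hQσ hn.monic
  have hβX : (gU.comp l).comp c = ((j1.comp (AdjoinRoot.of (p.map hU))).comp C).comp b := by
    refine RingHom.ext fun k => ?_
    simp only [RingHom.comp_apply]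
    rw [ec, eb, ← ej, egU, amap_of, hUC]
  obtain ⟨ZU, _, zU, hzU⟩ := exists_isAway (hU (g * ω))
  obtain ⟨νU, hνU⟩ := hlι.exists_lift (zU.comp hU) hzU.isUnit
  have eνU : ∀ y, νU (lU (ι y)) = zU (hU y) := fun y => RingHom.congr_fun hνU y
  have hA2 : Adm b (zU.comp C) (zU X) (zU P') := by
    apply A2_adm_poly hbi hzU hP'.monic
    rw [map_mul]
    exact (A2_cop_one hgP).mul_left (A2_cop_one (c := 1) (by rwa [one_mul]))
  have hαZ : νU.comp bω = (zU.comp C).comp b := by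
    refine RingHom.ext fun k => ?_
    simp only [RingHom.comp_apply]
    rw [ebω, eb, eνU, hUC]
  refine ⟨P.tr ((j1.comp (AdjoinRoot.of (p.map hU))).comp C) rfl (j1 (AdjoinRoot.of (p.map hU) X))
    (j1 σ) (P.map (gU.comp l) hβX β) - P.tr (zU.comp C) rfl (zU X) (zU P') (P.map νU hαZ α), ?_⟩
  obtain ⟨Y0, _, z, hz⟩ := exists_isAway (mapRingHom lU (hU (g * ω)))
  obtain ⟨t, ht⟩ : ∃ t : U[X] →+* Y0, t = z.comp (mapRingHom lU) := ⟨_, rfl⟩
  have et : ∀ y, t y = z (y.map lU) := fun y => by rw [ht]; rfl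
  have hta : IsAway t (C (ι ω) * hU (g * ω)) := by
    rw [ht]
    exact hlU.polynomial.comp hz
  have htu : IsUnit (t (hU (g * ω))) := by
    rw [et]
    exact hz.isUnit
  obtain ⟨t', ht'⟩ := hzU.exists_lift t htu
  have et' : ∀ y, t' (zU y) = t y := fun y => RingHom.congr_fun ht' y
  have hpoZ : IsPO (zU.comp C) lU t' (z.comp C) :=
    (isPO_polynomial lU).paste' (hzU.isPO hz (ht'.trans ht))
  have hb0 : t'.comp ((zU.comp C).comp b) = (z.comp C).comp bω := by
    refine RingHom.ext fun k => ?_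
    simp only [RingHom.comp_apply]
    rw [et', et, map_C, ebω]
  have hν : (t'.comp νU).comp bω = (z.comp C).comp bω := by
    rw [RingHom.comp_assoc, hαZ, hb0]
  have hS2 : P.map lU hbω (P.tr (zU.comp C) rfl (zU X) (zU P') (P.map νU hαZ α)) =
      P.tr (z.comp C) rfl (z X) (z (P'.map lU)) (P.map (t'.comp νU) hν α) := by
    rw [← P.tr_baseChange rfl rfl hbω hb0 (u' := z X) (σ' := z (P'.map lU))
      (by rw [et', et, map_X]) (by rw [et', et]) hA2 hbωi hpoZ,
      P.map_map νU t' (t'.comp νU) hαZ hb0 hν rfl]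
  obtain ⟨Y, _, j0, hj0⟩ := exists_isAway (amap t (p.map hU) (amap hU p Q))
  obtain ⟨G, hG⟩ := hj1.exists_lift (j0.comp (amap t (p.map hU))) hj0.isUnit
  have eG : ∀ y, G (j1 y) = j0 (amap t (p.map hU) y) := fun y => RingHom.congr_fun hG y
  have hpoY : IsPO (j1.comp (AdjoinRoot.of (p.map hU))) t G
      (j0.comp (AdjoinRoot.of ((p.map hU).map t))) :=
    (isPO_adjoinRoot t (p.map hU)).paste' (hj1.isPO hj0 hG)
  have hGa : IsAway G (((j1.comp (AdjoinRoot.of (p.map hU))).comp C) (ι ω) *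
      j1 (AdjoinRoot.of (p.map hU) (hU (g * ω)))) := by
    have h1 := hpoY.flip.isAway hta
    rw [map_mul] at h1
    exact h1
  have hsq : G.comp ((j1.comp (AdjoinRoot.of (p.map hU))).comp C) =
      ((j0.comp (AdjoinRoot.of ((p.map hU).map t))).comp (z.comp C)).comp lU := by
    refine RingHom.ext fun y => ?_
    simp only [RingHom.comp_apply]
    rw [eG, amap_of, et, map_C]
  have hbY : G.comp (((j1.comp (AdjoinRoot.of (p.map hU))).comp C).comp b) =
      (j0.comp (AdjoinRoot.of ((p.map hU).map t))).comp ((z.comp C).comp bω) := by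
    rw [← RingHom.comp_assoc, hsq, RingHom.comp_assoc, hbω, RingHom.comp_assoc]
  have hbY' : ((j0.comp (AdjoinRoot.of ((p.map hU).map t))).comp (z.comp C)).comp bω =
      (j0.comp (AdjoinRoot.of ((p.map hU).map t))).comp ((z.comp C).comp bω) :=
    RingHom.comp_assoc _ _ _
  obtain ⟨hA3, hS1⟩ := A2_step P rfl hbY' hbω hbY
    (u' := j0 (AdjoinRoot.of ((p.map hU).map t) (z X))) (σ' := j0 (amap t (p.map hU) σ))
    (by rw [eG, amap_of, et, map_X]) (eG σ) hA1 hlU hGa hsq (by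
      intro Z _ k hk
      rw [map_mul, map_mul, map_mul, map_mul]
      apply IsCoprime.mul_left
      · have h1 := map_dvd (amap hU p) hgQ
        rw [amap_of] at h1
        have h2 : IsUnit (k (j1 (AdjoinRoot.of (p.map hU) (hU g)))) :=
          (isUnit_of_dvd_unit (map_dvd j1 h1) hj1.isUnit).map k
        obtain ⟨v, hv⟩ := h2.exists_left_inv
        exact ⟨v, 0, by rw [hv, zero_mul, add_zero]⟩
      · refine A2_cop (x := k (j1 (AdjoinRoot.of (p.map hU) (X - C (ι X))))) ?_ hk ?_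
        · have h1 := map_dvd k (map_dvd j1 (map_dvd (AdjoinRoot.of (p.map hU)) (hdv ω)))
          rw [map_sub _ (hU ω), map_sub j1 (AdjoinRoot.of (p.map hU) (hU ω)),
            map_sub k (j1 (AdjoinRoot.of (p.map hU) (hU ω)))] at h1
          exact h1
        · have h1 := map_dvd j1 hωσ
          rw [map_mul, hj1.isUnit.dvd_mul_right, map_sub j1 σ] at h1
          have h2 := map_dvd k h1
          rwa [map_sub k (j1 σ)] at h2)
  have hμu : IsUnit ((G.comp (gU.comp l)) (ε (ι ω))) := by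
    simp only [RingHom.comp_apply]
    rw [← ej, egU, amap_of, eG, amap_of]
    rw [map_mul, map_mul] at htu
    exact ((isUnit_of_mul_isUnit_right htu).map _).map j0
  obtain ⟨μ, hμ⟩ := hlE.exists_lift (G.comp (gU.comp l)) hμu
  have eμ : ∀ y, μ (lE y) = G (gU (l y)) := fun y => RingHom.congr_fun hμ y
  have hμε : μ.comp εω = (j0.comp (AdjoinRoot.of ((p.map hU).map t))).comp (t'.comp νU) := by
    apply hlι.hom_ext
    refine RingHom.ext fun y => ?_
    simp only [RingHom.comp_apply]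
    rw [ew, eμ, ← ej, egU, amap_of, eG, amap_of, eνU, et']
  have hμc : μ.comp cω = (j0.comp (AdjoinRoot.of ((p.map hU).map t))).comp ((z.comp C).comp bω) := by
    rw [← hcω, ← RingHom.comp_assoc, hμ, RingHom.comp_assoc, hβX, hbY]
  have hαβ : P.map G hbY (P.map (gU.comp l) hβX β) =
      P.map (j0.comp (AdjoinRoot.of ((p.map hU).map t))) rfl (P.map (t'.comp νU) hν α) := by
    rw [P.map_square (gU.comp l) G lE μ hβX hbY hcω hμc hμ.symm β, ← h,
      P.map_square εω μ (t'.comp νU) _ hcω' hμc hν rfl hμε α]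
  have hn' : ((Algebra.norm U[X] σ).map lU).IsMonicOfDegree (1 + D) := A2_map_deg lU hn
  have hcn : IsCoprime (mapRingHom lU (hU (g * ω))) ((Algebra.norm U[X] σ).map lU) := by
    rw [map_mul, map_mul]
    apply IsCoprime.mul_left
    · exact (A2_cop_one (c := 1) (s := Algebra.norm U[X] σ) (by rwa [one_mul])).map (mapRingHom lU)
    · refine A2_cop (x := mapRingHom lU (X - C (ι X))) (w' := mapRingHom lU (C (ι ω))) ?_
        hlU.polynomial.isUnit ?_
      · rw [← map_sub]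
        exact map_dvd (mapRingHom lU) (hdv ω)
      · have h1 := map_dvd (mapRingHom lU) hωn
        rwa [map_sub (mapRingHom lU) (Algebra.norm U[X] σ)] at h1
  have hnt : Algebra.norm Y0 (amap t (p.map hU) σ) = z ((Algebra.norm U[X] σ).map lU) := by
    rw [norm_amap t hp1, et]
  have hA4 : Adm bω (z.comp C) (z X) (Algebra.norm Y0 (amap t (p.map hU) σ)) := by
    rw [hnt]
    exact A2_adm_poly hbωi hz hn'.monic hcn
  have hS3 := P.tr_push (z.comp C) ((p.map hU).map t) (amap t (p.map hU) (amap hU p Q))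
    (amap t (p.map hU) σ) j0 rfl rfl hbY' (hp1.map t) hj0 (hQσ.symm.map _) hA4 hA3
    (P.map (t'.comp νU) hν α)
  have hev' : ∀ y : U[X], (y.map lU).eval (lU (ι X)) = lU (y.eval (ι X)) := fun y => by
    rw [eval_map, eval₂_at_apply]
  obtain ⟨s, hs⟩ := hz.exists_lift (evalRingHom (lU (ι X))) (by
    change IsUnit (((hU (g * ω)).map lU).eval (lU (ι X)))
    rw [hev', hev]
    exact hlι.isUnit)
  have es : ∀ y, s (z y) = y.eval (lU (ι X)) := fun y => RingHom.congr_fun hs y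
  have hsb : s.comp ((z.comp C).comp bω) = bω := by
    refine RingHom.ext fun k => ?_
    simp only [RingHom.comp_apply]
    rw [es, eval_C]
  have hsν : s.comp (t'.comp νU) = RingHom.id Uω := by
    apply hlι.hom_ext
    refine RingHom.ext fun y => ?_
    simp only [RingHom.comp_apply, RingHom.id_apply]
    rw [eνU, et', et, es, hev', hev]
  have hdd : mapRingHom lU (hU (g * ω)) ∣
      (X - C (lU (ι X))) * P'.map lU - (Algebra.norm U[X] σ).map lU := by
    have h1 : hU (g * ω) ∣ (X - C (ι X)) * P' - Algebra.norm U[X] σ := by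
      rw [map_mul]
      apply (hc.map hU).mul_dvd
      · refine (dvd_sub hgP hgn).trans (dvd_of_eq ?_)
        ring
      · refine (dvd_sub (Dvd.dvd.mul_left hωP (X - C (ι X))) hωn).trans (dvd_of_eq ?_)
        ring
    have h2 := map_dvd (mapRingHom lU) h1
    refine h2.trans (dvd_of_eq ?_)
    simp
  have hS4 := A2_line P hbωi hz rfl hn' (A2_map_deg lU hP') hcn hdd hs hsb
    (P.map (t'.comp νU) hν α)
  rw [map_sub, hS2, ← hS1, hαβ, hS3, hnt, hS4, P.map_retract (t'.comp νU) s hν hsb hsν α,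
    add_sub_cancel_right]

end KEW
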