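import Pool.Agent.P.MP_6277db_ag.KEW.PT.Api
import Pool.Agent.P.MP_6277db_ag.KEW.CA.Chart

/-!
KEW L5.3 (a3), (a0): splitting and injectivity along an elementary square of curves.
Hints (symbols as in A2.lean).  `a3`: take `f`, `E0` from `curve_chart`.  `α = tr_σ z` over the base `Uω` on `X[1/ω]`
(`vb_of_lead` with `Q ω`).  Over `R = E0` let `Δ : Et_R → R` be the diagonal (`root ↦ j root`, `X ↦ τ`), `I = ker Δ`.  `Q` is a unit mod `I`, so
`c Q ≡ 1` mod `I^2`; `e1 = e + (1 - e) Q c`, `σ1 = 1 + e1 (u - τ - 1) + (X - τ)^2 X^(M-2) N ω`.  Then `σ1 ≡ u - τ` mod `I^2`,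
`σ1 - σ ∈ (Q) ∩ (ω)`, same leading term, so over `R[1/ω]` `tr σ = tr σ1` on `X[1/ω]` (`vb_of_lead`, `htpy`).  On `Y = X_R` the ideal
`ker Δ` satisfies `ker Δ = (σ1) + (ker Δ)^2` (`sec_loc`), so it is `(σ1, h)` with `h (1 - h) ∈ (σ1)`
(`Ideal.isIdempotentElem_iff_of_fg` in `Y/σ1`), and `h ∈ (σ1, ω)` since `Y/(u - τ, ω) = R/ω(τ)`.  So `ω` is prime to `σ1` on `Y[1/h]` and
`β' = tr_σ1 z` on `Y[1/(h ω)]` is defined over `R`; `tr_split` over `R[1/ω]` gives `α = β' + z`; `β = -β'`.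
`a0`: localise (`exists_ee_of_section`) so that `E ∈ EE(F[X], X)`, chart with `g = 1`, `ω = X`, base ring `F` itself;
`σa = 1 + L`, `σb = 1 + e (2 - e) (u - 1) + L`, `L = X^(M+2) N`; in `E0`, `1 - e ∈ (u)`, so `σb = u (1 + u y)`;
`tr σa = 0 = tr (1 + u y)` by `tr_away`, `tr u = e^*` by `tr_section`.
-/

namespace KEW

universe u v

open Polynomial

variable {κ F U Uω E Eω : Type u} [CommRing κ] [Field F] [CommRing U] [CommRing Uω] [CommRing E]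
  [CommRing Eω] {m : ℕ}

section Aux

variable {A B R R' Y Y' Y1 Y1' S T k : Type u} [CommRing A] [CommRing B] [CommRing R] [CommRing R']
  [CommRing Y] [CommRing Y'] [CommRing Y1] [CommRing Y1'] [CommRing S] [CommRing T] [CommRing k]

theorem A3_away_po {φ : R →+* Y} {f : R →+* R'} {g : Y →+* Y'} {φ' : R' →+* Y'}
    (h : IsPO φ f g φ') {l : Y →+* Y1} {l' : Y' →+* Y1'} {r : Y} (hl : IsAway l r)
    (hl' : IsAway l' (g r)) :
    ∃ g1 : Y1 →+* Y1', g1.comp l = l'.comp g ∧ IsPO (l.comp φ) f g1 (l'.comp φ') := by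
  obtain ⟨g1, hg1⟩ := hl.exists_lift (l'.comp g) hl'.isUnit
  exact ⟨g1, hg1, h.paste' (hl.isPO hl' hg1)⟩

theorem A3_eval₂ (θ : k[X] →+* T) : Polynomial.eval₂RingHom (θ.comp C) (θ X) = θ := by
  apply Polynomial.ringHom_ext <;> simp

theorem A3_sub_dvd {θ1 θ2 : k[X] →+* T} (h : θ1.comp C = θ2.comp C) (x : k[X]) :
    θ1 X - θ2 X ∣ θ1 x - θ2 x := by
  induction x using Polynomial.induction_on' with
  | add p q hp hq =>
    have : θ1 (p + q) - θ2 (p + q) = (θ1 p - θ2 p) + (θ1 q - θ2 q) := by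
      rw [map_add, map_add]; ring
    rw [this]
    exact dvd_add hp hq
  | monomial n a =>
    have h1 : θ1 (C a) = θ2 (C a) := RingHom.congr_fun h a
    rw [← C_mul_X_pow_eq_monomial, map_mul, map_mul, map_pow, map_pow, h1, ← mul_sub]
    exact (sub_dvd_pow_sub_pow _ _ n).mul_left _

/-- The equation of the transfer. -/
def A3_sig (u τ e Q N c : A) (M : ℕ) : A :=
  (u - τ) + (1 - (u - τ)) * (1 - e) * (1 - c * Q) ^ 2 + (u - τ) ^ 2 * (u ^ M * N)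

theorem A3_map_sig (f : A →+* B) (u τ e Q N c : A) (M : ℕ) :
    f (A3_sig u τ e Q N c M) = A3_sig (f u) (f τ) (f e) (f Q) (f N) (f c) M := by
  simp [A3_sig]

theorem A3_coprime_Q {u τ e Q N c : A} (M : ℕ) (h1 : Q ∣ e) (h2 : Q ∣ N) :
    IsCoprime (A3_sig u τ e Q N c M) Q := by
  obtain ⟨a, rfl⟩ := h1
  obtain ⟨b, rfl⟩ := h2
  refine ⟨1, (1 - (u - τ)) * (a * (1 - c * Q) ^ 2 + c * (2 - c * Q)) - (u - τ) ^ 2 * (u ^ M * b), ?_⟩
  unfold A3_sig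
  ring

theorem A3_coprime_om {u τ e Q N ω ω' : A} (M : ℕ) (h1 : Q ∣ e) (h2 : ω ∣ (1 - e) * Q) (h3 : ω ∣ N)
    (h4 : u - τ ∣ ω - ω') (h5 : IsUnit ω') : IsCoprime (A3_sig u τ e Q N 0 M) ω := by
  set σ := A3_sig u τ e Q N 0 M with hσ
  have hs : σ ∈ Ideal.span {σ, ω} := Ideal.subset_span (by simp)
  have hw : ω ∈ Ideal.span {σ, ω} := Ideal.subset_span (by simp)
  have hd : ∀ x, ω ∣ x → x ∈ Ideal.span {σ, ω} := by
    rintro x ⟨y, rfl⟩
    exact Ideal.mul_mem_right _ _ hw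
  have e1 : (1 - e) * e ∈ Ideal.span {σ, ω} := by
    obtain ⟨a, ha⟩ := h1
    refine hd _ ?_
    have : (1 - e) * e = (1 - e) * Q * a := by rw [mul_assoc, ← ha]
    rw [this]
    exact h2.mul_right a
  have e0 := hd _ h3
  have e2 : 1 - e ∈ Ideal.span {σ, ω} := by
    have : 1 - e = (1 - e) * σ + (1 - (u - τ)) * ((1 - e) * e)
        - (1 - e) * (u - τ) ^ 2 * u ^ M * N := by
      rw [hσ]; unfold A3_sig; ring
    rw [this]
    exact sub_mem (add_mem (Ideal.mul_mem_left _ _ hs) (Ideal.mul_mem_left _ _ e1))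
      (Ideal.mul_mem_left _ _ e0)
  have e3 : u - τ ∈ Ideal.span {σ, ω} := by
    have : u - τ = σ - (1 - (u - τ)) * (1 - e) - (u - τ) ^ 2 * u ^ M * N := by
      rw [hσ]; unfold A3_sig; ring
    rw [this]
    exact sub_mem (sub_mem hs (Ideal.mul_mem_left _ _ e2)) (Ideal.mul_mem_left _ _ e0)
  have e4 : ω' ∈ Ideal.span {σ, ω} := by
    obtain ⟨y, hy⟩ := h4
    have : ω' = ω - (u - τ) * y := by rw [← hy]; ring
    rw [this]
    exact sub_mem hw (Ideal.mul_mem_right _ _ e3)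
  obtain ⟨v, hv⟩ := h5.exists_left_inv
  have e5 : (1 : A) ∈ Ideal.span {σ, ω} := hv ▸ Ideal.mul_mem_left _ v e4
  exact Ideal.mem_span_pair.1 e5

theorem A3_rad {u τ e Q N c ω : A} (M : ℕ) (h2 : ω ∣ (1 - e) * Q) :
    A3_sig u τ e Q N c M - A3_sig u τ e Q N 0 M ∈ (Ideal.span {Q * ω}).radical := by
  refine ⟨2, Ideal.mem_span_singleton.2 ?_⟩
  have : A3_sig u τ e Q N c M - A3_sig u τ e Q N 0 M
      = (1 - e) * Q * ((1 - (u - τ)) * c * (c * Q - 2)) := by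
    unfold A3_sig; ring
  rw [this, pow_two]
  exact mul_dvd_mul (((dvd_refl Q).mul_left _).mul_right _) (h2.mul_right _)

theorem A3_lead_mul {φ : R →+* A} {u y z : A} {d d' : ℕ} (h : DegLT φ u (y - u ^ d) d)
    (h' : DegLT φ u (z - u ^ d') d') : DegLT φ u (y * z - u ^ (d + d')) (d + d') := by
  have h1 : y * z - u ^ (d + d') = (y - u ^ d) * (z - u ^ d') + u ^ d * (z - u ^ d')
      + u ^ d' * (y - u ^ d) := by ring
  rw [h1]
  refine ((h.mul h').add (h'.pow_mul d)).add ?_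
  rw [add_comm d d']
  exact h.pow_mul d'

theorem A3_integral {θ : k[X] →+* T} (hint : θ.IsIntegral) {s : k →+* S} {i : T →+* A}
    {φ : S →+* A} (h : IsPO (θ.comp C) s i φ) :
    (Polynomial.eval₂RingHom φ (i (θ X))).IsIntegral := by
  refine (h.eval₂ (θ X)).isIntegral ?_
  rw [A3_eval₂]
  exact hint

theorem A3_lead {θ : k[X] →+* T} (hint : θ.IsIntegral) {s : k →+* S} {i : T →+* A}
    {φ : S →+* A} (h : IsPO (θ.comp C) s i φ) {N : k[X]} (hN : N.Monic) (τ : S) (e Q c : A) :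
    ∃ M0 : ℕ, ∀ M, M0 ≤ M → DegLT φ (i (θ X))
      (A3_sig (i (θ X)) (φ τ) e Q (i (θ N)) c M - i (θ X) ^ (1 + 1 + (M + N.natDegree)))
      (1 + 1 + (M + N.natDegree)) := by
  obtain ⟨d, hd⟩ := DegLT.exists_of_integral (A3_integral hint h
    ((i (θ X) - φ τ) + (1 - (i (θ X) - φ τ)) * (1 - e) * (1 - c * Q) ^ 2))
  refine ⟨d, fun M hM => ?_⟩
  have h1 : DegLT φ (i (θ X)) (i (θ N) - i (θ X) ^ N.natDegree) N.natDegree := by
    have h2 := (degLT_of_isMonicOfDegree (θ.comp C) (θ X) (q := N) ⟨rfl, hN⟩).map h.comm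
    have h3 : N.eval₂ (θ.comp C) (θ X) = θ N := RingHom.congr_fun (A3_eval₂ θ) N
    rwa [h3, map_sub, map_pow] at h2
  have h2 : DegLT φ (i (θ X)) (i (θ X) ^ M - i (θ X) ^ M) M := by
    rw [sub_self]; exact degLT_zero _ _ _
  have h3 : DegLT φ (i (θ X)) ((i (θ X) - φ τ) - i (θ X) ^ 1) 1 := by
    have h4 := degLT_eval₂ φ (i (θ X)) (p := C (-τ)) (d := 1)
      (lt_of_le_of_lt degree_C_le (by norm_num))
    rw [eval₂_C, map_neg] at h4
    convert h4 using 1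
    ring
  have h5 := (hd.mono (d' := 1 + 1 + (M + N.natDegree)) (by omega)).add
    (A3_lead_mul (A3_lead_mul h3 h3) (A3_lead_mul h2 h1))
  convert h5 using 1
  unfold A3_sig
  ring

/-- The idempotent which cuts out the diagonal. -/
theorem A3_idem {Δ : Y →+* R} {w t a b e' : Y} (h1 : Δ e' = 1) (h2 : ∀ y, Δ y = 0 → w ∣ e' * y)
    (hw : Δ w = 0) (ht : Δ t = 0) :
    ∃ h : Y, Δ h = 0 ∧ ∀ y, Δ y = 0 → w + a * t ^ 2 + w ^ 2 * b ∣ (1 - h) * y := by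
  obtain ⟨c, hc⟩ := h2 t ht
  refine ⟨1 - (e' ^ 2 + w * (a * c ^ 2 + e' ^ 2 * b)) * e', by simp [h1, hw], fun y hy => ?_⟩
  obtain ⟨d, hd⟩ := h2 y hy
  refine ⟨e' ^ 2 * d, ?_⟩
  linear_combination (e' ^ 2 + w * (a * c ^ 2 + e' ^ 2 * b)) * hd
    - a * d * (e' * t + w * c) * hc

theorem A3_ker {n : Y' →+* Y1} {r : Y'} (hn : IsAway n r) {g : Y →+* Y'} {Δ : Y →+* R}
    {Δ' : Y' →+* R'} (hk : RingHom.ker Δ' = (RingHom.ker Δ).map g) {s : Y1 →+* R'}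
    (hs : s.comp n = Δ') {σ h : Y} (h0 : Δ σ = 0) (h1 : ∀ y, Δ y = 0 → σ ∣ (1 - h) * y)
    (hu : IsUnit (n (g (1 - h)))) : RingHom.ker s = Ideal.span {n (g σ)} := by
  apply le_antisymm
  · intro z hz
    obtain ⟨x, q, hx⟩ := hn.surj z
    have hx0 : x ∈ RingHom.ker Δ' := by
      rw [RingHom.mem_ker] at hz ⊢
      rw [← hs, RingHom.comp_apply, ← hx, map_mul, hz, zero_mul]
    have hle : (RingHom.ker Δ).map g ≤ (Ideal.span {n (g σ)}).comap n := by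
      rw [Ideal.map_le_iff_le_comap]
      intro y hy
      have h2 := map_dvd n (map_dvd g (h1 y hy))
      rw [map_mul, map_mul] at h2
      exact Ideal.mem_span_singleton.2 (hu.dvd_mul_left.1 h2)
    rw [hk] at hx0
    have h3 : n x ∈ Ideal.span {n (g σ)} := hle hx0
    rw [← hx, Ideal.mem_span_singleton] at h3
    exact Ideal.mem_span_singleton.2 ((hn.isUnit.pow q).dvd_mul_right.1 h3)
  · rw [Ideal.span_le, Set.singleton_subset_iff]
    have h2 : g σ ∈ RingHom.ker Δ' := by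
      rw [hk]; exact Ideal.mem_map_of_mem g h0
    change s (n (g σ)) = 0
    rw [← RingHom.comp_apply s n, hs]
    exact h2

/-- The kernel of the diagonal lies in the ideal of `u - τ` and `ω`. -/
theorem A3_diag {ρ : k[X] →+* R} {ω : k[X]} (hsurj : ∀ y : R, ∃ x, ρ ω ∣ y - ρ x) {ζ φ : R →+* Y}
    (h : IsPO (ρ.comp C) (ρ.comp C) ζ φ) {Δ : Y →+* R} (h1 : Δ.comp ζ = RingHom.id R)
    (h2 : Δ.comp φ = RingHom.id R) {J : Ideal Y} (hw : ζ (ρ X) - φ (ρ X) ∈ J) (hω : ζ (ρ ω) ∈ J)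
    {y : Y} (hy : Δ y = 0) : y ∈ J := by
  have hp : ∀ x, ζ (ρ x) - φ (ρ x) ∈ J := fun x => by
    obtain ⟨c, hc⟩ := A3_sub_dvd (θ1 := ζ.comp ρ) (θ2 := φ.comp ρ) h.comm x
    simp only [RingHom.comp_apply] at hc
    rw [hc]
    exact Ideal.mul_mem_right _ _ hw
  have hω' : φ (ρ ω) ∈ J := by
    have := sub_mem hω (hp ω)
    rwa [sub_sub_cancel] at this
  have hr : ∀ r, ζ r - φ r ∈ J := fun r => by
    obtain ⟨x, c, hc⟩ := hsurj r
    have h3 : r = ρ x + ρ ω * c := by rw [← hc]; ring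
    have h4 : ζ r - φ r = (ζ (ρ x) - φ (ρ x)) + ζ (ρ ω) * ζ c - φ (ρ ω) * φ c := by
      rw [h3]; simp only [map_add, map_mul]; ring
    rw [h4]
    exact sub_mem (add_mem (hp x) (Ideal.mul_mem_right _ _ hω)) (Ideal.mul_mem_right _ _ hω')
  have key : ∀ p : Y, p - φ (Δ p) ∈ J := fun p => by
    refine h.induction (q := fun p => p - φ (Δ p) ∈ J) (by simp) (fun s t => ?_)
      (fun x y hx hy => ?_) p
    · have e1 : Δ (ζ s) = s := RingHom.congr_fun h1 s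
      have e2 : Δ (φ t) = t := RingHom.congr_fun h2 t
      rw [map_mul, e1, e2, map_mul, ← sub_mul]
      exact Ideal.mul_mem_right _ _ (hr s)
    · have : x + y - φ (Δ (x + y)) = (x - φ (Δ x)) + (y - φ (Δ y)) := by
        rw [map_add, map_add]; ring
      rw [this]
      exact add_mem hx hy
  have := key y
  rwa [hy, map_zero, sub_zero] at this

/-- The splitting of the zero locus of the modified equation on the product of the curve with
itself. -/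
theorem A3_split {ρ : k[X] →+* R} {ω : k[X]} (het : ρ.Etale) (hsurj : ∀ y : R, ∃ x, ρ ω ∣ y - ρ x)
    {ζ φ : R →+* Y} (h : IsPO (ρ.comp C) (ρ.comp C) ζ φ) {e Q N q : R} (hq : q * Q = 1)
    (hωe : ρ ω ∣ (1 - e) * Q) (hωN : ρ ω ∣ N) (M : ℕ) :
    ∃ (Δ : Y →+* R) (η : Y), Δ.comp ζ = RingHom.id R ∧ Δ.comp φ = RingHom.id R ∧ Δ η = 0 ∧
      Δ (A3_sig (ζ (ρ X)) (φ (ρ X)) (ζ e) (ζ Q) (ζ N) (φ q) M) = 0 ∧
      (∀ y, Δ y = 0 → A3_sig (ζ (ρ X)) (φ (ρ X)) (ζ e) (ζ Q) (ζ N) (φ q) M ∣ (1 - η) * y) ∧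
      η ∈ Ideal.span {ζ (ρ ω), A3_sig (ζ (ρ X)) (φ (ρ X)) (ζ e) (ζ Q) (ζ N) (φ q) M} := by
  obtain ⟨Δ, h1, h2⟩ := h.exists_lift (RingHom.id R) (RingHom.id R) rfl
  have e1 : ∀ r, Δ (ζ r) = r := RingHom.congr_fun h1
  have e2 : ∀ r, Δ (φ r) = r := RingHom.congr_fun h2
  have hE : Et1 φ (ζ (ρ X)) := h.et1 (et1_of_etale het)
  obtain ⟨e', he1, he2⟩ := sec_loc (π := Polynomial.evalRingHom (ρ X)) hE
    (fun r => ⟨C r, by simp⟩) Δ (by apply Polynomial.ringHom_ext <;> simp [e1, e2])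
  have hw : Δ (ζ (ρ X) - φ (ρ X)) = 0 := by rw [map_sub, e1, e2, sub_self]
  have ht : Δ (1 - φ q * ζ Q) = 0 := by rw [map_sub, map_mul, e1, e2, hq, map_one, sub_self]
  have he3 : ∀ y, Δ y = 0 → ζ (ρ X) - φ (ρ X) ∣ e' * y := fun y hy => by
    have h3 := he2 y hy
    rw [Polynomial.ker_evalRingHom, Ideal.map_span, Set.image_singleton,
      Ideal.mem_span_singleton] at h3
    simpa using h3
  obtain ⟨η, h3, h4⟩ := A3_idem (a := (1 - (ζ (ρ X) - φ (ρ X))) * (1 - ζ e))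
    (b := ζ (ρ X) ^ M * ζ N) he1 he3 hw ht
  refine ⟨Δ, η, h1, h2, h3, ?_, h4, ?_⟩
  · unfold A3_sig
    rw [map_add, map_add, map_mul, map_mul _ (_ ^ 2), map_pow, map_pow, hw, ht]
    ring
  · set σ := A3_sig (ζ (ρ X)) (φ (ρ X)) (ζ e) (ζ Q) (ζ N) (φ q) M with hσ
    have hs : σ ∈ Ideal.span {ζ (ρ ω), σ} := Ideal.subset_span (by simp)
    have ho : ζ (ρ ω) ∈ Ideal.span {ζ (ρ ω), σ} := Ideal.subset_span (by simp)
    have hd : ∀ x, ρ ω ∣ x → ζ x ∈ Ideal.span {ζ (ρ ω), σ} := by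
      rintro x ⟨y, rfl⟩
      rw [map_mul]
      exact Ideal.mul_mem_right _ _ ho
    refine A3_diag hsurj h h1 h2 ?_ ho h3
    have e3 : 1 - ζ e ∈ Ideal.span {ζ (ρ ω), σ} := by
      have h5 : ρ ω ∣ 1 - e := by
        have : 1 - e = (1 - e) * Q * q := by rw [mul_assoc, mul_comm Q, hq, mul_one]
        rw [this]
        exact hωe.mul_right q
      simpa using hd _ h5
    have : ζ (ρ X) - φ (ρ X) = σ - (1 - (ζ (ρ X) - φ (ρ X))) * (1 - φ q * ζ Q) ^ 2 * (1 - ζ e)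
        - (ζ (ρ X) - φ (ρ X)) ^ 2 * ζ (ρ X) ^ M * ζ N := by
      rw [hσ]; unfold A3_sig; ring
    rw [this]
    exact sub_mem (sub_mem hs (Ideal.mul_mem_left _ _ e3)) (Ideal.mul_mem_left _ _ (hd _ hωN))

/-- The computation over `R' = R[1/ω]`: the transfer along the modified equation is the sum of the
class itself and a class defined over `R`. -/
theorem A3_tr_diag (P : PT.{u, v} κ m) {Z' : Type u} [CommRing Z'] {c1 : κ →+* R} {c2 : κ →+* R'}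
    {l2 : R →+* R'} (h2 : l2.comp c1 = c2) (i2 : IndEP c2) {o : R} (hl2 : IsAway l2 o)
    {ζ φ : R →+* Y} (hc : ζ.comp c1 = φ.comp c1) {u σ η : Y} (hA : Adm c1 φ u σ) {Δ : Y →+* R}
    (d1 : Δ.comp ζ = RingHom.id R) (d2 : Δ.comp φ = RingHom.id R) (d3 : Δ η = 0) (d4 : Δ σ = 0)
    (d5 : ∀ y, Δ y = 0 → σ ∣ (1 - η) * y) (d6 : η ∈ Ideal.span {ζ o, σ}) {g : Y →+* Y'}
    {φ' : R' →+* Y'} (hpo : IsPO φ l2 g φ') {lZ : Y' →+* Z'} (hlZ : IsAway lZ (g (ζ o)))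
    (hA' : Adm c2 (lZ.comp φ') (lZ (g u)) (lZ (g σ))) {ζ' : R' →+* Z'}
    (hζ' : ζ'.comp l2 = lZ.comp (g.comp ζ)) {b' : κ →+* Z'} (hb : (lZ.comp φ').comp c2 = b')
    (hb' : ζ'.comp c2 = b') (z : P.obj c2) :
    ∃ β : P.obj c1, P.tr (lZ.comp φ') hb (lZ (g u)) (lZ (g σ)) (P.map ζ' hb' z)
      = P.map l2 h2 β + z := by
  have hh : σ ∣ η * (1 - η) := by rw [mul_comm]; exact d5 η d3
  obtain ⟨Yh, _, lh, hlh⟩ := exists_isAway η
  obtain ⟨Yk, _, lk, hlk⟩ := exists_isAway (1 - η)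
  obtain ⟨B, _, lo, hlo⟩ := exists_isAway (lh (ζ o))
  obtain ⟨Z1, _, n1, hn1⟩ := exists_isAway (lZ (g η))
  obtain ⟨Z2, _, n2, hn2⟩ := exists_isAway (1 - lZ (g η))
  have hAh : Adm c1 (lh.comp φ) (lh u) (lh σ) :=
    (P.tr_split (b := φ.comp c1) (b1 := lh.comp (φ.comp c1)) (b2 := lk.comp (φ.comp c1))
      rfl rfl rfl rfl rfl hA hh hlh hlk).1
  have hAB : Adm c1 ((lo.comp lh).comp φ) (lo (lh u)) (lo (lh σ)) := by
    refine hAh.nb (hlo.ee ?_)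
    obtain ⟨x, y, hxy⟩ := Ideal.mem_span_pair.1 d6
    obtain ⟨w, hw⟩ := hlh.isUnit.exists_left_inv
    refine ⟨w * lh x, Ideal.mem_span_singleton.2 ⟨-(w * lh y), ?_⟩⟩
    rw [← hxy, map_add, map_mul, map_mul] at hw
    linear_combination hw
  obtain ⟨g2, hg2, hB⟩ := A3_away_po hpo (hlh.comp hlo) (l' := n1.comp lZ)
    (by rw [map_mul, mul_comm]; exact hlZ.comp hn1)
  obtain ⟨ζB, hζB⟩ := hl2.exists_lift ((lo.comp lh).comp ζ) hlo.isUnit
  have hζB' : ζB.comp c2 = ((lo.comp lh).comp φ).comp c1 := by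
    rw [← h2, ← RingHom.comp_assoc, hζB, RingHom.comp_assoc, hc]; rfl
  have hsq : g2.comp ζB = n1.comp ζ' := by
    refine hl2.hom_ext ?_
    rw [RingHom.comp_assoc l2 ζB, hζB, RingHom.comp_assoc l2 ζ', hζ', ← RingHom.comp_assoc ζ _ g2,
      hg2]
    rfl
  have hb1 : (n1.comp (lZ.comp φ')).comp c2 = n1.comp b' := by rw [← hb]; rfl
  have hb2 : (n2.comp (lZ.comp φ')).comp c2 = n2.comp b' := by rw [← hb]; rfl
  have hg2' : g2.comp (((lo.comp lh).comp φ).comp c1) = n1.comp b' := by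
    rw [← hζB', ← RingHom.comp_assoc, hsq, RingHom.comp_assoc, hb']
  have hh' : lZ (g σ) ∣ lZ (g η) * (1 - lZ (g η)) := by
    simpa using map_dvd lZ (map_dvd g hh)
  obtain ⟨-, hA2, hsplit⟩ := P.tr_split (b1 := n1.comp b') (b2 := n2.comp b') hb rfl rfl hb1 hb2
    hA' hh' hn1 hn2
  refine ⟨P.tr _ rfl (lo (lh u)) (lo (lh σ)) (P.map ζB hζB' z), ?_⟩
  rw [hsplit]
  congr 1
  · rw [P.map_square ζ' n1 ζB g2 hb' rfl hζB' hg2' hsq.symm z]
    exact P.tr_baseChange rfl hb1 h2 hg2' (RingHom.congr_fun hg2 u) (RingHom.congr_fun hg2 σ) hAB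
      i2 hB _
  · obtain ⟨Δ', e1, e2, e3⟩ := hpo.section d2
    have hn : IsAway (n2.comp lZ) (g (ζ o) * g (1 - η)) := by
      refine hlZ.comp ?_
      rwa [map_sub, map_one, map_sub, map_one]
    have e4 : ∀ y, Δ' (g y) = l2 (Δ y) := RingHom.congr_fun e2
    have e5 : ∀ r, Δ (ζ r) = r := RingHom.congr_fun d1
    obtain ⟨s, hs⟩ := hn.exists_lift Δ' (by
      rw [map_mul, e4, e4, e5, map_sub, d3, map_one, sub_zero, map_one, mul_one]
      exact hl2.isUnit)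
    have hs1 : s.comp (n2.comp (lZ.comp φ')) = RingHom.id R' := by rw [← e1, ← hs]; rfl
    have hs2 : s.comp (n2.comp b') = c2 := by
      rw [← hb2, ← RingHom.comp_assoc, hs1, RingHom.id_comp]
    have hk : RingHom.ker s = Ideal.span {n2 (lZ (g σ))} := A3_ker hn e3 hs d4 d5 (by
      have := hn.isUnit
      rw [map_mul] at this
      exact isUnit_of_mul_isUnit_right this)
    rw [P.tr_section hb2 i2 hA2.et s hs2 hs1 hk,
      P.map_map ζ' n2 (n2.comp ζ') hb' rfl (by rw [RingHom.comp_assoc, hb']) rfl]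
    refine P.map_retract _ s _ hs2 (hl2.hom_ext ?_) z
    ext r
    have e6 : ζ' (l2 r) = lZ (g (ζ r)) := RingHom.congr_fun hζ' r
    have e7 : s (n2 (lZ (g (ζ r)))) = Δ' (g (ζ r)) := RingHom.congr_fun hs _
    simp only [RingHom.comp_apply, RingHom.id_apply, e6, e7, e4, e5]

theorem A3_core (P : PT.{u, v} κ m) {V : Type u} [CommRing V] {a : κ →+* k} {θ : k[X] →+* T}
    (hint : θ.IsIntegral) {Q e : T} {ω N : k[X]} (hN : N.Monic) (hQe : Q ∣ e)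
    (hωe : θ ω ∣ (1 - e) * Q) (hQN : Q ∣ θ N) (hωN : ω ∣ N) {j : T →+* R} (hj : IsAway j Q)
    (het : (j.comp θ).Etale) (hsurj : ∀ y : R, ∃ x, j (θ ω) ∣ y - j (θ x)) {l2 : R →+* R'}
    (hl2 : IsAway l2 (j (θ ω))) {hV : k[X] →+* V} (hωV : IsUnit (hV ω)) {μ : V →+* R'}
    (hμ : μ.comp hV = l2.comp (j.comp θ)) {bV : κ →+* V} {c1 : κ →+* R} {c2 : κ →+* R'}
    (hbV : (hV.comp C).comp a = bV) (hc1 : ((j.comp θ).comp C).comp a = c1) (h2 : l2.comp c1 = c2)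
    (hμ' : μ.comp bV = c2) (iV : IndEP bV) (i1 : IndEP c1) (i2 : IndEP c2) (z : P.obj c2) :
    ∃ (α : P.obj bV) (β : P.obj c1), z = P.map μ hμ' α + P.map l2 h2 β := by
  obtain ⟨D, _, iD, φD, hD⟩ := exists_isPO (θ.comp C) (hV.comp C)
  obtain ⟨A, _, iA, φA, hA⟩ := exists_isPO (θ.comp C) ((j.comp θ).comp C)
  obtain ⟨A', _, gA, φA', hAA'⟩ := exists_isPO φA l2
  have hA' := hA.paste hAA'
  have hs : μ.comp (hV.comp C) = l2.comp ((j.comp θ).comp C) := by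
    rw [← RingHom.comp_assoc, hμ]; rfl
  obtain ⟨gD, hgD1, hgD2⟩ := hD.exists_lift (gA.comp iA) (φA'.comp μ)
    (by rw [hA'.comm, RingHom.comp_assoc _ μ, hs])
  have hDA' : IsPO φD μ gD φA' := hD.cancel hgD2 (by rw [hs, hgD1]; exact hA')
  have eD : ∀ t, gD (iD t) = gA (iA t) := RingHom.congr_fun hgD1
  obtain ⟨Z, _, jZ, hjZ⟩ := exists_isAway (iD (Q * θ ω))
  obtain ⟨Y, _, jY, hjY⟩ := exists_isAway (iA Q)
  obtain ⟨Y', _, jY', hjY'⟩ := exists_isAway (gA (iA Q))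
  obtain ⟨Z', _, lZ, hlZ⟩ := exists_isAway (jY' (gA (iA (θ ω))))
  have hlam : IsAway (l2.comp j) (Q * θ ω) := hj.comp hl2
  have hjZ' : IsAway (lZ.comp jY') (gD (iD (Q * θ ω))) := by
    rw [eD, map_mul, map_mul]; exact hjY'.comp hlZ
  obtain ⟨ζZ, hζZ, hZ⟩ := A3_away_po hD hlam hjZ
  obtain ⟨ζY, hζY, hY⟩ := A3_away_po hA hj hjY
  obtain ⟨gY, hgY, hYY'⟩ := A3_away_po hAA' hjY hjY'
  obtain ⟨g1, hg1, hZZ'⟩ := A3_away_po hDA' hjZ hjZ'
  have eZ : ∀ t, ζZ (l2 (j t)) = jZ (iD t) := RingHom.congr_fun hζZ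
  have eY : ∀ t, ζY (j t) = jY (iA t) := RingHom.congr_fun hζY
  have eY' : ∀ t, gY (jY t) = jY' (gA t) := RingHom.congr_fun hgY
  have e1 : ∀ t, g1 (jZ t) = lZ (jY' (gD t)) := RingHom.congr_fun hg1
  obtain ⟨q, hq⟩ := hj.isUnit.exists_left_inv
  obtain ⟨M0, hM0⟩ := A3_lead hint hD hN (hV X) (iD e) (iD Q) 0
  obtain ⟨M1, hM1⟩ := A3_lead hint hA hN (j (θ X)) (iA e) (iA Q) (φA q)
  have L0 := hM0 (M0 + M1) (Nat.le_add_right _ _)
  have L1 := hM1 (M0 + M1) (Nat.le_add_left _ _)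
  set σ0 := A3_sig (iD (θ X)) (φD (hV X)) (iD e) (iD Q) (iD (θ N)) 0 (M0 + M1) with hσ0
  set σ1 := A3_sig (iA (θ X)) (φA (j (θ X))) (iA e) (iA Q) (iA (θ N)) (φA q) (M0 + M1) with hσ1
  have hc0 : IsCoprime σ0 (iD (Q * θ ω)) := by
    rw [map_mul]
    refine (A3_coprime_Q _ (map_dvd iD hQe) (map_dvd iD hQN)).mul_right
      (A3_coprime_om (ω' := φD (hV ω)) _ (map_dvd iD hQe) ?_ (map_dvd iD (map_dvd θ hωN))
        (A3_sub_dvd (θ1 := iD.comp θ) (θ2 := φD.comp hV) hD.comm ω) (hωV.map φD))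
    simpa using map_dvd iD hωe
  have hEt : Et1 (j.comp (θ.comp C)) (j (θ X)) := et1_of_etale het
  have hAZ : Adm bV (jZ.comp φD) (jZ (iD (θ X))) (jZ σ0) := by
    refine Adm.of_vb_left iV ?_ (vb_of_lead (A3_integral hint hD) hjZ L0 L0 hc0 (by simp))
    rw [← eZ]
    exact hZ.et1 (hEt.comp hl2.etale)
  have hAY : Adm c1 (jY.comp φA) (jY (iA (θ X))) (jY σ1) := by
    refine Adm.of_vb_left i1 ?_ (vb_of_lead (A3_integral hint hA) hjY L1 L1
      (A3_coprime_Q _ (map_dvd iA hQe) (map_dvd iA hQN)) (by simp))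
    rw [← eY]
    exact hY.et1 hEt
  have hVB : VB ((lZ.comp jY').comp φA') (lZ (jY' (gD σ0))) (lZ (jY' (gA σ1))) := by
    have L0' := L0.map hDA'.comm
    have L1' := L1.map hAA'.comm
    rw [map_sub, map_pow] at L0' L1'
    rw [eD] at L0'
    refine vb_of_lead (A3_integral hint hA') hjZ' L0' L1' (hc0.map gD) ?_
    have e2 : gD (φD (hV X)) = gA (φA (j (θ X))) := by
      rw [hDA'.comm_apply, hAA'.comm_apply]
      exact congrArg φA' (RingHom.congr_fun hμ X)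
    rw [hσ0, hσ1, A3_map_sig, A3_map_sig, e2, map_zero, map_mul, map_mul]
    simp only [eD]
    refine A3_rad _ ?_
    simpa using map_dvd gA (map_dvd iA hωe)
  have hEZ' : Et1 ((lZ.comp jY').comp φA') (lZ (jY' (gA (iA (θ X))))) := by
    rw [← eD, ← e1]
    exact hZZ'.et1 hAZ.et
  obtain ⟨Δ, η, d1, d2, d3, d4, d5, d6⟩ := A3_split (ρ := j.comp θ) (ω := ω) het hsurj hY
    (e := j e) (N := j (θ N)) hq (by simpa using map_dvd j hωe) (map_dvd _ hωN) (M0 + M1)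
  have e3 : A3_sig (ζY ((j.comp θ) X)) ((jY.comp φA) ((j.comp θ) X)) (ζY (j e)) (ζY (j Q))
      (ζY (j (θ N))) ((jY.comp φA) q) (M0 + M1) = jY σ1 := by
    rw [hσ1, A3_map_sig]
    simp only [RingHom.comp_apply, eY]
  rw [e3] at d4 d5 d6
  have hbZ : ζZ.comp c2 = (jZ.comp φD).comp bV := by
    rw [← h2, ← hc1, ← hbV]
    exact congrArg (fun f => RingHom.comp f a) hZ.comm
  have hb1 : g1.comp ((jZ.comp φD).comp bV) = ((lZ.comp jY').comp φA').comp c2 := by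
    rw [← hμ', ← RingHom.comp_assoc, hZZ'.comm]; rfl
  have hb2 : (g1.comp ζZ).comp c2 = ((lZ.comp jY').comp φA').comp c2 := by
    rw [RingHom.comp_assoc, hbZ, hb1]
  obtain ⟨β, hβ⟩ := A3_tr_diag P h2 i2 hl2 (ζ := ζY) (φ := jY.comp φA)
    (by rw [← hc1]; exact congrArg (fun f => RingHom.comp f a) hY.comm) hAY d1 d2 d3 d4 d5 d6 hYY'
    (lZ := lZ) (by rw [eY, eY']; exact hlZ)
    (by rw [eY', eY']; exact Adm.of_vb_right i2 hEZ' hVB) (ζ' := g1.comp ζZ)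
    (by
      have : ((g1.comp ζZ).comp l2).comp j = (lZ.comp (gY.comp ζY)).comp j := by
        ext t
        simp only [RingHom.comp_apply, eZ, e1, eD, eY, eY']
      exact hj.hom_ext this)
    (b' := ((lZ.comp jY').comp φA').comp c2) rfl hb2 z
  refine ⟨P.tr (jZ.comp φD) rfl (jZ (iD (θ X))) (jZ σ0) (P.map ζZ hbZ z), -β, ?_⟩
  rw [← P.tr_baseChange rfl rfl hμ' hb1 ((e1 _).trans (by rw [eD])) (e1 _) hAZ i2 hZZ',
    P.map_map ζZ g1 _ hbZ hb1 hb2 rfl, P.htpy rfl i2 hEZ' hVB, map_neg]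
  rw [eY', eY'] at hβ
  exact (eq_add_neg_iff_add_eq.2 ((add_comm _ _).trans hβ.symm))

end Aux

theorem PT.a3 (P : PT.{u, v} κ m) {a : κ →+* F} (ha : IndEP a) {g ω : F[X]} (hω : Irreducible ω)
    (hc : IsCoprime g ω) {ι : F[X] →+* U} (hι : IsAway ι g) {lU : U →+* Uω} (hlU : IsAway lU (ι ω))
    {ε : U →+* E} (hε : EE (Ideal.span {ι ω}) ε) {lE : E →+* Eω} (hlE : IsAway lE (ε (ι ω)))
    {εω : Uω →+* Eω} (w : εω.comp lU = lE.comp ε) {b : κ →+* U} {bω : κ →+* Uω} {c : κ →+* E}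
    {cω : κ →+* Eω} (hb : (ι.comp C).comp a = b) (hbω : lU.comp b = bω) (hc' : ε.comp b = c)
    (hcω : lE.comp c = cω) (hcω' : εω.comp bω = cω) :
    ∃ f : E, IsCoprime f (ε (ι ω)) ∧ ∀ (E1 E2 : Type u) [CommRing E1] [CommRing E2] (l1 : E →+* E1)
      (l2 : E1 →+* E2) (k : Eω →+* E2) (c1 : κ →+* E1) (c2 : κ →+* E2) (_ : l1.comp c = c1)
      (h2 : l2.comp c1 = c2) (hk : k.comp cω = c2), IsAway l1 f → IsAway l2 (l1 (ε (ι ω))) →
      k.comp lE = l2.comp l1 → ∀ z : P.obj cω, ∃ (α : P.obj bω) (β : P.obj c1),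
        P.map k hk z = P.map k hk (P.map εω hcω' α) + P.map l2 h2 β := by
  obtain ⟨p, Q, e, N, f, E0, _, l, j, hp, -, hl, hf, hj, hjl, -, hQe, hωe, hN, hQN, -⟩ :=
    curve_chart hω hc hι hε
  refine ⟨f, hf, fun E1 E2 _ _ l1 l2 k c1 c2 h1 h2 hk hl1 hl2 hkl z => ?_⟩
  obtain ⟨d, hd⟩ := hl.exists_lift l1 hl1.isUnit
  obtain ⟨d', hd'⟩ := hl1.exists_lift l hl.isUnit
  have hdb : Function.Bijective d := by
    have e1 : d'.comp d = RingHom.id E0 :=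
      hl.hom_ext (by rw [RingHom.comp_assoc, hd, hd', RingHom.id_comp])
    have e2 : d.comp d' = RingHom.id E1 :=
      hl1.hom_ext (by rw [RingHom.comp_assoc, hd', hd, RingHom.id_comp])
    exact Function.bijective_iff_has_inverse.2
      ⟨d', RingHom.congr_fun e1, RingHom.congr_fun e2⟩
  have hj1 : IsAway (d.comp j) Q := by
    have := hj.comp (s := 1) (isAway_of_bijective hdb (by rw [map_one]; exact isUnit_one))
    rwa [mul_one] at this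
  have hρ : (d.comp j).comp (AdjoinRoot.of p) = l1.comp (ε.comp ι) := by
    rw [RingHom.comp_assoc, hjl, ← RingHom.comp_assoc, hd]
  have eρ : ∀ x, (d.comp j) (AdjoinRoot.of p x) = l1 (ε (ι x)) := RingHom.congr_fun hρ
  have hEE : EE (Ideal.span {ω}) (l1.comp (ε.comp ι)) := by
    have h3 : EE (Ideal.span {ω}) ι := by
      obtain ⟨x, y, hxy⟩ := hc
      exact hι.ee ⟨x, Ideal.mem_span_singleton.2 ⟨-y, by linear_combination hxy⟩⟩
    have h4 : EE (Ideal.span {ω}) (ε.comp ι) :=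
      h3.comp (by rw [Ideal.map_span, Set.image_singleton]; exact hε)
    refine h4.comp (hl1.ee ?_)
    obtain ⟨x, y, hxy⟩ := hf
    rw [Ideal.map_span, Set.image_singleton]
    exact ⟨x, Ideal.mem_span_singleton.2 ⟨-y, by
      rw [RingHom.comp_apply]; linear_combination hxy⟩⟩
  have ib : IndEP b := hb ▸ ha.polynomial.comp_etale hι.etale
  have ic : IndEP c := hc' ▸ ib.comp_etale hε.etale
  have i1 : IndEP c1 := h1 ▸ ic.comp_etale hl1.etale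
  have hμ' : (k.comp εω).comp bω = c2 := by rw [RingHom.comp_assoc, hcω', hk]
  obtain ⟨α, β, h⟩ := A3_core P (a := a) (θ := AdjoinRoot.of p)
    (finite_adjoinRoot_of hp).to_isIntegral (ω := ω) (N := N * (ω * C ω.leadingCoeff⁻¹))
    (hN.mul (monic_mul_leadingCoeff_inv hω.ne_zero)) hQe hωe
    (by rw [map_mul]; exact hQN.mul_right _) (((dvd_refl ω).mul_right _).mul_left _) hj1
    (hρ ▸ hEE.etale)
    (fun y => by
      obtain ⟨x, hx⟩ := hEE.surj y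
      rw [Ideal.map_span, Set.image_singleton, Ideal.mem_span_singleton] at hx
      exact ⟨x, by rw [eρ, eρ]; exact hx⟩)
    (l2 := l2) (by rw [eρ]; exact hl2) (hV := lU.comp ι) hlU.isUnit (μ := k.comp εω)
    (by rw [hρ, RingHom.comp_assoc, ← RingHom.comp_assoc ι lU, w, RingHom.comp_assoc,
      ← RingHom.comp_assoc _ lE, hkl]; rfl)
    (bV := bω) (c1 := c1) (by rw [← hbω, ← hb]; rfl) (by rw [hρ, ← h1, ← hc', ← hb]; rfl) h2 hμ'
    (hbω ▸ ib.comp_etale hlU.etale) i1 (h2 ▸ i1.comp_etale hl2.etale) (P.map k hk z)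
  exact ⟨α, β, by rw [h, P.map_map εω k _ hcω' hk hμ' rfl]⟩

end KEW
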