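import Pool.Agent.P.MP_6277db_ag.KEW.PT.Api0
import Pool.Agent.P.MP_6277db_ag.KEW.CA.Norm

/-!
KEW L5: derived rules for pretheories.
Hints.  `tr_one`: `tr_add` with `σ = σ' = 1`.  `tr_unit`: `tr (σ) = tr (1)`: both are computed by `tr_bc` along
`g : Y → Y ⧸ ⊤` (the zero ring; `Et1` holds there).  `subsingleton`: `tr_sec` for `φ = s = id`, `σ = 1`.
`htpy`: over `R[X]` take `Φ = C σ0 + X * C (σ1 - σ0)` on `Y[X]` (`VB.finMod`, `isPO_polynomial`), write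
`tr Φ (C^* x) = C^* c` by `hinv` and apply `tr_baseChange` along the evaluations at `0` and `1`.
`tr_split`: replace `h` by `h' = 3h^2 - 2h^3` (`h' (1 - h') ∈ (σ^2)`), `σa = h' σ + (1 - h')`, `σb = (1 - h') σ + h'`,
`σa σb = σ v` with `v ≡ 1` mod `σ`; work on `Y[1/v]`, `Y[1/(v h)]`, `Y[1/(v (1-h))]` and use `tr_nb`, `tr_add`, `tr_unit`
(`σb` is a unit on `Y[1/(v h)]`).
`cont_loc`: `cont_surj`, `cont_inj`, `IsLoc.exists_away_factor`.
`vanF_of_generic`: `cont_surj`, `field_chart`.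
-/

namespace KEW

universe u v

open Polynomial

variable {κ R S T Y Y' R' : Type u} [CommRing κ] [CommRing R] [CommRing S] [CommRing T] [CommRing Y]
  [CommRing Y'] [CommRing R'] {m : ℕ}

theorem Api_po_eval (φ : R →+* Y) (c : R) :
    IsPO (Polynomial.mapRingHom φ) (Polynomial.evalRingHom c) (Polynomial.evalRingHom (φ c)) φ := by
  refine IsPO.cancel (isPO_polynomial φ).flip ?_ ?_
  · ext r
    · simp
    · simp
  · have e1 : (Polynomial.evalRingHom c).comp (C : R →+* R[X]) = RingHom.id R := by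
      ext r
      simp
    have e2 : (Polynomial.evalRingHom (φ c)).comp (C : Y →+* Y[X]) = RingHom.id Y := by
      ext r
      simp
    rw [e1, e2]
    exact isPO_id φ

theorem Api_adm_away {Y1 : Type u} [CommRing Y1] {a : κ →+* R} {φ : R →+* Y} {l1 : Y →+* Y1}
    {u σ h : Y} (hA : Adm a φ u σ) (hh : σ ∣ h * (1 - h)) (hl1 : IsAway l1 h) :
    Adm a (l1.comp φ) (l1 u) (l1 σ) := by
  refine ⟨hA.ind, hA.et.comp hl1.etale, FinMod.of_surjective rfl hA.fin ?_⟩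
  intro z
  obtain ⟨z, rfl⟩ := Ideal.Quotient.mk_surjective z
  obtain ⟨x, n, hx⟩ := hl1.surj z
  refine ⟨Ideal.Quotient.mk _ x, ?_⟩
  rw [qmap_mk, ← hx]
  have h1 : l1 σ ∣ 1 - l1 h := by
    have h2 : l1 σ ∣ l1 h * (1 - l1 h) := by
      simpa using map_dvd l1 hh
    exact (hl1.isUnit.dvd_mul_left).1 h2
  have h3 : Ideal.Quotient.mk (Ideal.span {l1 σ}) (l1 h) = 1 := by
    rw [← map_one (Ideal.Quotient.mk (Ideal.span {l1 σ})), eq_comm, Ideal.Quotient.eq,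
      Ideal.mem_span_singleton]
    exact h1
  rw [map_mul, map_pow, h3, one_pow, mul_one]

namespace PT

variable (P : PT.{u, v} κ m)

theorem htpy {a : κ →+* R} {b : κ →+* Y} {φ : R →+* Y} (hφ : φ.comp a = b) {u σ0 σ1 : Y}
    (ha : IndEP a) (hu : Et1 φ u) (h : VB φ σ0 σ1) (x : P.obj b) :
    P.tr φ hφ u σ0 x = P.tr φ hφ u σ1 x := by
  have hpo : IsPO φ (C : R →+* R[X]) (C : Y →+* Y[X]) (Polynomial.mapRingHom φ) :=
    (isPO_polynomial φ).flip
  have hA : Adm ((C : R →+* R[X]).comp a) (Polynomial.mapRingHom φ) (C u)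
      (C σ0 + X * C (σ1 - σ0)) :=
    ⟨ha.polynomial, hpo.et1 hu, VB.finMod hu.finiteType h⟩
  have hφ' : (Polynomial.mapRingHom φ).comp ((C : R →+* R[X]).comp a) =
      (C : Y →+* Y[X]).comp b := by
    rw [← hφ]
    ext r
    simp
  have hev : ∀ c : R, (Polynomial.evalRingHom c).comp ((C : R →+* R[X]).comp a) = a := by
    intro c
    ext r
    simp
  have hevY : ∀ c : Y, (Polynomial.evalRingHom c).comp ((C : Y →+* Y[X]).comp b) = b := by
    intro c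
    ext r
    simp
  have key : ∀ (c : R) (σ : Y), σ0 + φ c * (σ1 - σ0) = σ → P.tr φ hφ u σ x =
      P.map (Polynomial.evalRingHom c) (hev c) (P.tr (Polynomial.mapRingHom φ) hφ' (C u)
        (C σ0 + X * C (σ1 - σ0)) (P.map (C : Y →+* Y[X]) rfl x)) := by
    intro c σ hσ
    have h1 := P.tr_baseChange hφ' hφ (hev c) (hevY (φ c)) (u' := u) (σ' := σ) (by simp)
      (by rw [← hσ]; simp) hA ha (Api_po_eval φ c) (P.map (C : Y →+* Y[X]) rfl x)
    rw [← h1, P.map_retract]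
    ext r
    simp
  rw [key 0 σ0 (by simp), key 1 σ1 (by simp)]
  exact P.map_eval_eq ha rfl 0 1 _ _ _

theorem Api_half {Y1 : Type u} [CommRing Y1] {a : κ →+* R} {b : κ →+* Y} {b' : κ →+* Y'}
    {b1 : κ →+* Y1} {φ : R →+* Y} {l : Y →+* Y'} {l1 : Y →+* Y1}
    (hl' : l.comp b = b') (h1 : l1.comp b = b1)
    (hl'' : (l.comp φ).comp a = b') (h1' : (l1.comp φ).comp a = b1) {u σ σa σb w h : Y}
    (hA' : Adm a (l.comp φ) (l u) (l σa)) (hA1 : Adm a (l1.comp φ) (l1 u) (l1 σ))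
    (hl : IsAway l w) (hl1 : IsAway l1 h) (hw : σb * σa = w * σ) (hc : IsCoprime w σ)
    (hca : IsCoprime h σa) (hb : ∃ α β, h = α * σb + β * σ) (x : P.obj b) :
    P.tr (l.comp φ) hl'' (l u) (l σa) (P.map l hl' x) =
      P.tr (l1.comp φ) h1' (l1 u) (l1 σ) (P.map l1 h1 x) := by
  obtain ⟨Z, _, i, j, hpo⟩ := exists_isPO l l1
  have hj : IsAway j (l1 w) := hpo.isAway hl
  have hi : IsAway i (l h) := hpo.flip.isAway hl1
  have hcomm : ∀ y, i (l y) = j (l1 y) := hpo.comm_apply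
  have hib : i.comp b' = j.comp b1 := by
    rw [← hl', ← h1, ← RingHom.comp_assoc, ← RingHom.comp_assoc, hpo.comm]
  have hψ : (i.comp (l.comp φ)).comp a = j.comp b1 := by
    rw [RingHom.comp_assoc, hl'', hib]
  have hψ' : j.comp (l1.comp φ) = i.comp (l.comp φ) := by
    rw [← RingHom.comp_assoc, ← RingHom.comp_assoc, hpo.comm]
  have e1 := P.tr_away hl'' hψ hib rfl rfl rfl hA' hi (hca.map l) (P.map l hl' x)
  have e2 := P.tr_away h1' hψ rfl hψ' (hcomm u).symm (hcomm σ).symm hA1 hj (hc.map l1)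
    (P.map l1 h1 x)
  rw [← e1, ← e2, P.map_square l i l1 j hl' hib h1 rfl hpo.comm]
  have hwu : IsUnit (i (l w)) := hl.isUnit.map i
  have hw' : i (l σb) * i (l σa) = i (l w) * i (l σ) := by
    rw [← map_mul, ← map_mul, hw, map_mul, map_mul]
  have hbu : IsUnit (i (l σb)) := by
    obtain ⟨α, β, hαβ⟩ := hb
    have d1 : i (l σb) ∣ i (l σ) := (hwu.dvd_mul_left).1 ⟨_, hw'.symm⟩
    have d2 : i (l σb) ∣ i (l h) := by
      rw [hαβ, map_add, map_add, map_mul, map_mul, map_mul, map_mul]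
      exact dvd_add (Dvd.intro_left _ rfl) (d1.mul_left _)
    exact isUnit_of_dvd_unit d2 hi.isUnit
  have hAa : Adm a (i.comp (l.comp φ)) (i (l u)) (i (l σa)) :=
    hA'.nb (hi.ee (by
      obtain ⟨p, q, hpq⟩ := hca.map l
      exact ⟨p, Ideal.mem_span_singleton.2 ⟨-q, by linear_combination hpq⟩⟩))
  have hAσ : Adm a (i.comp (l.comp φ)) (i (l u)) (i (l σ)) := by
    have := hA1.nb (hj.ee (by
      obtain ⟨p, q, hpq⟩ := hc.map l1
      exact ⟨p, Ideal.mem_span_singleton.2 ⟨-q, by linear_combination hpq⟩⟩))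
    rwa [hψ', ← hcomm, ← hcomm] at this
  rw [← P.tr_mul_unit hψ hAa hbu, hw', P.tr_mul_unit hψ hAσ hwu]

theorem tr_split {Y1 Y2 : Type u} [CommRing Y1] [CommRing Y2] {a : κ →+* R} {b : κ →+* Y}
    {b1 : κ →+* Y1} {b2 : κ →+* Y2} {φ : R →+* Y} {l1 : Y →+* Y1} {l2 : Y →+* Y2}
    (hφ : φ.comp a = b) (h1 : l1.comp b = b1) (h2 : l2.comp b = b2)
    (h1' : (l1.comp φ).comp a = b1) (h2' : (l2.comp φ).comp a = b2) {u σ h : Y}
    (hA : Adm a φ u σ) (hh : σ ∣ h * (1 - h)) (hl1 : IsAway l1 h) (hl2 : IsAway l2 (1 - h)) :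
    Adm a (l1.comp φ) (l1 u) (l1 σ) ∧ Adm a (l2.comp φ) (l2 u) (l2 σ) ∧ ∀ x : P.obj b,
      P.tr φ hφ u σ x = P.tr (l1.comp φ) h1' (l1 u) (l1 σ) (P.map l1 h1 x) +
        P.tr (l2.comp φ) h2' (l2 u) (l2 σ) (P.map l2 h2 x) := by
  have hA1 : Adm a (l1.comp φ) (l1 u) (l1 σ) := Api_adm_away hA hh hl1
  have hA2 : Adm a (l2.comp φ) (l2 u) (l2 σ) :=
    Api_adm_away hA (by rwa [sub_sub_cancel, mul_comm]) hl2
  refine ⟨hA1, hA2, fun x => ?_⟩
  obtain ⟨c, hc⟩ := hh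
  obtain ⟨e, he⟩ : ∃ e, e = 3 * h ^ 2 - 2 * h ^ 3 := ⟨_, rfl⟩
  obtain ⟨c', hc'⟩ : ∃ c', c' = c ^ 2 * ((3 - 2 * h) * (1 + 2 * h)) := ⟨_, rfl⟩
  have hee : e * (1 - e) = σ ^ 2 * c' := by
    have : e * (1 - e) = (h * (1 - h)) ^ 2 * ((3 - 2 * h) * (1 + 2 * h)) := by
      rw [he]
      ring
    rw [this, hc, hc']
    ring
  obtain ⟨w, hw⟩ : ∃ w, w = 1 + σ * (c' - 2 * σ * c' + σ ^ 2 * c') := ⟨_, rfl⟩
  obtain ⟨σa, hσa⟩ : ∃ σa, σa = e * σ + (1 - e) := ⟨_, rfl⟩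
  obtain ⟨σb, hσb⟩ : ∃ σb, σb = (1 - e) * σ + e := ⟨_, rfl⟩
  have hab : σa * σb = w * σ := by
    rw [hσa, hσb, hw]
    linear_combination (1 - 2 * σ + σ ^ 2) * hee
  have hcw : IsCoprime w σ := ⟨1, -(c' - 2 * σ * c' + σ ^ 2 * c'), by rw [hw]; ring⟩
  obtain ⟨Y0, _, l, hl⟩ := exists_isAway w
  have hl'' : (l.comp φ).comp a = l.comp b := by rw [RingHom.comp_assoc, hφ]
  have hA0 : Adm a (l.comp φ) (l u) (l σ) :=
    hA.nb (hl.ee (by
      obtain ⟨p, q, hpq⟩ := hcw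
      exact ⟨p, Ideal.mem_span_singleton.2 ⟨-q, by linear_combination hpq⟩⟩))
  have hab' : l σa * l σb = l w * l σ := by rw [← map_mul, hab, map_mul]
  have hAa : Adm a (l.comp φ) (l u) (l σa) :=
    hA0.of_dvd ((hl.isUnit.dvd_mul_left).1 ⟨_, hab'.symm⟩)
  have hAb : Adm a (l.comp φ) (l u) (l σb) :=
    hA0.of_dvd ((hl.isUnit.dvd_mul_left).1 ⟨l σa, by rw [← hab', mul_comm]⟩)
  rw [← P.tr_away hφ hl'' rfl rfl rfl rfl hA hl hcw x, ← P.tr_mul_unit hl'' hA0 hl.isUnit, ← hab',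
    P.tr_add _ hl'' hAa hAb]
  congr 1
  · refine P.Api_half rfl h1 hl'' h1' hAa hA1 hl hl1 (σb := σb) (by rw [← hab, mul_comm]) hcw
      ⟨h * (3 - 2 * h) * (1 - σ), 1, by rw [hσa, he]; ring⟩
      ⟨h, c * ((1 - h) * (1 + 2 * h)) - h * (1 - e), ?_⟩ x
    rw [hσb, he]
    linear_combination ((1 - h) * (1 + 2 * h)) * hc
  · refine P.Api_half rfl h2 hl'' h2' hAb hA2 hl hl2 (σb := σa) hab hcw
      ⟨(1 - h) * (1 + 2 * h) * (1 - σ), 1, by rw [hσb, he]; ring⟩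
      ⟨1 - h, c * (h * (3 - 2 * h)) - (1 - h) * e, ?_⟩ x
    rw [hσa, he]
    linear_combination (h * (3 - 2 * h)) * hc

/-- The degree formula on the affine line. -/
theorem tr_monic {a : κ →+* R} (ha : IndEP a) {b : κ →+* R[X]} (hb : (C : R →+* R[X]).comp a = b)
    {q : R[X]} {d : ℕ} (hq : q.IsMonicOfDegree d) (x : P.obj a) :
    P.tr C hb X q (P.map C hb x) = d • x := by
  rcases subsingleton_or_nontrivial R with hR | hR
  · rw [P.eq_zero_of_subsingleton (d • x)]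
    exact P.eq_zero_of_subsingleton _
  have hvb : VB (C : R →+* R[X]) q (X ^ d) := by
    have := vb_monic (l := RingHom.id R[X]) (h := 1) (q0 := q) (q1 := X ^ d)
      (isAway_of_bijective Function.bijective_id isUnit_one) hq (isMonicOfDegree_X_pow R d)
      isCoprime_one_right (Ideal.le_radical (by simp))
    simpa using this
  have hA : Adm a (C : R →+* R[X]) X X := ⟨ha, et1_X, finMod_monic monic_X⟩
  have hs : (Polynomial.evalRingHom (0 : R)).comp b = a := by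
    rw [← hb]
    ext r
    simp
  have hr : (Polynomial.evalRingHom (0 : R)).comp (C : R →+* R[X]) = RingHom.id R := by
    ext r
    simp
  rw [P.htpy hb ha et1_X hvb, P.tr_pow hb hA,
    P.tr_section hb ha et1_X (Polynomial.evalRingHom 0) hs hr
      (by rw [Polynomial.ker_evalRingHom, map_zero, sub_zero]),
    P.map_retract _ _ hb hs hr]

theorem cont_loc {a : κ →+* R} {c : κ →+* T} (ha : IndEP a) {l : R →+* T} {M : Submonoid R}
    (hl : IsLoc l M) (hc : l.comp a = c) (x : P.obj a) (hx : P.map l hc x = 0) :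
    ∃ s ∈ M, ∀ (R1 : Type u) [CommRing R1] (l1 : R →+* R1) (a1 : κ →+* R1) (h1 : l1.comp a = a1),
      IsUnit (l1 s) → P.map l1 h1 x = 0 := by
  obtain ⟨B, _, β, f, hf, y, hβ, rfl⟩ := P.cont_surj ha x
  have hc' : IndEP c := hc ▸ ha.comp_isLoc hl
  have hlf : (l.comp f).comp β = c := by rw [RingHom.comp_assoc, hf, hc]
  rw [P.map_map f l (l.comp f) hf hc hlf rfl] at hx
  obtain ⟨B', _, g, f', hg, hf', hy⟩ := P.cont_inj (l.comp f) hlf y hc' hβ hx
  have hgfp : g.FinitePresentation :=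
    RingHom.FinitePresentation.of_comp_finiteType β hg.finitePresentation hβ.finiteType
  obtain ⟨s, hs, H⟩ := hl.exists_away_factor f hgfp f' hf'
  refine ⟨s, hs, fun R1 _ l1 a1 h1 hu => ?_⟩
  obtain ⟨R0, _, l0, hl0⟩ := exists_isAway s
  obtain ⟨l2, hl2⟩ := hl0.exists_lift l ((isLoc_iff.1 hl).1 s hs)
  obtain ⟨w1, -, hw1⟩ := H R0 l0 l2 hl0 hl2
  obtain ⟨d, hd⟩ := hl0.exists_lift l1 hu
  have e : l1.comp f = (d.comp w1).comp g := by
    rw [RingHom.comp_assoc, hw1, ← RingHom.comp_assoc, hd]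
  have e' : (d.comp w1).comp (g.comp β) = a1 := by
    rw [← RingHom.comp_assoc, ← e, RingHom.comp_assoc, hf, h1]
  rw [P.map_square f l1 g (d.comp w1) hf h1 rfl e' e, hy, map_zero]

theorem cont_loc_surj {a : κ →+* R} {c : κ →+* T} (ha : IndEP a) {l : R →+* T} {M : Submonoid R}
    (hl : IsLoc l M) (hc : l.comp a = c) (y : P.obj c) :
    ∃ s ∈ M, ∀ (R1 : Type u) [CommRing R1] (l1 : R →+* R1) (l2 : R1 →+* T) (a1 : κ →+* R1)
      (_ : l1.comp a = a1) (h2 : l2.comp a1 = c), IsAway l1 s → l2.comp l1 = l →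
        ∃ x1 : P.obj a1, P.map l2 h2 x1 = y := by
  have hc' : IndEP c := hc ▸ ha.comp_isLoc hl
  obtain ⟨B, _, β, f, hf, y0, hβ, rfl⟩ := P.cont_surj hc' y
  obtain ⟨s, hs, H⟩ := hl.exists_away_factor a hβ.finitePresentation f (by rw [hf, hc])
  refine ⟨s, hs, fun R1 _ l1 l2 a1 h1 h2 hl1 hl2 => ?_⟩
  obtain ⟨w1, hw1, hw1'⟩ := H R1 l1 l2 hl1 hl2
  exact ⟨P.map w1 (hw1'.trans h1) y0, P.map_map w1 l2 f _ h2 hf hw1 y0⟩

end PT

theorem vanF_of_generic {k : Type u} [Field k] [PerfectField k] (P : PT.{u, v} k m)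
    (h : ∀ (B : Type u) [CommRing B] [IsDomain B] (β : k →+* B), EP β → ∀ x : P.obj β,
      ∃ s : B, s ≠ 0 ∧ ∀ (B1 : Type u) [CommRing B1] (l : B →+* B1), IsAway l s →
        P.map l (rfl : l.comp β = l.comp β) x = 0) : P.VanF := by
  intro K _ a ha x
  obtain ⟨B, _, β, f, hf, y, hβ, rfl⟩ := P.cont_surj ha x
  obtain ⟨B', _, g, j, hg, hj, hinj⟩ := field_chart hβ.finiteType f
  have : IsDomain B' := hinj.isDomain j
  obtain ⟨s, hs, H⟩ := h B' (g.comp β) hg (P.map g rfl y)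
  obtain ⟨B1, _, l, hl⟩ := exists_isAway s
  obtain ⟨d, hd⟩ := hl.exists_lift j
    (isUnit_iff_ne_zero.2 fun h0 => hs (hinj (h0.trans (map_zero j).symm)))
  have hj' : j.comp (g.comp β) = a := by rw [← RingHom.comp_assoc, hj, hf]
  have hd' : d.comp (l.comp (g.comp β)) = a := by rw [← RingHom.comp_assoc, hd, hj']
  rw [← P.map_map g j f rfl hj' hf hj y, ← P.map_map l d j rfl hd' hj' hd, H B1 l hl, map_zero]

end KEW
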