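import Pool.Agent.P.MP_6277db_ag.KEW.PT.Defs
import Pool.Agent.P.MP_6277db_ag.KEW.CA.Ind
import Pool.Agent.P.MP_6277db_ag.KEW.CA.Val
import Pool.Agent.P.MP_6277db_ag.KEW.CA.EEApi

/-!
KEW L5: derived rules for pretheories.
Hints.  `tr_one`: `tr_add` with `σ = σ' = 1`.  `tr_unit`: `tr (σ) = tr (1)`: both are computed by `tr_bc` along
`g : Y → Y ⧸ ⊤` (the zero ring; `Et1` holds there).  `subsingleton`: `tr_sec` for `φ = s = id`, `σ = 1`.
`htpy`: over `R[X]` take `Φ = C σ0 + X * C (σ1 - σ0)` on `Y[X]` (`VB.finMod`, `isPO_polynomial`), write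
`tr Φ (C^* x) = C^* c` by `hinv` and apply `tr_baseChange` along the evaluations at `0` and `1`.
`tr_split`: replace `h` by `h' = 3h^2 - 2h^3` (`h' (1 - h') ∈ (σ^2)`), `σa = h' σ + (1 - h')`, `σb = (1 - h') σ + h'`,
`σa σb = σ v` with `v ≡ 1` mod `σ`; work on `Y[1/v]`, `Y[1/(v h)]`, `Y[1/(v (1-h))]` and use `tr_nb`, `tr_add`, `tr_unit`
(`σb` is a unit on `Y[1/(v h)]`).
`cont_loc`: `cont_surj`, `cont_inj`, `IsLoc.exists_away_factor`.
`vanF_of_generic`: `cont_surj`, `field_chart`.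
-/

namespace KEW

universe u v

open Polynomial

variable {κ R S T Y Y' R' : Type u} [CommRing κ] [CommRing R] [CommRing S] [CommRing T] [CommRing Y]
  [CommRing Y'] [CommRing R'] {m : ℕ}

theorem Adm.of_vb_left {a : κ →+* R} {φ : R →+* Y} {u σ0 σ1 : Y} (ha : IndEP a) (hu : Et1 φ u)
    (h : VB φ σ0 σ1) : Adm a φ u σ0 :=
  ⟨ha, hu, h.finMod_left hu.finiteType⟩

theorem Adm.of_vb_right {a : κ →+* R} {φ : R →+* Y} {u σ0 σ1 : Y} (ha : IndEP a) (hu : Et1 φ u)
    (h : VB φ σ0 σ1) : Adm a φ u σ1 :=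
  ⟨ha, hu, h.finMod_right hu.finiteType⟩

theorem Adm.of_dvd {a : κ →+* R} {φ : R →+* Y} {u σ σ' : Y} (h : Adm a φ u σ') (hd : σ ∣ σ') :
    Adm a φ u σ :=
  ⟨h.ind, h.et, h.fin.of_dvd hd⟩

theorem Adm.mul {a : κ →+* R} {φ : R →+* Y} {u σ σ' : Y} (h : Adm a φ u σ) (h' : Adm a φ u σ') :
    Adm a φ u (σ * σ') :=
  ⟨h.ind, h.et, h.fin.mul h'.fin⟩

theorem Adm.indEP {a : κ →+* R} {φ : R →+* Y} {u σ : Y} (h : Adm a φ u σ) : IndEP (φ.comp a) :=
  h.ind.comp_et1 h.et

theorem Adm.baseChange {a : κ →+* R} {φ : R →+* Y} {u σ : Y} (h : Adm a φ u σ) {f : R →+* R'}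
    {g : Y →+* Y'} {φ' : R' →+* Y'} (hpo : IsPO φ f g φ') {a' : κ →+* R'} (ha' : IndEP a') :
    Adm a' φ' (g u) (g σ) :=
  ⟨ha', hpo.et1 h.et, hpo.finMod_span h.fin⟩

theorem Adm.nb {a : κ →+* R} {φ : R →+* Y} {u σ : Y} (h : Adm a φ u σ) {g : Y →+* Y'}
    (hg : EE (Ideal.span {σ}) g) : Adm a (g.comp φ) (g u) (g σ) :=
  ⟨h.ind, h.et.comp hg.etale, h.fin.of_surjective rfl ((ee_span_iff rfl).1 hg).2.2⟩

theorem Api0_adm_unit {a : κ →+* R} {φ : R →+* Y} {u σ : Y} (ha : IndEP a) (hu : Et1 φ u)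
    (hσ : IsUnit σ) : Adm a φ u σ :=
  ⟨ha, hu, by rw [Ideal.span_singleton_eq_top.2 hσ]; exact finMod_top φ⟩

namespace PT

variable (P : PT.{u, v} κ m)

theorem map_congr {a : κ →+* R} {b : κ →+* S} {f g : R →+* S} (h : f = g) (hf : f.comp a = b)
    (hg : g.comp a = b) (x : P.obj a) : P.map f hf x = P.map g hg x := by
  subst h; rfl

/-- Composition with a prescribed composite. -/
theorem map_map {a : κ →+* R} {b : κ →+* S} {c : κ →+* T} (f : R →+* S) (g : S →+* T)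
    (k : R →+* T) (hf : f.comp a = b) (hg : g.comp b = c) (hk : k.comp a = c) (h : g.comp f = k)
    (x : P.obj a) : P.map g hg (P.map f hf x) = P.map k hk x := by
  subst h; exact P.map_comp f g hf hg hk x

/-- Commutative squares. -/
theorem map_square {a : κ →+* R} {b : κ →+* S} {b' : κ →+* R'} {c : κ →+* T} (f : R →+* S)
    (g : S →+* T) (f' : R →+* R') (g' : R' →+* T) (hf : f.comp a = b) (hg : g.comp b = c)
    (hf' : f'.comp a = b') (hg' : g'.comp b' = c) (h : g.comp f = g'.comp f') (x : P.obj a) :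
    P.map g hg (P.map f hf x) = P.map g' hg' (P.map f' hf' x) := by
  have hk : (g.comp f).comp a = c := by rw [RingHom.comp_assoc, hf, hg]
  rw [P.map_map f g _ hf hg hk rfl, P.map_map f' g' _ hf' hg' hk h.symm]

theorem map_retract {a : κ →+* R} {b : κ →+* S} (f : R →+* S) (g : S →+* R) (hf : f.comp a = b)
    (hg : g.comp b = a) (h : g.comp f = RingHom.id R) (x : P.obj a) :
    P.map g hg (P.map f hf x) = x := by
  rw [P.map_map f g (RingHom.id R) hf hg (RingHom.id_comp a) h, P.map_id]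

theorem map_bijective {a : κ →+* R} {b : κ →+* S} {f : R →+* S} (hf : f.comp a = b)
    (h : Function.Bijective f) : Function.Bijective (P.map f hf) := by
  let e := RingEquiv.ofBijective f h
  have h1 : (e.symm : S →+* R).comp f = RingHom.id R := RingHom.ext fun x => e.symm_apply_apply x
  have h2 : f.comp (e.symm : S →+* R) = RingHom.id S := RingHom.ext fun x => e.apply_symm_apply x
  have hg : (e.symm : S →+* R).comp b = a := by rw [← hf, ← RingHom.comp_assoc, h1, RingHom.id_comp]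
  exact Function.bijective_iff_has_inverse.2 ⟨P.map _ hg, fun x => P.map_retract f _ hf hg h1 x,
    fun x => P.map_retract _ f hg hf h2 x⟩

theorem tr_congr {a : κ →+* R} {b : κ →+* Y} {φ φ' : R →+* Y} (h : φ = φ') (hφ : φ.comp a = b)
    (hφ' : φ'.comp a = b) (u σ : Y) (x : P.obj b) : P.tr φ hφ u σ x = P.tr φ' hφ' u σ x := by
  subst h; rfl

theorem nsmul_succ (e : ℕ) {a : κ →+* R} (x : P.obj a) : (m * e + 1) • x = x := by
  rw [add_nsmul, one_nsmul, mul_nsmul, P.tors, nsmul_zero, zero_add]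

/-- Homotopy invariance for any model of the polynomial ring. -/
theorem hinv_po {a : κ →+* R} (ha : IndEP a) {b : κ →+* Y} {f : S →+* R} {g : S[X] →+* Y}
    {j : R →+* Y} (h : IsPO (C : S →+* S[X]) f g j) (hb : j.comp a = b) :
    Function.Bijective (P.map j hb) := by
  obtain ⟨e, -, he⟩ := (isPO_polynomial f).exists_equiv h
  have h0 : (Polynomial.evalRingHom (0 : R)).comp C = RingHom.id R :=
    RingHom.ext fun r => eval_C
  have h1 : Function.Bijective
      (P.map (C : R →+* R[X]) (rfl : (C : R →+* R[X]).comp a = (C : R →+* R[X]).comp a)) := by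
    refine ⟨Function.LeftInverse.injective (g := P.map (Polynomial.evalRingHom (0 : R)) ?_)
      fun x => P.map_retract _ _ _ _ h0 x, P.hinv ha⟩
    rw [← RingHom.comp_assoc, h0, RingHom.id_comp]
  have hc : (e : R[X] →+* Y).comp ((C : R →+* R[X]).comp a) = b := by
    rw [← RingHom.comp_assoc, he, hb]
  have h2 := (P.map_bijective hc e.bijective).comp h1
  convert h2 using 1
  funext x
  exact (P.map_map _ _ j rfl hc hb he x).symm

/-- All evaluations of a class on the affine line agree. -/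
theorem map_eval_eq {a : κ →+* R} (ha : IndEP a) {b : κ →+* R[X]} (hb : (C : R →+* R[X]).comp a = b)
    (c c' : R) (h : (Polynomial.evalRingHom c).comp b = a)
    (h' : (Polynomial.evalRingHom c').comp b = a) (x : P.obj b) :
    P.map (Polynomial.evalRingHom c) h x = P.map (Polynomial.evalRingHom c') h' x := by
  subst hb
  obtain ⟨y, rfl⟩ := P.hinv ha x
  rw [P.map_retract _ _ _ h (RingHom.ext fun r => eval_C),
    P.map_retract _ _ _ h' (RingHom.ext fun r => eval_C)]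

theorem tr_baseChange {a : κ →+* R} {b : κ →+* Y} {a' : κ →+* R'} {b' : κ →+* Y'} {φ : R →+* Y}
    {φ' : R' →+* Y'} {f : R →+* R'} {g : Y →+* Y'} (hφ : φ.comp a = b) (hφ' : φ'.comp a' = b')
    (hf : f.comp a = a') (hg : g.comp b = b') {u σ : Y} {u' σ' : Y'} (hu : g u = u')
    (hσ : g σ = σ') (h : Adm a φ u σ) (ha' : IndEP a') (hpo : IsPO φ f g φ') (x : P.obj b) :
    P.tr φ' hφ' u' σ' (P.map g hg x) = P.map f hf (P.tr φ hφ u σ x) := by
  refine P.tr_bc φ φ' f g hφ hφ' hf hg hpo.comm hu hσ h ?_ (hpo.qmap hσ) x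
  subst hu hσ
  exact h.baseChange hpo ha'

theorem tr_nb {a : κ →+* R} {b : κ →+* Y} {b' : κ →+* Y'} {φ : R →+* Y} {φ' : R →+* Y'}
    {g : Y →+* Y'} (hφ : φ.comp a = b) (hφ' : φ'.comp a = b') (hg : g.comp b = b')
    (w : g.comp φ = φ') {u σ : Y} {u' σ' : Y'} (hu : g u = u') (hσ : g σ = σ') (h : Adm a φ u σ)
    (hE : EE (Ideal.span {σ}) g) (x : P.obj b) :
    P.tr φ' hφ' u' σ' (P.map g hg x) = P.tr φ hφ u σ x := by
  subst w
  have h1 := P.tr_bc φ (g.comp φ) (RingHom.id R) g hφ hφ' (RingHom.id_comp a) hg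
    (RingHom.comp_id _).symm hu hσ h (by subst hu hσ; exact h.nb hE)
    (IsPO.flip (isPO_of_bijective (RingHom.ext fun r => rfl) Function.bijective_id
      ((ee_span_iff hσ).1 hE).2)) x
  rw [h1, P.map_id]

/-- Shrinking to an open neighbourhood of the zero locus. -/
theorem tr_away {a : κ →+* R} {b : κ →+* Y} {b' : κ →+* Y'} {φ : R →+* Y} {φ' : R →+* Y'}
    {g : Y →+* Y'} (hφ : φ.comp a = b) (hφ' : φ'.comp a = b') (hg : g.comp b = b')
    (w : g.comp φ = φ') {u σ r : Y} {u' σ' : Y'} (hu : g u = u') (hσ : g σ = σ') (h : Adm a φ u σ)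
    (hr : IsAway g r) (hc : IsCoprime r σ) (x : P.obj b) :
    P.tr φ' hφ' u' σ' (P.map g hg x) = P.tr φ hφ u σ x := by
  refine P.tr_nb hφ hφ' hg w hu hσ h (hr.ee ?_) x
  obtain ⟨c, d, hcd⟩ := hc
  refine ⟨c, Ideal.mem_span_singleton'.2 ⟨-d, ?_⟩⟩
  rw [← hcd]; ring

theorem tr_unit {a : κ →+* R} {b : κ →+* Y} {φ : R →+* Y} (hφ : φ.comp a = b) {u σ : Y}
    (ha : IndEP a) (hu : Et1 φ u) (hσ : IsUnit σ) (x : P.obj b) : P.tr φ hφ u σ x = 0 := by
  have h1 : P.tr φ hφ u 1 x = 0 := by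
    have h2 := P.tr_add φ hφ (Api0_adm_unit ha hu isUnit_one) (Api0_adm_unit ha hu isUnit_one) x
    rw [mul_one] at h2
    exact left_eq_add.1 h2
  obtain ⟨Z, _, l, hl⟩ := exists_isAway (0 : Y)
  have hZ : Subsingleton Z := by
    have h0 := hl.isUnit
    rw [map_zero, isUnit_zero_iff] at h0
    exact subsingleton_of_zero_eq_one h0
  have hφ' : (l.comp φ).comp a = l.comp b := by rw [RingHom.comp_assoc, hφ]
  have h3 := P.tr_away hφ hφ' rfl rfl rfl (Subsingleton.elim (l σ) 1) (Api0_adm_unit ha hu hσ) hl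
    (isCoprime_zero_left.2 hσ) x
  have h4 := P.tr_away hφ hφ' rfl rfl rfl (map_one l) (Api0_adm_unit ha hu isUnit_one) hl
    isCoprime_one_right x
  rw [← h3, h4, h1]

theorem tr_mul_unit {a : κ →+* R} {b : κ →+* Y} {φ : R →+* Y} (hφ : φ.comp a = b) {u σ w : Y}
    (h : Adm a φ u σ) (hw : IsUnit w) (x : P.obj b) :
    P.tr φ hφ u (w * σ) x = P.tr φ hφ u σ x := by
  rw [P.tr_add φ hφ (Api0_adm_unit h.ind h.et hw) h, P.tr_unit hφ h.ind h.et hw, zero_add]

theorem tr_pow {a : κ →+* R} {b : κ →+* Y} {φ : R →+* Y} (hφ : φ.comp a = b) {u σ : Y}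
    (h : Adm a φ u σ) (n : ℕ) (x : P.obj b) : P.tr φ hφ u (σ ^ n) x = n • P.tr φ hφ u σ x := by
  have h1 : ∀ k : ℕ, Adm a φ u (σ ^ k) := by
    intro k
    induction k with
    | zero => rw [pow_zero]; exact Api0_adm_unit h.ind h.et isUnit_one
    | succ k ih => rw [pow_succ]; exact ih.mul h
  induction n with
  | zero => rw [pow_zero, zero_nsmul, P.tr_unit hφ h.ind h.et isUnit_one]
  | succ n ih => rw [pow_succ, P.tr_add φ hφ (h1 n) h, ih, succ_nsmul]

theorem tr_section {a : κ →+* R} {b : κ →+* Y} {φ : R →+* Y} (hφ : φ.comp a = b) {u σ : Y}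
    (ha : IndEP a) (hu : Et1 φ u) (s : Y →+* R) (hs : s.comp b = a) (h1 : s.comp φ = RingHom.id R)
    (h2 : RingHom.ker s = Ideal.span {σ}) (x : P.obj b) : P.tr φ hφ u σ x = P.map s hs x :=
  P.tr_sec φ hφ s hs ⟨ha, hu, h2 ▸ finMod_of_section h1⟩ h1 h2 x

theorem eq_zero_of_subsingleton [Subsingleton R] {a : κ →+* R} (x : P.obj a) : x = 0 := by
  have hu : Et1 (RingHom.id R) 1 := (ee_of_bijective ⊥
    ⟨fun _ _ _ => Subsingleton.elim _ _, fun y => ⟨0, Subsingleton.elim _ _⟩⟩).etale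
  have h1 := P.tr_section (RingHom.id_comp a) (indEP_of_subsingleton a) hu (RingHom.id R)
    (RingHom.id_comp a) (RingHom.id_comp _) (σ := 1) (Subsingleton.elim _ _) x
  rw [P.tr_unit _ (indEP_of_subsingleton a) hu isUnit_one, P.map_id] at h1
  exact h1.symm

end PT

end KEW
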