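import Pool.Agent.P.MP_6277db_ag.KEW.PT.SR
import Pool.Agent.P.MP_6277db_ag.KEW.PT.A1
import Pool.Agent.P.MP_6277db_ag.KEW.PT.A2
import Pool.Agent.P.MP_6277db_ag.KEW.PT.A3
import Pool.Agent.P.MP_6277db_ag.KEW.PT.A0
import Pool.Agent.P.MP_6277db_ag.KEW.CA.Chart2

/-!
KEW L5.2, L5.4: consequences in a chart.  `E` is etale over `F[x]`, `e` is an `F`-point over the origin; a
neighbourhood is a map `ρ` with `EE (ker e) ρ` (the point lifts by `EE.point`).
Hints.  `rigid_point`: `srn` for `s0 = id`, `s1 = ι ∘ e` (`E` is noetherian), `Rigid.apply`.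
`rigid_curve`: `C = F[t]` via `t ↦ x k0` (`EtN.etN_erase`); `HL0_etN` gives `r : E → E1` over `C` killing the other coordinates, then `srn`;
`E0 = E ⧸ (x k, k ≠ k0)` is etale over `C` (`EtN.etale_quotient`), `r` factors through it.
`inj_point`: `curve_through`, `a0`.  `Kp`: `rigid_curve` applied after the base change `C → C[1/t]` (`IsAway.isPO`), `curve_generic`, `cont_loc`: the
class dies on `E0[1/u][1/s0]`; localise the neighbourhood at the image of `s0` (`exists_ee_isUnit`).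
`K0a`: as `Kp`, with `exists_ee_of_section` to make `E0 ∈ EE(F[X], X)` and `a3` for `g = 1`, `ω = X`.
`K0b`: restrict to the curve `E0`, `a2`, `hinv`.
-/

namespace KEW

universe u v

open Polynomial

variable {κ F E Et G : Type u} [CommRing κ] [Field F] [CommRing E] [CommRing Et] [CommRing G]
  {m : ℕ} {σ : Type} [Finite σ]

theorem Conseq_pos (hm : (m : F) ≠ 0) : 0 < m := by
  rcases Nat.eq_zero_or_pos m with h | h
  · exact absurd (by rw [h, Nat.cast_zero]) hm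
  · exact h

theorem Conseq_inv (hm : (m : F) ≠ 0) (φ : F →+* E) (I : Ideal E) : ∃ c : E, c * m - 1 ∈ I := by
  refine ⟨φ (m : F)⁻¹, ?_⟩
  rw [← map_natCast φ m, ← map_mul, inv_mul_cancel₀ hm, map_one, sub_self]
  exact I.zero_mem

theorem Conseq_ev_C (ι : F →+* E) (u : E) : (Polynomial.eval₂RingHom ι u).comp C = ι := by
  ext c
  simp

theorem Conseq_ev_X (ι : F →+* E) (u : E) : Polynomial.eval₂RingHom ι u X = u := by
  simp

theorem Conseq_comp_ev (q : E →+* G) (ι : F →+* E) (u : E) :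
    q.comp (Polynomial.eval₂RingHom ι u) = Polynomial.eval₂RingHom (q.comp ι) (q u) := by
  refine Polynomial.ringHom_ext (fun c => ?_) ?_ <;> simp

theorem Conseq_apply {ι : F →+* E} {e : E →+* F} (he : e.comp ι = RingHom.id F) (c : F) :
    e (ι c) = c := RingHom.congr_fun he c

/-- The coordinate curve through the origin. -/
theorem Conseq_curve {ι : F →+* E} {x : σ → E} (hx : EtN ι x) (k0 : σ) :
    ∃ (E0 : Type u) (_ : CommRing E0) (q : E →+* E0), Et1 (q.comp ι) (q (x k0)) ∧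
      Function.Surjective q ∧ ∀ (Z : Type u) [CommRing Z] (s : E →+* Z),
        (∀ k, k ≠ k0 → s (x k) = 0) → ∃ r : E0 →+* Z, r.comp q = s := by
  refine ⟨E ⧸ Ideal.span (Set.range fun k : {k // k ≠ k0} => x k), inferInstance,
    Ideal.Quotient.mk _, ?_, Ideal.Quotient.mk_surjective, fun Z _ s hs => ?_⟩
  · have h := (hx.etN_erase k0).etale_quotient
    rw [Conseq_comp_ev] at h
    exact h
  · have h : Ideal.span (Set.range fun k : {k // k ≠ k0} => x k) ≤ RingHom.ker s := by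
      rw [Ideal.span_le]
      rintro _ ⟨k, rfl⟩
      exact hs k k.2
    exact ⟨Ideal.Quotient.lift _ s fun y hy => h hy, RingHom.ext fun y => rfl⟩

/-- The curve is an elementary neighbourhood of the origin of the line after a localisation. -/
theorem Conseq_ee {ι : F →+* E} {u : E} (hu : Et1 ι u) {e : E →+* F}
    (he : e.comp ι = RingHom.id F) (h0 : e u = 0) :
    ∃ (s : E) (E1 : Type u) (_ : CommRing E1) (l : E →+* E1), e s ≠ 0 ∧ IsAway l s ∧
      EE (Ideal.span {(X : F[X])}) (l.comp (Polynomial.eval₂RingHom ι u)) := by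
  have hπ : Function.Surjective (Polynomial.evalRingHom (0 : F)) := fun c => ⟨C c, by simp⟩
  have w : e.comp (Polynomial.eval₂RingHom ι u) = Polynomial.evalRingHom (0 : F) := by
    refine Polynomial.ringHom_ext (fun c => ?_) ?_
    · simp [Conseq_apply he]
    · simp [h0]
  obtain ⟨s, E1, _, l, -, h1, h2, -, h3, -⟩ := exists_ee_of_section hu hπ e w
  rw [Polynomial.ker_evalRingHom, C_0, sub_zero] at h3
  exact ⟨s, E1, inferInstance, l, by rw [h1]; exact one_ne_zero, h2, h3⟩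

/-- A neighbourhood of the point with a retraction to a curve. -/
structure Conseq_CD (m : ℕ) (ι : F →+* E) (u : E) (e : E →+* F) {E' E0 : Type u} [CommRing E']
    [CommRing E0] (ρ : E →+* E') (q : E →+* E0) (r : E0 →+* E') (e0 : E0 →+* F) (e' : E' →+* F) :
    Prop where
  ee : EE (RingHom.ker e) ρ
  et : Et1 (q.comp ι) (q u)
  e0q : e0.comp q = e
  e'ρ : e'.comp ρ = e
  e'r : e'.comp r = e0
  ker : RingHom.ker e' = (RingHom.ker e).map ρ
  base : (r.comp q).comp ι = ρ.comp ι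
  coord : r (q u) = ρ u
  rigid : Rigid.{u, v} m (Polynomial.eval₂RingHom ι u) ρ (r.comp q)

section CD

variable {ι : F →+* E} {u : E} {e : E →+* F} {E' E0 E1 E2 : Type u} [CommRing E'] [CommRing E0]
  [CommRing E1] [CommRing E2] {ρ : E →+* E'} {q : E →+* E0} {r : E0 →+* E'} {e0 : E0 →+* F}
  {e' : E' →+* F}

theorem Conseq_CD.ev (h : Conseq_CD.{u, v} m ι u e ρ q r e0 e') :
    (r.comp q).comp (Polynomial.eval₂RingHom ι u) = ρ.comp (Polynomial.eval₂RingHom ι u) := by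
  rw [Conseq_comp_ev, Conseq_comp_ev, h.base, RingHom.comp_apply, h.coord]

/-- Shrinking the curve. -/
theorem Conseq_CD.loc (h : Conseq_CD.{u, v} m ι u e ρ q r e0 e') (he : e.comp ι = RingHom.id F)
    {s : E0} (hs : e0 s ≠ 0) {l : E0 →+* E1} (hl : IsAway l s) :
    ∃ (E'' : Type u) (_ : CommRing E'') (ρ' : E →+* E'') (r' : E1 →+* E'') (e1 : E1 →+* F)
      (e'' : E'' →+* F), Conseq_CD.{u, v} m ι u e ρ' (l.comp q) r' e1 e'' ∧ e1.comp l = e0 := by
  have h1 : e' (r s) = e0 s := RingHom.congr_fun h.e'r s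
  have h2 : ∀ c, e' (ρ (ι c)) = c := fun c =>
    (RingHom.congr_fun h.e'ρ (ι c)).trans (Conseq_apply he c)
  obtain ⟨E'', _, ρ2, hρ2, hA⟩ := exists_ee_isUnit (RingHom.ker e') (r := r s)
    ⟨ρ (ι (e0 s)⁻¹), by
      rw [RingHom.mem_ker, map_sub, map_mul, h1, h2, inv_mul_cancel₀ hs, map_one, sub_self]⟩
  obtain ⟨r', hr'⟩ := hl.exists_lift (ρ2.comp r) hA.isUnit
  obtain ⟨e'', he1, he2⟩ := hρ2.point
  have h3 : (e''.comp r').comp l = e0 := by
    rw [RingHom.comp_assoc, hr', ← RingHom.comp_assoc, he1, h.e'r]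
  have h4 : r'.comp (l.comp q) = ρ2.comp (r.comp q) := by
    rw [← RingHom.comp_assoc, hr', RingHom.comp_assoc]
  refine ⟨E'', inferInstance, ρ2.comp ρ, r', e''.comp r', e'', ⟨?_, ?_, ?_, ?_, rfl, ?_, ?_, ?_, ?_⟩,
    h3⟩
  · exact h.ee.comp (h.ker ▸ hρ2)
  · exact h.et.comp hl.etale
  · rw [← RingHom.comp_assoc, h3, h.e0q]
  · rw [← RingHom.comp_assoc, he1, h.e'ρ]
  · rw [he2, h.ker, Ideal.map_map]
  · rw [h4, RingHom.comp_assoc, h.base, RingHom.comp_assoc]
  · have := RingHom.congr_fun h4 u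
    simp only [RingHom.comp_apply] at this ⊢
    rw [this, h.coord]
  · rw [h4]
    exact h.rigid.comp ρ2

/-- Off the coordinate hyperplane a class agrees with its restriction to the curve. -/
theorem Conseq_CD.map_eq (h : Conseq_CD.{u, v} m ι u e ρ q r e0 e') (P : PT.{u, v} κ m)
    {a : κ →+* F} {l : E →+* Et} (hl : IsAway l u) {ct : κ →+* Et} (hct : (l.comp ι).comp a = ct)
    (τ : E' →+* E2) {k k1 : Et →+* E2} {c2 : κ →+* E2} (hk : k.comp ct = c2)
    (hk1 : k1.comp ct = c2) (hc2 : IndEP c2) (w : k.comp l = τ.comp ρ)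
    (w1 : k1.comp l = τ.comp (r.comp q)) (z : P.obj ct) : P.map k hk z = P.map k1 hk1 z := by
  obtain ⟨G, _, lG, hG⟩ := exists_isAway (X : F[X])
  have hl' : IsAway l (Polynomial.eval₂RingHom ι u X) := by rwa [Conseq_ev_X]
  obtain ⟨ψ, hψ⟩ := hG.exists_lift (l.comp (Polynomial.eval₂RingHom ι u)) hl'.isUnit
  refine h.rigid κ P G Et E2 lG l ψ ((lG.comp C).comp a) ct c2 τ k k1 hk hk1
    (hG.isPO hl' hψ).flip ?_ hc2 w w1 ?_ z
  · rw [← RingHom.comp_assoc, ← RingHom.comp_assoc, hψ, RingHom.comp_assoc _ _ l, Conseq_ev_C, hct]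
  · refine hG.hom_ext ?_
    rw [RingHom.comp_assoc, RingHom.comp_assoc, hψ, ← RingHom.comp_assoc, ← RingHom.comp_assoc,
      w, w1, RingHom.comp_assoc, RingHom.comp_assoc _ (r.comp q), h.ev]

end CD

theorem rigid_point (hm : (m : F) ≠ 0) {ι : F →+* E} (hι : EP ι) {e : E →+* F}
    (he : e.comp ι = RingHom.id F) :
    ∃ (E' : Type u) (_ : CommRing E') (ρ : E →+* E'), EE (RingHom.ker e) ρ ∧
      Rigid.{u, v} m ι ρ ((ρ.comp ι).comp e) := by
  have : IsNoetherianRing E := noeth_of_finiteType hι.finiteType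
  obtain ⟨E', _, ρ, h1, h2⟩ := srn.{u, v} hι (RingHom.ker e) (Conseq_pos hm) (Conseq_inv hm ι _)
    (s0 := RingHom.id E) (s1 := ι.comp e)
    (by rw [RingHom.comp_assoc, he, RingHom.comp_id, RingHom.id_comp])
    (fun y => by
      rw [RingHom.mem_ker, map_sub, RingHom.comp_apply, Conseq_apply he, RingHom.id_apply, sub_self])
  rw [RingHom.comp_id] at h2
  exact ⟨E', inferInstance, ρ, h1, h2⟩

theorem rigid_curve (hm : (m : F) ≠ 0) {ι : F →+* E} {x : σ → E} (hx : EtN ι x) {e : E →+* F}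
    (he : e.comp ι = RingHom.id F) (h0 : ∀ k, e (x k) = 0) (k0 : σ) :
    ∃ (E' : Type u) (_ : CommRing E') (ρ : E →+* E') (E0 : Type u) (_ : CommRing E0) (q : E →+* E0)
      (r : E0 →+* E') (e0 : E0 →+* F) (e' : E' →+* F), EE (RingHom.ker e) ρ ∧
      Et1 (q.comp ι) (q (x k0)) ∧ e0.comp q = e ∧ e'.comp ρ = e ∧ e'.comp r = e0 ∧
      RingHom.ker e' = (RingHom.ker e).map ρ ∧ (r.comp q).comp ι = ρ.comp ι ∧
      r (q (x k0)) = ρ (x k0) ∧
      Rigid.{u, v} m (Polynomial.eval₂RingHom ι (x k0)) ρ (r.comp q) := by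
  have : IsNoetherianRing E := noeth_of_finiteType hx.ep.finiteType
  have hε := hx.etN_erase k0
  obtain ⟨E1, _, ρ1, s', h1, h2, h3, h4⟩ := HL0_etN hε (Polynomial.eval₂RingHom ι (x k0))
    (RingHom.ker e) (Ideal.Quotient.mk _) rfl (fun _ => 0)
    (fun k => by rw [map_zero, Ideal.Quotient.eq_zero_iff_mem]; exact h0 k)
  have : IsNoetherianRing E1 := h1.noeth
  obtain ⟨E', _, ρ2, h5, h6⟩ := srn.{u, v} hε.ep ((RingHom.ker e).map ρ1) (Conseq_pos hm)
    (Conseq_inv hm (ρ1.comp ι) _) (s0 := ρ1) (s1 := s') h2.symm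
    (fun y => by
      rw [← neg_sub]
      exact neg_mem (h4 y y rfl))
  obtain ⟨E0, _, q, hq1, hq2, hq3⟩ := Conseq_curve hx k0
  obtain ⟨r, hr⟩ := hq3 E' (ρ2.comp s') fun k hk => by
    rw [RingHom.comp_apply, h3 ⟨k, hk⟩, map_zero, map_zero]
  obtain ⟨e0, he0⟩ := hq3 F e fun k _ => h0 k
  obtain ⟨e', he1, he2⟩ := (h1.comp h5).point
  refine ⟨E', inferInstance, ρ2.comp ρ1, E0, inferInstance, q, r, e0, e', h1.comp h5, hq1, he0, he1,
    ?_, he2, ?_, ?_, ?_⟩
  · refine RingHom.ext fun y0 => ?_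
    obtain ⟨y, rfl⟩ := hq2 y0
    have a1 : r (q y) = ρ2 (s' y) := RingHom.congr_fun hr y
    have a2 : e0 (q y) = e y := RingHom.congr_fun he0 y
    have a3 : e' (ρ2 (ρ1 y)) = e y := RingHom.congr_fun he1 y
    have a4 : ρ2 (s' y - ρ1 y) ∈ RingHom.ker e' := by
      rw [he2, ← Ideal.map_map]
      exact Ideal.mem_map_of_mem _ (h4 y y rfl)
    rw [RingHom.mem_ker, map_sub, map_sub, a3, sub_eq_zero] at a4
    rw [RingHom.comp_apply, a1, a2, a4]
  · have a1 : s'.comp ι = ρ1.comp ι := by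
      rw [← Conseq_ev_C ι (x k0), ← RingHom.comp_assoc, h2, RingHom.comp_assoc]
    rw [hr, RingHom.comp_assoc, a1, RingHom.comp_assoc]
  · have a1 : r (q (x k0)) = ρ2 (s' (x k0)) := RingHom.congr_fun hr _
    have a2 := RingHom.congr_fun h2 X
    rw [RingHom.comp_apply, RingHom.comp_apply, Conseq_ev_X] at a2
    rw [a1, a2, RingHom.comp_apply]
  · rw [hr]
    exact h6

theorem Conseq_exists_CD (hm : (m : F) ≠ 0) {ι : F →+* E} {x : σ → E} (hx : EtN ι x) {e : E →+* F}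
    (he : e.comp ι = RingHom.id F) (h0 : ∀ k, e (x k) = 0) (k0 : σ) :
    ∃ (E' : Type u) (_ : CommRing E') (ρ : E →+* E') (E0 : Type u) (_ : CommRing E0) (q : E →+* E0)
      (r : E0 →+* E') (e0 : E0 →+* F) (e' : E' →+* F),
      Conseq_CD.{u, v} m ι (x k0) e ρ q r e0 e' := by
  obtain ⟨E', _, ρ, E0, _, q, r, e0, e', h1, h2, h3, h4, h5, h6, h7, h8, h9⟩ :=
    rigid_curve.{u, v} hm hx he h0 k0
  exact ⟨E', inferInstance, ρ, E0, inferInstance, q, r, e0, e', h1, h2, h3, h4, h5, h6, h7, h8, h9⟩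

namespace PT

variable (P : PT.{u, v} κ m)

/-- Every class is constant near a rational point. -/
theorem const_near (hm : (m : F) ≠ 0) {a : κ →+* F} (ha : IndEP a) {ι : F →+* E} (hι : EP ι)
    {e : E →+* F} (he : e.comp ι = RingHom.id F) {c : κ →+* E} (hc : ι.comp a = c)
    (hec : e.comp c = a) :
    ∃ (E' : Type u) (_ : CommRing E') (ρ : E →+* E'), EE (RingHom.ker e) ρ ∧
      ∀ (h : (ρ.comp ι).comp a = ρ.comp c) (y : P.obj c),
        P.map ρ rfl y = P.map (ρ.comp ι) h (P.map e hec y) := by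
  obtain ⟨E', _, ρ, h1, h2⟩ := rigid_point.{u, v} hm hι he
  refine ⟨E', inferInstance, ρ, h1, fun h y => ?_⟩
  have h3 : ((ρ.comp ι).comp e).comp c = ρ.comp c := by rw [RingHom.comp_assoc, hec, h]
  have h4 : IndEP (ρ.comp c) := (hc ▸ ha.comp_ep hι).comp_etale h1.etale
  rw [P.map_comp e (ρ.comp ι) hec h h3]
  exact h2.apply (by rw [RingHom.comp_assoc, he, RingHom.comp_id]) P a hc rfl h3 h4 y

theorem inj_point {a : κ →+* F} (ha : IndEP a) {ι : F →+* E} {x : σ → E} (hx : EtN ι x)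
    {e : E →+* F} (he : e.comp ι = RingHom.id F) (h0 : ∀ k, e (x k) = 0) {f : E}
    (hf : ∀ s, e s ≠ 0 → s * f ≠ 0) {l : E →+* Et} (hl : IsAway l f) {c : κ →+* E} {ct : κ →+* Et}
    (hc : ι.comp a = c) (hct : l.comp c = ct) (hec : e.comp c = a) (y : P.obj c)
    (hy : P.map l hct y = 0) : P.map e hec y = 0 := by
  obtain ⟨E0, _, g, u, e0, k, h1, h2, h3, h4⟩ := curve_through hx he h0 hf
  obtain ⟨Eu, _, l0, hl0⟩ := exists_isAway u
  have h5 : IsUnit ((l0.comp g) f) := by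
    refine isUnit_of_dvd_unit (map_dvd l0 h4) ?_
    rw [map_pow]
    exact hl0.isUnit.pow k
  obtain ⟨d, hd⟩ := hl.exists_lift (l0.comp g) h5
  have h6 : d.comp ct = l0.comp (g.comp c) := by
    rw [← hct, ← RingHom.comp_assoc, hd, RingHom.comp_assoc]
  have h7 : e0.comp (g.comp c) = a := by rw [← RingHom.comp_assoc, h2, hec]
  have h8 := P.a0 ha h1 (e := e0) (by rw [← RingHom.comp_assoc, h2, he]) h3 hl0
    (c := g.comp c) (by rw [RingHom.comp_assoc, hc]) rfl h7 (P.map g rfl y)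
    (by rw [P.map_square g l0 l d rfl rfl hct h6 hd.symm, hy, map_zero])
  rwa [P.map_map g e0 e rfl h7 hec h2] at h8

theorem Inj (hm : (m : F) ≠ 0) {a : κ →+* F} (ha : IndEP a) {ι : F →+* E} {x : σ → E}
    (hx : EtN ι x) {e : E →+* F} (he : e.comp ι = RingHom.id F) (h0 : ∀ k, e (x k) = 0) {f : E}
    (hf : ∀ s, e s ≠ 0 → s * f ≠ 0) {l : E →+* Et} (hl : IsAway l f) {c : κ →+* E} {ct : κ →+* Et}
    (hc : ι.comp a = c) (hct : l.comp c = ct) (y : P.obj c) (hy : P.map l hct y = 0) :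
    ∃ (E' : Type u) (_ : CommRing E') (ρ : E →+* E'), EE (RingHom.ker e) ρ ∧
      P.map ρ (rfl : ρ.comp c = ρ.comp c) y = 0 := by
  have hec : e.comp c = a := by rw [← hc, ← RingHom.comp_assoc, he, RingHom.id_comp]
  obtain ⟨E', _, ρ, h1, h2⟩ := P.const_near hm ha hx.ep he hc hec
  refine ⟨E', inferInstance, ρ, h1, ?_⟩
  rw [h2 (by rw [RingHom.comp_assoc, hc]) y, P.inj_point ha hx he h0 hf hl hc hct hec y hy, map_zero]

theorem VanF.near {P : PT.{u, v} κ m} (hP : P.VanF) (hm : (m : F) ≠ 0) {a : κ →+* F} (ha : IndEP a)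
    {ι : F →+* E} (hι : EP ι) {e : E →+* F} (he : e.comp ι = RingHom.id F) {c : κ →+* E}
    (hc : ι.comp a = c) :
    ∃ (E' : Type u) (_ : CommRing E') (ρ : E →+* E'), EE (RingHom.ker e) ρ ∧
      ∀ y : P.obj c, P.map ρ (rfl : ρ.comp c = ρ.comp c) y = 0 := by
  have hec : e.comp c = a := by rw [← hc, ← RingHom.comp_assoc, he, RingHom.id_comp]
  obtain ⟨E', _, ρ, h1, h2⟩ := P.const_near hm ha hι he hc hec
  refine ⟨E', inferInstance, ρ, h1, fun y => ?_⟩
  rw [h2 (by rw [RingHom.comp_assoc, hc]) y, hP F a ha (P.map e hec y), map_zero]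

theorem VanF.Kp {P : PT.{u, v} κ m} (hP : P.VanF) (hm : (m : F) ≠ 0) {a : κ →+* F} (ha : IndEP a)
    {ι : F →+* E} {x : σ → E} (hx : EtN ι x) {e : E →+* F} (he : e.comp ι = RingHom.id F)
    (h0 : ∀ k, e (x k) = 0) (k0 : σ) {l : E →+* Et} (hl : IsAway l (x k0)) {ct : κ →+* Et}
    (hct : (l.comp ι).comp a = ct) (z : P.obj ct) :
    ∃ (E' : Type u) (_ : CommRing E') (ρ : E →+* E'), EE (RingHom.ker e) ρ ∧
      ∀ (E2 : Type u) [CommRing E2] (l' : E' →+* E2) (k : Et →+* E2) (c2 : κ →+* E2)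
        (hk : k.comp ct = c2), IsAway l' (ρ (x k0)) → k.comp l = l'.comp ρ → P.map k hk z = 0 := by
  obtain ⟨E', _, ρ, E0, _, q, r, e0, e', h⟩ := Conseq_exists_CD.{u, v} hm hx he h0 k0
  obtain ⟨Eu, _, l0, hl0⟩ := exists_isAway (q (x k0))
  obtain ⟨kq, hkq⟩ := hl.exists_lift (l0.comp q) hl0.isUnit
  obtain ⟨K, _, kK, M, hM, hM'⟩ := curve_generic h.et (e := e0)
    (by rw [← RingHom.comp_assoc, h.e0q, he]) ((RingHom.congr_fun h.e0q _).trans (h0 k0)) hl0
  have h1 : IndEP (kq.comp ct) := by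
    have e1 : kq.comp ct = l0.comp ((q.comp ι).comp a) := by
      rw [← hct, ← RingHom.comp_assoc, ← RingHom.comp_assoc, hkq]
      rfl
    rw [e1]
    exact (ha.comp_et1 h.et).comp_etale hl0.etale
  obtain ⟨s, hs, hs'⟩ := P.cont_loc h1 hM rfl (P.map kq rfl z) (hP K _ (h1.comp_isLoc hM) _)
  obtain ⟨s0, hs0, rfl⟩ := hM' s hs
  obtain ⟨E1, _, l1, hl1⟩ := exists_isAway s0
  obtain ⟨E'', _, ρ', r', e1, e'', h', -⟩ := h.loc he hs0 hl1
  refine ⟨E'', inferInstance, ρ', h'.ee, fun E2 _ l' k c2 hk hl' w => ?_⟩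
  have h2 : IsUnit ((l'.comp (r'.comp l1)) (q (x k0))) := by
    have := h'.coord
    simp only [RingHom.comp_apply] at this ⊢
    rw [this]
    exact hl'.isUnit
  obtain ⟨d, hd⟩ := hl0.exists_lift _ h2
  have w1 : (d.comp kq).comp l = l'.comp (r'.comp (l1.comp q)) := by
    rw [RingHom.comp_assoc, hkq, ← RingHom.comp_assoc, hd]
    rfl
  have e2 : c2 = l'.comp (ρ'.comp (ι.comp a)) := by
    rw [← hk, ← hct, ← RingHom.comp_assoc, ← RingHom.comp_assoc, w]
    rfl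
  have hk1 : (d.comp kq).comp ct = c2 := by
    rw [e2, ← hct, ← RingHom.comp_assoc, ← RingHom.comp_assoc, w1, RingHom.comp_assoc ι,
      h'.base]
    rfl
  have h3 : IndEP c2 := by
    rw [e2]
    exact ((ha.comp_etN hx).comp_etale h'.ee.etale).comp_etale hl'.etale
  rw [h'.map_eq P hl hct l' hk hk1 h3 w w1, ← P.map_comp kq d rfl hk1 hk1]
  refine hs' E2 d c2 hk1 ?_
  rw [show d (l0 s0) = l' (r' (l1 s0)) from RingHom.congr_fun hd s0]
  exact (hl1.isUnit.map r').map l'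

theorem K0a (hm : (m : F) ≠ 0) {a : κ →+* F} (ha : IndEP a) {ι : F →+* E} {x : σ → E}
    (hx : EtN ι x) {e : E →+* F} (he : e.comp ι = RingHom.id F) (h0 : ∀ k, e (x k) = 0) (k0 : σ)
    {l : E →+* Et} (hl : IsAway l (x k0)) {lG : F[X] →+* G} (hG : IsAway lG X) {γ : G →+* Et}
    (hγ : γ.comp lG = l.comp (Polynomial.eval₂RingHom ι (x k0))) {cG : κ →+* G} {ct : κ →+* Et}
    (hcG : (lG.comp C).comp a = cG) (hct : γ.comp cG = ct) :
    ∃ (E' : Type u) (_ : CommRing E') (ρ : E →+* E'), EE (RingHom.ker e) ρ ∧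
      ∀ (E2 : Type u) [CommRing E2] (l' : E' →+* E2) (k : Et →+* E2) (c' : κ →+* E') (c2 : κ →+* E2)
        (_ : (ρ.comp ι).comp a = c') (hl' : l'.comp c' = c2) (hk : k.comp ct = c2),
        IsAway l' (ρ (x k0)) → k.comp l = l'.comp ρ → ∀ z : P.obj ct,
          ∃ (α : P.obj cG) (β : P.obj c'),
            P.map k hk z = P.map k hk (P.map γ hct α) + P.map l' hl' β := by
  obtain ⟨E', _, ρ, E0, _, q, r, e0, e', h⟩ := Conseq_exists_CD.{u, v} hm hx he h0 k0
  obtain ⟨s, E1, _, l1, hs, hl1, hE⟩ := Conseq_ee h.et (e := e0)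
    (by rw [← RingHom.comp_assoc, h.e0q, he]) ((RingHom.congr_fun h.e0q _).trans (h0 k0))
  obtain ⟨E'1, _, ρ1, r1, e1, e'1, h1, -⟩ := h.loc he hs hl1
  rw [← Conseq_comp_ev, ← RingHom.comp_assoc] at hE
  have hX : ((l1.comp q).comp (Polynomial.eval₂RingHom ι (x k0))) (RingHom.id F[X] X)
      = (l1.comp q) (x k0) := by
    rw [RingHom.comp_apply, RingHom.id_apply, Conseq_ev_X]
  obtain ⟨Eu, _, lE, hlE⟩ := exists_isAway ((l1.comp q) (x k0))
  obtain ⟨kq, hkq⟩ := hl.exists_lift (lE.comp (l1.comp q)) hlE.isUnit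
  have hct' : (l.comp ι).comp a = ct := by
    rw [← hct, ← hcG, ← RingHom.comp_assoc, ← RingHom.comp_assoc, hγ, RingHom.comp_assoc C _ l,
      Conseq_ev_C]
  have hcω : lE.comp (((l1.comp q).comp ι).comp a) = kq.comp ct := by
    rw [← hct', ← RingHom.comp_assoc _ _ kq, ← RingHom.comp_assoc _ _ kq, hkq]
    rfl
  have hcω' : (kq.comp γ).comp cG = kq.comp ct := by rw [RingHom.comp_assoc, hct]
  obtain ⟨f, hf, hsp⟩ := P.a3 ha (g := 1) irreducible_X isCoprime_one_left (ι := RingHom.id F[X])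
    (isAway_of_bijective Function.bijective_id isUnit_one) (lU := lG) hG hE (lE := lE)
    (by rwa [hX]) (εω := kq.comp γ)
    (by rw [RingHom.comp_assoc, hγ, ← RingHom.comp_assoc, hkq]; rfl)
    (b := (C : F →+* F[X]).comp a) (bω := cG) (c := ((l1.comp q).comp ι).comp a)
    (cω := kq.comp ct) (by rw [RingHom.id_comp]) hcG
    (by rw [← RingHom.comp_assoc, RingHom.comp_assoc C, Conseq_ev_C]) hcω hcω'
  rw [hX] at hf hsp
  have hf0 : e1 f ≠ 0 := by
    obtain ⟨b1, b2, hb⟩ := hf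
    intro h2
    have h3 := congrArg e1 hb
    rw [map_add, map_mul, map_mul, h2, show e1 ((l1.comp q) (x k0)) = 0 from
      (RingHom.congr_fun h1.e0q _).trans (h0 k0), mul_zero, mul_zero, add_zero, map_one] at h3
    exact zero_ne_one h3
  obtain ⟨E3, _, l3, hl3⟩ := exists_isAway f
  obtain ⟨E'3, _, ρ3, r3, e3, e'3, h3, -⟩ := h1.loc he hf0 hl3
  obtain ⟨E4, _, l4, hl4⟩ := exists_isAway (l3 ((l1.comp q) (x k0)))
  obtain ⟨k4, hk4⟩ := hlE.exists_lift (l4.comp l3) hl4.isUnit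
  refine ⟨E'3, inferInstance, ρ3, h3.ee, fun E2 _ l' k c' c2 hc' hl' hk hA w z => ?_⟩
  have h4 : IsUnit ((l'.comp r3) (l3 ((l1.comp q) (x k0)))) := by
    have := h3.coord
    simp only [RingHom.comp_apply] at this ⊢
    rw [this]
    exact hA.isUnit
  obtain ⟨d, hd⟩ := hl4.exists_lift _ h4
  have w1 : (d.comp (k4.comp kq)).comp l = l'.comp (r3.comp (l3.comp (l1.comp q))) := by
    rw [RingHom.comp_assoc, RingHom.comp_assoc, hkq, ← RingHom.comp_assoc _ _ k4, hk4,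
      RingHom.comp_assoc _ _ l4, ← RingHom.comp_assoc _ _ d, hd]
    rfl
  have hr3 : r3.comp (l3.comp (((l1.comp q).comp ι).comp a)) = c' := by
    rw [← hc', ← h3.base]
    rfl
  have hk1 : (d.comp (k4.comp kq)).comp ct = c2 := by
    rw [← hl', ← hr3, ← hct', ← RingHom.comp_assoc, ← RingHom.comp_assoc, w1]
    rfl
  have h5 : IndEP c2 := by
    rw [← hl', ← hc', RingHom.comp_assoc]
    exact ((ha.comp_etN hx).comp_etale h3.ee.etale).comp_etale hA.etale
  have h6 : l4.comp (l3.comp (((l1.comp q).comp ι).comp a)) = k4.comp (kq.comp ct) := by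
    rw [← hcω, ← RingHom.comp_assoc _ lE, hk4]
    rfl
  obtain ⟨α, β, hαβ⟩ := hsp E3 E4 l3 l4 k4 _ _ rfl h6 rfl hl3 hl4 hk4 (P.map kq rfl z)
  refine ⟨α, P.map r3 hr3 β, ?_⟩
  have h7 : d.comp (k4.comp (kq.comp ct)) = c2 := hk1
  have key : ∀ z : P.obj ct, P.map k hk z = P.map d h7 (P.map k4 rfl (P.map kq rfl z)) := fun z => by
    rw [h3.map_eq P hl hct' l' hk hk1 h5 w w1, P.map_comp kq k4 rfl rfl rfl,
      P.map_comp (k4.comp kq) d rfl h7 hk1]
  rw [key, key, hαβ, map_add, P.map_comp γ kq hct rfl hcω', P.map_square l4 d r3 l' h6 h7 hr3 hl' hd]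

theorem K0b {a : κ →+* F} (ha : IndEP a) {ι : F →+* E} {x : σ → E} (hx : EtN ι x) {e : E →+* F}
    (he : e.comp ι = RingHom.id F) (h0 : ∀ k, e (x k) = 0) (k0 : σ) {l : E →+* Et}
    (hl : IsAway l (x k0)) {lG : F[X] →+* G} (hG : IsAway lG X) {γ : G →+* Et}
    (hγ : γ.comp lG = l.comp (Polynomial.eval₂RingHom ι (x k0))) {cG : κ →+* G} {c : κ →+* E}
    {ct : κ →+* Et} (hcG : (lG.comp C).comp a = cG) (hc : ι.comp a = c) (hct : γ.comp cG = ct)
    (hct' : l.comp c = ct) (α : P.obj cG) (β : P.obj c) (h : P.map γ hct α = P.map l hct' β) :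
    ∃ y : P.obj a, P.map (lG.comp C) hcG y = α := by
  obtain ⟨E0, _, q, hq1, -, hq3⟩ := Conseq_curve hx k0
  obtain ⟨e0, he0⟩ := hq3 F e fun k _ => h0 k
  obtain ⟨s, E1, _, l1, -, -, hE⟩ := Conseq_ee hq1 (e := e0)
    (by rw [← RingHom.comp_assoc, he0, he]) ((RingHom.congr_fun he0 _).trans (h0 k0))
  rw [← Conseq_comp_ev, ← RingHom.comp_assoc] at hE
  have hX : ((l1.comp q).comp (Polynomial.eval₂RingHom ι (x k0))) (RingHom.id F[X] X)
      = (l1.comp q) (x k0) := by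
    rw [RingHom.comp_apply, RingHom.id_apply, Conseq_ev_X]
  obtain ⟨Eu, _, lE, hlE⟩ := exists_isAway ((l1.comp q) (x k0))
  obtain ⟨kq, hkq⟩ := hl.exists_lift (lE.comp (l1.comp q)) hlE.isUnit
  have hcω : lE.comp ((l1.comp q).comp c) = kq.comp ct := by
    rw [← hct', ← RingHom.comp_assoc _ _ kq, hkq]
    rfl
  have hcω' : (kq.comp γ).comp cG = kq.comp ct := by rw [RingHom.comp_assoc, hct]
  obtain ⟨y1, hy1⟩ := P.a2 ha (g := 1) irreducible_X isCoprime_one_left (ι := RingHom.id F[X])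
    (isAway_of_bijective Function.bijective_id isUnit_one) (lU := lG) hG hE (lE := lE)
    (by rwa [hX]) (εω := kq.comp γ)
    (by rw [RingHom.comp_assoc, hγ, ← RingHom.comp_assoc, hkq]; rfl)
    (b := (C : F →+* F[X]).comp a) (bω := cG) (c := (l1.comp q).comp c)
    (cω := kq.comp ct) (by rw [RingHom.id_comp]) hcG
    (by rw [← RingHom.comp_assoc, RingHom.comp_assoc C, Conseq_ev_C, RingHom.comp_assoc, hc])
    hcω hcω' α (P.map (l1.comp q) rfl β)
    (by rw [← P.map_comp γ kq hct rfl hcω', h, P.map_square l kq (l1.comp q) lE hct' rfl rfl hcω hkq])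
  obtain ⟨y, rfl⟩ := P.hinv ha y1
  exact ⟨y, by rw [← hy1, P.map_comp C lG rfl hcG hcG]⟩

end PT

end KEW
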