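import Pool.Agent.P.MP_6277db_ag.KEW.CA.Defs

/-!
KEW project, layer L5: pretheories.  A `κ`-algebra is a ring homomorphism `a : κ →+* R`.
-/

namespace KEW

universe u v

open Polynomial

/-- Admissible transfer datum: `R` is `IndEP` over `κ`, `Y` is etale over `R[u]` and `Y ⧸ σ` is finite
over `R`. -/
structure Adm {κ R Y : Type u} [CommRing κ] [CommRing R] [CommRing Y] (a : κ →+* R)
    (φ : R →+* Y) (u σ : Y) : Prop where
  ind : IndEP a
  et : Et1 φ u
  fin : FinMod φ (Ideal.span {σ})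

/-- An `m`-torsion, continuous, homotopy invariant pretheory over `κ`. -/
structure PT (κ : Type u) [CommRing κ] (m : ℕ) where
  obj : ∀ {R : Type u} [CommRing R], (κ →+* R) → Type v
  [grp : ∀ {R : Type u} [CommRing R] (a : κ →+* R), AddCommGroup (obj a)]
  map : ∀ {R S : Type u} [CommRing R] [CommRing S] {a : κ →+* R} {b : κ →+* S} (f : R →+* S),
    f.comp a = b → obj a →+ obj b
  map_id : ∀ {R : Type u} [CommRing R] {a : κ →+* R} (h : (RingHom.id R).comp a = a) (x : obj a),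
    map (RingHom.id R) h x = x
  map_comp : ∀ {R S T : Type u} [CommRing R] [CommRing S] [CommRing T] {a : κ →+* R} {b : κ →+* S}
    {c : κ →+* T} (f : R →+* S) (g : S →+* T) (hf : f.comp a = b) (hg : g.comp b = c)
    (h : (g.comp f).comp a = c) (x : obj a), map g hg (map f hf x) = map (g.comp f) h x
  tors : ∀ {R : Type u} [CommRing R] {a : κ →+* R} (x : obj a), m • x = 0
  hinv : ∀ {R : Type u} [CommRing R] {a : κ →+* R}, IndEP a →
    ∀ y : obj ((C : R →+* R[X]).comp a), ∃ x : obj a, map (C : R →+* R[X]) rfl x = y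
  cont_surj : ∀ {R : Type u} [CommRing R] {a : κ →+* R}, IndEP a → ∀ x : obj a,
    ∃ (B : Type u) (_ : CommRing B) (β : κ →+* B) (f : B →+* R) (h : f.comp β = a) (y : obj β),
      EP β ∧ map f h y = x
  cont_inj : ∀ {B R : Type u} [CommRing B] [CommRing R] {β : κ →+* B} {a : κ →+* R} (f : B →+* R)
    (h : f.comp β = a) (y : obj β), IndEP a → EP β → map f h y = 0 →
    ∃ (B' : Type u) (_ : CommRing B') (g : B →+* B') (f' : B' →+* R),
      EP (g.comp β) ∧ f'.comp g = f ∧ map g (rfl : g.comp β = g.comp β) y = 0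
  tr : ∀ {R Y : Type u} [CommRing R] [CommRing Y] {a : κ →+* R} {b : κ →+* Y} (φ : R →+* Y),
    φ.comp a = b → Y → Y → obj b →+ obj a
  /-- base change and change of the neighbourhood of the zero locus, in one axiom -/
  tr_bc : ∀ {R Y R' Y' : Type u} [CommRing R] [CommRing Y] [CommRing R'] [CommRing Y']
    {a : κ →+* R} {b : κ →+* Y} {a' : κ →+* R'} {b' : κ →+* Y'}
    (φ : R →+* Y) (φ' : R' →+* Y') (f : R →+* R') (g : Y →+* Y')
    (hφ : φ.comp a = b) (hφ' : φ'.comp a' = b') (hf : f.comp a = a') (hg : g.comp b = b')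
    {u σ : Y} {u' σ' : Y'} (_ : g.comp φ = φ'.comp f) (_ : g u = u') (hσ : g σ = σ'),
    Adm a φ u σ → Adm a' φ' u' σ' →
    IsPO ((Ideal.Quotient.mk (Ideal.span {σ})).comp φ) f (qmap g hσ)
      ((Ideal.Quotient.mk (Ideal.span {σ'})).comp φ') →
    ∀ x : obj b, tr φ' hφ' u' σ' (map g hg x) = map f hf (tr φ hφ u σ x)
  tr_add : ∀ {R Y : Type u} [CommRing R] [CommRing Y] {a : κ →+* R} {b : κ →+* Y} (φ : R →+* Y)
    (hφ : φ.comp a = b) {u σ σ' : Y}, Adm a φ u σ → Adm a φ u σ' →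
    ∀ x : obj b, tr φ hφ u (σ * σ') x = tr φ hφ u σ x + tr φ hφ u σ' x
  tr_sec : ∀ {R Y : Type u} [CommRing R] [CommRing Y] {a : κ →+* R} {b : κ →+* Y} (φ : R →+* Y)
    (hφ : φ.comp a = b) {u σ : Y} (s : Y →+* R) (hs : s.comp b = a), Adm a φ u σ →
    s.comp φ = RingHom.id R → RingHom.ker s = Ideal.span {σ} →
    ∀ x : obj b, tr φ hφ u σ x = map s hs x
  /-- norm rule for a monogenic finite free `Y0`-algebra -/
  tr_push : ∀ {R Y0 Y : Type u} [CommRing R] [CommRing Y0] [CommRing Y]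
    {a : κ →+* R} {b0 : κ →+* Y0} {b : κ →+* Y} (φ : R →+* Y0) (p : Y0[X]) (Q σ : AdjoinRoot p)
    (j : AdjoinRoot p →+* Y) (hφ : φ.comp a = b0) (hj : (j.comp (AdjoinRoot.of p)).comp b0 = b)
    (h : ((j.comp (AdjoinRoot.of p)).comp φ).comp a = b) {u : Y0},
    p.Monic → IsAway j Q → IsCoprime σ Q → Adm a φ u (Algebra.norm Y0 σ) →
    Adm a ((j.comp (AdjoinRoot.of p)).comp φ) (j (AdjoinRoot.of p u)) (j σ) →
    ∀ x : obj b0, tr ((j.comp (AdjoinRoot.of p)).comp φ) h (j (AdjoinRoot.of p u)) (j σ)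
      (map (j.comp (AdjoinRoot.of p)) hj x) = tr φ hφ u (Algebra.norm Y0 σ) x

instance PT.instGrp {κ : Type u} [CommRing κ] {m : ℕ} (P : PT.{u, v} κ m) {R : Type u} [CommRing R]
    (a : κ →+* R) : AddCommGroup (P.obj a) := P.grp a

/-- The pretheory vanishes on `IndEP` fields. -/
def PT.VanF {κ : Type u} [CommRing κ] {m : ℕ} (P : PT.{u, v} κ m) : Prop :=
  ∀ (K : Type u) [Field K] (a : κ →+* K), IndEP a → ∀ x : P.obj a, x = 0

/-- Two `C`-maps `s0 s1 : E → R` act in the same way on every `m`-torsion pretheory, after any base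
change `C → C'` and on any `IndEP` ring `T` over `R`. -/
def Rigid (m : ℕ) {C E R : Type u} [CommRing C] [CommRing E] [CommRing R] (ε : C →+* E)
    (s0 s1 : E →+* R) : Prop :=
  ∀ (κ : Type u) [CommRing κ] (P : PT.{u, v} κ m) (C' Y T : Type u) [CommRing C'] [CommRing Y]
    [CommRing T] (γ : C →+* C') (j : E →+* Y) (ψ : C' →+* Y) (c : κ →+* C') (y : κ →+* Y)
    (t : κ →+* T) (τ : R →+* T) (a0 a1 : Y →+* T) (h0 : a0.comp y = t) (h1 : a1.comp y = t),
    IsPO ε γ j ψ → ψ.comp c = y → IndEP t → a0.comp j = τ.comp s0 → a1.comp j = τ.comp s1 →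
    a0.comp ψ = a1.comp ψ → ∀ x : P.obj y, P.map a0 h0 x = P.map a1 h1 x

end KEW
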