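import Pool.Agent.P.MP_6277db_ag.KEW.PT.A1
import Pool.Agent.P.MP_6277db_ag.KEW.L7.Lau

/-!
KEW L5: the pretheory `P^G (R) = P (R[t, 1/t])`.
Hints.  `isPO_lau`: `isPO_polynomial` and `IsAway.isPO`, pasted.  `G_hinv`: `hinv_po` for the flip of `isPO_lau C`.
`G_cont_surj`: `cont_surj` for `Lau R`, then `desc_map` for the square `isPO_lau a` (`B = κ`, `Y0 = Lau κ`), and identify the stage `Y'` with
`Lau B'` by `IsPO.exists_equiv`; `G_cont_inj` in the same way with `Y0 = Lau B`.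
`G_tr_bc`: both vertical faces are base changes along `lauC`; `IsPO.qmap`, `paste`, `cancel`.
`G_tr_push`: apply `tr_push` to `p.map (lauC Y0)`, `amap`, and the map `j' : AdjoinRoot (p.map _) → Lau Y` from
`(isPO_adjoinRoot _ p).exists_lift`; `IsPO.isAway`, `norm_amap`.
-/

namespace KEW

universe u v

open Polynomial

variable {κ R S T Y Y0 R' Y' B : Type u} [CommRing κ] [CommRing R] [CommRing S] [CommRing T]
  [CommRing Y] [CommRing Y0] [CommRing R'] [CommRing Y'] [CommRing B] {m : ℕ}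

theorem isPO_lau (f : R →+* S) : IsPO f (lauC R) (lauC S) (lauMap f) := by
  have h1 : IsAway (lauL S) (mapRingHom f X) := by
    rw [coe_mapRingHom, map_X]
    exact isAway_lauL S
  exact ((isPO_polynomial f).paste' ((isAway_lauL R).isPO h1 (lauMap_lauL f))).flip

theorem et1_lauC (R : Type u) [CommRing R] : Et1 (lauC R) (lauL R X) :=
  et1_of_etale (isAway_lauL R).etale

theorem IndEP.lau {a : κ →+* R} (h : IndEP a) : IndEP ((lauC R).comp a) :=
  h.comp_et1 (et1_lauC R)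

theorem Adm.lau {a : κ →+* R} {φ : R →+* Y} {u σ : Y} (h : Adm a φ u σ) :
    Adm ((lauC R).comp a) (lauMap φ) (lauC Y u) (lauC Y σ) :=
  h.baseChange (isPO_lau φ) h.ind.lau

theorem G_lauMap_apply (f : R →+* S) (r : R) : lauMap f (lauC R r) = lauC S (f r) :=
  RingHom.congr_fun (lauMap_lauC f) r

/-- A map from a finitely presented algebra to `R[t, 1/t]` descends to some `B'[t, 1/t]`. -/
theorem G_desc {β : κ →+* B} {f : B →+* R} (hR : IndEP (f.comp β)) (hβ : β.FinitePresentation)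
    {D0 D : Type u} [CommRing D0] [CommRing D] (d0 : D0 →+* Lau B) {δ : D0 →+* D}
    (hδ : δ.FinitePresentation) (w : D →+* Lau R) (hw : w.comp δ = (lauMap f).comp d0) :
    ∃ (B' : Type u) (_ : CommRing B') (g : B →+* B') (f' : B' →+* R) (w' : D →+* Lau B'),
      EP (g.comp β) ∧ f'.comp g = f ∧ (lauMap f').comp w' = w ∧
        w'.comp δ = (lauMap g).comp d0 := by
  obtain ⟨B', _, Y', _, g, f', φ', ξ1, ξ2, hs, w', h1, h2⟩ :=
    desc_map hR hβ (isPO_lau f).flip d0 hδ w hw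
  obtain ⟨e, e1, e2⟩ := hs.po1.exists_lift (lauMap g) (lauC B') (lauMap_lauC g)
  have h3 : (lauMap f').comp e = ξ2 := by
    refine hs.po1.hom_ext ?_ ?_
    · rw [RingHom.comp_assoc, e1, lauMap_comp, hs.fac, hs.fac2]
    · rw [RingHom.comp_assoc, e2, lauMap_lauC, hs.po2.comm]
  refine ⟨B', inferInstance, g, f', e.comp w', hs.ep, hs.fac, ?_, ?_⟩
  · rw [← RingHom.comp_assoc, h3, h1]
  · rw [RingHom.comp_assoc, h2, ← RingHom.comp_assoc, e1]

namespace PT

variable (P : PT.{u, v} κ m)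

theorem G_map_id {a : κ →+* R} (h : (RingHom.id R).comp a = a) (x : P.obj ((lauC R).comp a)) :
    P.map (lauMap (RingHom.id R)) (lauMap_over _ h) x = x :=
  (P.map_congr (lauMap_id R) _ (RingHom.id_comp _) x).trans (P.map_id _ x)

theorem G_map_comp {a : κ →+* R} {b : κ →+* S} {c : κ →+* T} (f : R →+* S) (g : S →+* T)
    (hf : f.comp a = b) (hg : g.comp b = c) (h : (g.comp f).comp a = c)
    (x : P.obj ((lauC R).comp a)) :
    P.map (lauMap g) (lauMap_over _ hg) (P.map (lauMap f) (lauMap_over _ hf) x) =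
      P.map (lauMap (g.comp f)) (lauMap_over _ h) x :=
  P.map_map _ _ _ _ _ _ (lauMap_comp f g) x

theorem G_hinv {a : κ →+* R} (ha : IndEP a)
    (y : P.obj ((lauC R[X]).comp ((C : R →+* R[X]).comp a))) :
    ∃ x : P.obj ((lauC R).comp a), P.map (lauMap (C : R →+* R[X])) (lauMap_over _ rfl) x = y :=
  (P.hinv_po ha.lau (isPO_lau (C : R →+* R[X])) (lauMap_over _ rfl)).2 y

theorem G_cont_surj {a : κ →+* R} (ha : IndEP a) (x : P.obj ((lauC R).comp a)) :
    ∃ (B : Type u) (_ : CommRing B) (β : κ →+* B) (f : B →+* R) (h : f.comp β = a)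
      (y : P.obj ((lauC B).comp β)), EP β ∧ P.map (lauMap f) (lauMap_over _ h) y = x := by
  obtain ⟨D, _, δ, w, hw, y, hδ, rfl⟩ := P.cont_surj ha.lau x
  obtain ⟨B', _, g, f', w', h1, h2, h3, h4⟩ :=
    G_desc (β := RingHom.id κ) (f := a) ha ep_id.finitePresentation (lauC κ)
      hδ.finitePresentation w (hw.trans (lauMap_lauC a).symm)
  refine ⟨B', inferInstance, g, f', h2, P.map w' (h4.trans (lauMap_lauC g)) y, h1, ?_⟩
  exact P.map_map _ _ _ _ _ _ h3 y

theorem G_cont_inj {β : κ →+* B} {a : κ →+* R} (f : B →+* R) (h : f.comp β = a)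
    (y : P.obj ((lauC B).comp β)) (ha : IndEP a) (hβ : EP β)
    (hy : P.map (lauMap f) (lauMap_over _ h) y = 0) :
    ∃ (B' : Type u) (_ : CommRing B') (g : B →+* B') (f' : B' →+* R), EP (g.comp β) ∧
      f'.comp g = f ∧ P.map (lauMap g) (lauMap_over _ (rfl : g.comp β = g.comp β)) y = 0 := by
  have hB : EP ((lauC B).comp β) := hβ.comp (et1_lauC B).ep
  obtain ⟨D, _, δ, w, hδ, hw, hz⟩ := P.cont_inj (lauMap f) (lauMap_over _ h) y ha.lau hB hy
  have hδ' : δ.FinitePresentation :=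
    RingHom.FinitePresentation.of_comp_finiteType _ hδ.finitePresentation hB.finiteType
  obtain ⟨B', _, g, f', w', h1, h2, -, h4⟩ :=
    G_desc (h ▸ ha : IndEP (f.comp β)) hβ.finitePresentation (RingHom.id (Lau B)) hδ' w hw
  have h5 : w'.comp δ = lauMap g := h4
  refine ⟨B', inferInstance, g, f', h1, h2, ?_⟩
  have h6 : w'.comp (δ.comp ((lauC B).comp β)) = (lauC B').comp (g.comp β) := by
    rw [← RingHom.comp_assoc, h5]
    exact lauMap_over g rfl
  rw [← P.map_map δ w' (lauMap g) rfl h6 _ h5 y, hz, map_zero]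

theorem G_tr_bc {a : κ →+* R} {b : κ →+* Y} {a' : κ →+* R'} {b' : κ →+* Y'}
    (φ : R →+* Y) (φ' : R' →+* Y') (f : R →+* R') (g : Y →+* Y')
    (hφ : φ.comp a = b) (hφ' : φ'.comp a' = b') (hf : f.comp a = a') (hg : g.comp b = b')
    {u σ : Y} {u' σ' : Y'} (w : g.comp φ = φ'.comp f) (hu : g u = u') (hσ : g σ = σ')
    (h : Adm a φ u σ) (h' : Adm a' φ' u' σ')
    (hpo : IsPO ((Ideal.Quotient.mk (Ideal.span {σ})).comp φ) f (qmap g hσ)
      ((Ideal.Quotient.mk (Ideal.span {σ'})).comp φ')) (x : P.obj ((lauC Y).comp b)) :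
    P.tr (lauMap φ') (lauMap_over _ hφ') (lauC Y' u') (lauC Y' σ')
        (P.map (lauMap g) (lauMap_over _ hg) x) =
      P.map (lauMap f) (lauMap_over _ hf)
        (P.tr (lauMap φ) (lauMap_over _ hφ) (lauC Y u) (lauC Y σ) x) := by
  have w' : (lauMap g).comp (lauMap φ) = (lauMap φ').comp (lauMap f) := by
    rw [lauMap_comp, lauMap_comp, w]
  have hu' : lauMap g (lauC Y u) = lauC Y' u' := by rw [G_lauMap_apply, hu]
  have hσ' : lauMap g (lauC Y σ) = lauC Y' σ' := by rw [G_lauMap_apply, hσ]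
  refine P.tr_bc _ _ _ _ _ _ _ _ w' hu' hσ' h.lau h'.lau ?_ x
  have A := (isPO_lau φ).qmap (rfl : lauC Y σ = lauC Y σ)
  have A' := hpo.paste ((isPO_lau φ').qmap (rfl : lauC Y' σ' = lauC Y' σ'))
  have e : (qmap (lauMap g) hσ').comp (qmap (lauC Y) (rfl : lauC Y σ = lauC Y σ)) =
      (qmap (lauC Y') (rfl : lauC Y' σ' = lauC Y' σ')).comp (qmap g hσ) := by
    refine Ideal.Quotient.ringHom_ext (RingHom.ext fun y => ?_)
    simp only [RingHom.comp_apply, qmap_mk, G_lauMap_apply]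
  refine A.cancel ?_ ?_
  · refine RingHom.ext fun z => ?_
    have := RingHom.congr_fun w' z
    simp only [RingHom.comp_apply] at this
    simp only [RingHom.comp_apply, qmap_mk, this]
  · rw [lauMap_lauC, e]
    exact A'

theorem G_tr_add {a : κ →+* R} {b : κ →+* Y} (φ : R →+* Y) (hφ : φ.comp a = b) {u σ σ' : Y}
    (h : Adm a φ u σ) (h' : Adm a φ u σ') (x : P.obj ((lauC Y).comp b)) :
    P.tr (lauMap φ) (lauMap_over _ hφ) (lauC Y u) (lauC Y (σ * σ')) x =
      P.tr (lauMap φ) (lauMap_over _ hφ) (lauC Y u) (lauC Y σ) x +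
        P.tr (lauMap φ) (lauMap_over _ hφ) (lauC Y u) (lauC Y σ') x := by
  rw [map_mul]
  exact P.tr_add _ _ h.lau h'.lau x

theorem G_tr_sec {a : κ →+* R} {b : κ →+* Y} (φ : R →+* Y) (hφ : φ.comp a = b) {u σ : Y}
    (s : Y →+* R) (hs : s.comp b = a) (h : Adm a φ u σ) (h1 : s.comp φ = RingHom.id R)
    (h2 : RingHom.ker s = Ideal.span {σ}) (x : P.obj ((lauC Y).comp b)) :
    P.tr (lauMap φ) (lauMap_over _ hφ) (lauC Y u) (lauC Y σ) x =
      P.map (lauMap s) (lauMap_over _ hs) x := by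
  have hs' : Function.Surjective s := fun r => ⟨φ r, RingHom.congr_fun h1 r⟩
  refine P.tr_sec _ _ _ _ h.lau ?_ ?_ x
  · rw [lauMap_comp, h1, lauMap_id]
  · rw [(isPO_lau s).ker_eq hs', h2, Ideal.map_span, Set.image_singleton]

theorem G_tr_push {a : κ →+* R} {b0 : κ →+* Y0} {b : κ →+* Y} (φ : R →+* Y0) (p : Y0[X])
    (Q σ : AdjoinRoot p) (j : AdjoinRoot p →+* Y) (hφ : φ.comp a = b0)
    (hj : (j.comp (AdjoinRoot.of p)).comp b0 = b)
    (h : ((j.comp (AdjoinRoot.of p)).comp φ).comp a = b) {u : Y0} (hp : p.Monic) (hQ : IsAway j Q)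
    (hc : IsCoprime σ Q) (h1 : Adm a φ u (Algebra.norm Y0 σ))
    (h2 : Adm a ((j.comp (AdjoinRoot.of p)).comp φ) (j (AdjoinRoot.of p u)) (j σ))
    (x : P.obj ((lauC Y0).comp b0)) :
    P.tr (lauMap ((j.comp (AdjoinRoot.of p)).comp φ)) (lauMap_over _ h)
        (lauC Y (j (AdjoinRoot.of p u))) (lauC Y (j σ))
        (P.map (lauMap (j.comp (AdjoinRoot.of p))) (lauMap_over _ hj) x) =
      P.tr (lauMap φ) (lauMap_over _ hφ) (lauC Y0 u) (lauC Y0 (Algebra.norm Y0 σ)) x := by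
  obtain ⟨j', e1, e2⟩ := (isPO_adjoinRoot (lauC Y0) p).exists_lift ((lauC Y).comp j)
    (lauMap (j.comp (AdjoinRoot.of p))) (lauMap_lauC (j.comp (AdjoinRoot.of p))).symm
  have hpo : IsPO j (amap (lauC Y0) p) (lauC Y) j' := by
    refine (isPO_adjoinRoot (lauC Y0) p).cancel' e1.symm ?_
    rw [e2]
    exact isPO_lau _
  have e3 : (j'.comp (AdjoinRoot.of (p.map (lauC Y0)))).comp (lauMap φ) =
      lauMap ((j.comp (AdjoinRoot.of p)).comp φ) := by rw [e2, lauMap_comp]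
  have e4 : j' (AdjoinRoot.of (p.map (lauC Y0)) (lauC Y0 u)) = lauC Y (j (AdjoinRoot.of p u)) := by
    rw [← amap_of]
    exact RingHom.congr_fun e1 _
  have e5 : j' (amap (lauC Y0) p σ) = lauC Y (j σ) := RingHom.congr_fun e1 σ
  have e6 := norm_amap (lauC Y0) hp σ
  have hj' : (j'.comp (AdjoinRoot.of (p.map (lauC Y0)))).comp ((lauC Y0).comp b0) =
      (lauC Y).comp b := by
    rw [e2]
    exact lauMap_over _ hj
  have h' : ((j'.comp (AdjoinRoot.of (p.map (lauC Y0)))).comp (lauMap φ)).comp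
      ((lauC R).comp a) = (lauC Y).comp b := by
    rw [e3]
    exact lauMap_over _ h
  have H := P.tr_push (lauMap φ) (p.map (lauC Y0)) (amap (lauC Y0) p Q) (amap (lauC Y0) p σ) j'
    (lauMap_over _ hφ) hj' h' (u := lauC Y0 u) (hp.map _) (hpo.isAway hQ) (hc.map _)
    (by rw [e6]; exact h1.lau) (by rw [e3, e4, e5]; exact h2.lau) x
  rw [e4, e5, e6, P.tr_congr e3 h' (lauMap_over _ h), P.map_congr e2 hj' (lauMap_over _ hj)] at H
  exact H

/-- The pretheory `R ↦ P (R[t, 1/t])`. -/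
noncomputable def G : PT.{u, v} κ m where
  obj a := P.obj ((lauC _).comp a)
  grp a := P.grp _
  map f h := P.map (lauMap f) (lauMap_over f h)
  map_id h x := P.G_map_id h x
  map_comp f g hf hg h x := P.G_map_comp f g hf hg h x
  tors x := P.tors x
  hinv ha y := P.G_hinv ha y
  cont_surj ha x := P.G_cont_surj ha x
  cont_inj f h y ha hβ hy := P.G_cont_inj f h y ha hβ hy
  tr φ h u σ := P.tr (lauMap φ) (lauMap_over φ h) (lauC _ u) (lauC _ σ)
  tr_bc φ φ' f g hφ hφ' hf hg _ _ _ _ w hu hσ h h' hpo x :=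
    P.G_tr_bc φ φ' f g hφ hφ' hf hg w hu hσ h h' hpo x
  tr_add φ hφ _ _ _ h h' x := P.G_tr_add φ hφ h h' x
  tr_sec φ hφ _ _ s hs h h1 h2 x := P.G_tr_sec φ hφ s hs h h1 h2 x
  tr_push φ p Q σ j hφ hj h _ hp hQ hc h1 h2 x := P.G_tr_push φ p Q σ j hφ hj h hp hQ hc h1 h2 x

theorem VanF.G {P : PT.{u, v} κ m} (hP : P.VanF) : P.G.VanF :=
  fun K _ _ ha x => hP.line ha (isAway_lauL K) rfl x

end PT

end KEW
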