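import Pool.Agent.P.MP_6277db_ag.KEW.PT.Api

/-!
KEW L5.1, L5.2: Suslin rigidity.
Hints.  `tr_factor`: `sec_loc` for `T[X] → Y`, `π = AdjoinRoot.mk ω` gives `e` with `θ e = 1`, `e ker θ ⊆ (ω(u))`.  On
`Y1 = Y[1/e]` (`tr_away`; `e ≡ 1` mod `ker θ = (Φ)`) one has `(Φ) = (ω(u))`, and `ω(u)` is a nonzerodivisor
(`Et1.monic_regular`), so `Φ = unit * (u - c) * q(u)^m`; `ker (t1 ∘ θ1) = (u - c)` on `Y1`; `tr_add`, `tr_pow`, `tors`.
`sr_one`: `E2 = E ⊗_C R` (`exists_isPO`), `u2 = u - s0 u` (`IsPO.et1`, `Et1.sub_const`), `sr_core`; for `T`, `τ` get `Y2` and the map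
`Y → Y2` from `IsPO.exists_lift` (on `C'` it is `ψ2 ∘ a0 ∘ ψ`); `map t0 = (m e0 + 1) • map t0 = tr (u^M) = tr Φ = map (t1 ∘ θ)`.
`Rigid.of_factor`: `C2' = C2 ⊗_C C'`, `IsPO.cancel'`.  `Rigid.trans`: build the middle map with `IsPO.exists_lift`.
`srn`: induction on the number of coordinates (`Finite.induction_empty_option` or `Fin n`), for all `C`: the intermediate map (by
`HL0_etN`) has the coordinate `k0` of `s1` and the other coordinates of `s0`; use `EtN.et1`, `EtN.etN_erase`,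
`sr_one`, the induction hypothesis, `UL_mod` for the empty case.
-/

namespace KEW

universe u v

open Polynomial

variable {κ C0 C2 E R R' T Y : Type u} [CommRing κ] [CommRing C0] [CommRing C2] [CommRing E]
  [CommRing R] [CommRing R'] [CommRing T] [CommRing Y] {m : ℕ}

/-- Two generators of the same ideal differ by a unit when one of them is a nonzerodivisor. -/
theorem SR0_unit {Φ W : Y} (h : Ideal.span {Φ} = Ideal.span {W}) (hW : ∀ y, W * y = 0 → y = 0) :
    ∃ w : Y, IsUnit w ∧ Φ = w * W := by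
  obtain ⟨w, hw⟩ := Ideal.mem_span_singleton'.1 (h ▸ Ideal.mem_span_singleton_self Φ)
  obtain ⟨w', hw'⟩ := Ideal.mem_span_singleton'.1 (h.symm ▸ Ideal.mem_span_singleton_self W)
  have h1 : 1 - w * w' = 0 := hW _ (by linear_combination -hw' - w' * hw)
  exact ⟨w, IsUnit.of_mul_eq_one w' (by linear_combination -h1), hw.symm⟩

/-- The case where the kernel is generated by `ω(u)`. -/
theorem SR0_core (P : PT.{u, v} κ m) {a : κ →+* T} {b : κ →+* Y} {ψ : T →+* Y}
    (hψ : ψ.comp a = b) (ha : IndEP a) {u : Y} (hu : Et1 ψ u) {c : T} {q ω : T[X]} (hq : q.Monic)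
    (hω : ω = (X - C c) * q ^ m) (θ : Y →+* AdjoinRoot ω) (t1 : AdjoinRoot ω →+* T)
    (h1 : θ.comp ψ = AdjoinRoot.of ω) (h2 : θ u = AdjoinRoot.root ω)
    (h3 : RingHom.ker θ = Ideal.span {ω.eval₂ ψ u})
    (h4 : t1.comp (AdjoinRoot.of ω) = RingHom.id T)
    (h5 : t1 (AdjoinRoot.root ω) = c) (ht : (t1.comp θ).comp b = a) (x : P.obj b) :
    Adm a ψ u (ω.eval₂ ψ u) ∧ P.tr ψ hψ u (ω.eval₂ ψ u) x = P.map (t1.comp θ) ht x := by
  have hm : ω.Monic := by
    rw [hω]
    exact (monic_X_sub_C c).mul (hq.pow m)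
  have w : θ.comp (eval₂RingHom ψ u) = AdjoinRoot.mk ω := by
    refine Polynomial.ringHom_ext (fun r => ?_) ?_
    · simpa using RingHom.congr_fun h1 r
    · simpa using h2
  have w' : ∀ p : T[X], θ (p.eval₂ ψ u) = AdjoinRoot.mk ω p := fun p => RingHom.congr_fun w p
  have hθ : Function.Surjective θ := fun z => by
    obtain ⟨p, rfl⟩ := AdjoinRoot.mk_surjective z
    exact ⟨_, w' p⟩
  have hA : Adm a ψ u (ω.eval₂ ψ u) := by
    refine ⟨ha, hu, ?_⟩
    rw [← h3]
    refine finMod_ker hθ ?_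
    rw [h1]
    exact finite_adjoinRoot_of hm
  have he : ω.eval₂ ψ u = (u - ψ c) * q.eval₂ ψ u ^ m := by
    rw [hω, eval₂_mul, eval₂_sub, eval₂_X, eval₂_C, eval₂_pow]
  have hev : t1.comp (AdjoinRoot.mk ω) = evalRingHom c := by
    refine Polynomial.ringHom_ext (fun r => ?_) ?_
    · simpa using RingHom.congr_fun h4 r
    · simpa using h5
  have hs : (t1.comp θ).comp ψ = RingHom.id T := by rw [RingHom.comp_assoc, h1, h4]
  have hker : RingHom.ker (t1.comp θ) = Ideal.span {u - ψ c} := by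
    apply le_antisymm
    · intro y hy
      obtain ⟨p, hp⟩ := AdjoinRoot.mk_surjective (θ y)
      have h6 : y - p.eval₂ ψ u ∈ RingHom.ker θ := by
        rw [RingHom.mem_ker, map_sub, w', hp, sub_self]
      have h7 : p.eval c = 0 := by
        have h8 := RingHom.congr_fun hev p
        rw [RingHom.comp_apply, hp] at h8
        exact h8.symm.trans hy
      obtain ⟨p', rfl⟩ := dvd_iff_isRoot.2 h7
      rw [h3, he, Ideal.mem_span_singleton'] at h6
      obtain ⟨z, hz⟩ := h6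
      rw [eval₂_mul, eval₂_sub, eval₂_X, eval₂_C] at hz
      exact Ideal.mem_span_singleton'.2
        ⟨z * q.eval₂ ψ u ^ m + p'.eval₂ ψ u, by linear_combination hz⟩
    · rw [Ideal.span_le, Set.singleton_subset_iff, SetLike.mem_coe, RingHom.mem_ker, map_sub,
        RingHom.comp_apply, h2, h5]
      exact sub_eq_zero.2 (RingHom.congr_fun hs c).symm
  refine ⟨hA, ?_⟩
  rw [he] at hA ⊢
  have h0 : P.tr ψ hψ u (q.eval₂ ψ u ^ m) x = 0 := by
    rcases Nat.eq_zero_or_pos m with h | h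
    · exact P.tr_unit hψ ha hu (by rw [h, pow_zero]; exact isUnit_one) x
    · rw [P.tr_pow hψ (hA.of_dvd ((dvd_pow_self _ h.ne').mul_left _)), P.tors]
  rw [P.tr_add ψ hψ (hA.of_dvd (dvd_mul_right _ _)) (hA.of_dvd (dvd_mul_left _ _)), h0, add_zero]
  exact P.tr_section hψ ha hu _ ht hs hker x

theorem PT.tr_factor (P : PT.{u, v} κ m) {a : κ →+* T} {b : κ →+* Y} {ψ : T →+* Y}
    (hψ : ψ.comp a = b) (ha : IndEP a) {u Φ : Y} (hu : Et1 ψ u) {c : T} {q ω : T[X]} (hq : q.Monic)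
    (hω : ω = (X - C c) * q ^ m) (θ : Y →+* AdjoinRoot ω) (t1 : AdjoinRoot ω →+* T)
    (h1 : θ.comp ψ = AdjoinRoot.of ω) (h2 : θ u = AdjoinRoot.root ω)
    (h3 : RingHom.ker θ = Ideal.span {Φ}) (h4 : t1.comp (AdjoinRoot.of ω) = RingHom.id T)
    (h5 : t1 (AdjoinRoot.root ω) = c) (ht : (t1.comp θ).comp b = a) (x : P.obj b) :
    P.tr ψ hψ u Φ x = P.map (t1.comp θ) ht x := by
  have hm : ω.Monic := by
    rw [hω]
    exact (monic_X_sub_C c).mul (hq.pow m)
  have w : θ.comp (eval₂RingHom ψ u) = AdjoinRoot.mk ω := by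
    refine Polynomial.ringHom_ext (fun r => ?_) ?_
    · simpa using RingHom.congr_fun h1 r
    · simpa using h2
  have hθ : Function.Surjective θ := fun z => by
    obtain ⟨p, rfl⟩ := AdjoinRoot.mk_surjective z
    exact ⟨_, RingHom.congr_fun w p⟩
  have hA : Adm a ψ u Φ := by
    refine ⟨ha, hu, ?_⟩
    rw [← h3]
    refine finMod_ker hθ ?_
    rw [h1]
    exact finite_adjoinRoot_of hm
  obtain ⟨e, Y1, _, l, θ1, he, hl, hθ1, -, hk⟩ :=
    exists_ee_of_section hu AdjoinRoot.mk_surjective θ w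
  have hθ1' : ∀ y, θ1 (l y) = θ y := fun y => RingHom.congr_fun hθ1 y
  have hW : l (ω.eval₂ ψ u) = ω.eval₂ (l.comp ψ) (l u) := hom_eval₂ ω ψ l u
  have hkπ : RingHom.ker (AdjoinRoot.mk ω) = Ideal.span {ω} := by
    ext p
    rw [RingHom.mem_ker, AdjoinRoot.mk_eq_zero, Ideal.mem_span_singleton]
  have hk1 : RingHom.ker θ1 = Ideal.span {ω.eval₂ (l.comp ψ) (l u)} := by
    rw [hk, hkπ, Ideal.map_span, Set.image_singleton, ← hW]
    rfl
  have hu1 : Et1 (l.comp ψ) (l u) := hu.comp hl.etale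
  have hspan : Ideal.span {l Φ} = Ideal.span {ω.eval₂ (l.comp ψ) (l u)} := by
    apply le_antisymm
    · rw [← hk1, Ideal.span_le, Set.singleton_subset_iff, SetLike.mem_coe, RingHom.mem_ker, hθ1',
        ← RingHom.mem_ker, h3]
      exact Ideal.mem_span_singleton_self Φ
    · have h6 : ω.eval₂ ψ u ∈ RingHom.ker θ := by
        rw [RingHom.mem_ker]
        exact (RingHom.congr_fun w ω).trans AdjoinRoot.mk_self
      rw [h3, Ideal.mem_span_singleton] at h6
      rw [← hW]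
      exact Ideal.span_singleton_le_span_singleton.2 (map_dvd l h6)
  obtain ⟨z, hz, hΦ⟩ := SR0_unit hspan fun y hy => hu1.monic_regular hm hy
  have hcop : IsCoprime e Φ := by
    have h6 : e - 1 ∈ RingHom.ker θ := by rw [RingHom.mem_ker, map_sub, he, map_one, sub_self]
    rw [h3, Ideal.mem_span_singleton'] at h6
    obtain ⟨y, hy⟩ := h6
    exact ⟨1, -y, by linear_combination -hy⟩
  have hψ1 : (l.comp ψ).comp a = l.comp b := by rw [RingHom.comp_assoc, hψ]
  have hc : (t1.comp θ1).comp l = t1.comp θ := by rw [RingHom.comp_assoc, hθ1]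
  have ht1 : (t1.comp θ1).comp (l.comp b) = a := by rw [← RingHom.comp_assoc, hc, ht]
  obtain ⟨hA1, h7⟩ := SR0_core P hψ1 ha hu1 hq hω θ1 t1
    (by rw [← RingHom.comp_assoc, hθ1, h1]) (by rw [hθ1', h2]) hk1 h4 h5 ht1 (P.map l rfl x)
  rw [← P.tr_away hψ hψ1 rfl rfl rfl rfl hA hl hcop x, hΦ, P.tr_mul_unit hψ1 hA1 hz, h7]
  exact P.map_map l _ _ rfl ht1 ht hc x

end KEW
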